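import Pool.Agent.Helper58.CY.A1

/-! CY5 A2 (MP_5d2531_al, project CY5, paper /team-store/CY5_paper.md): an element of a form with all off-diagonal entries nonzero (A1 with the product of the variables X_(i,j), i ≠ j) -/

namespace Pool.Agent.Helper58.CY

open Matrix Finset

variable {F : Type*} {Ω : Type*} [Field F] [Field Ω] [Algebra F Ω]

theorem A2 [Infinite F] (D : Subalgebra F (M5 Ω)) (hD : IsForm D) :
    ∃ s ∈ D, ∀ i j : Fin 5, i ≠ j → s i j ≠ 0 := by
  classical
  obtain ⟨s, hs, hne⟩ := A1 D hD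
    (∏ p ∈ (Finset.univ : Finset (Fin 5 × Fin 5)).filter (fun p => p.1 ≠ p.2),
      (MvPolynomial.X p : MvPolynomial (Fin 5 × Fin 5) Ω))
    (Finset.prod_ne_zero_iff.2 fun p _ => MvPolynomial.X_ne_zero p)
  refine ⟨s, hs, fun i j hij h0 => hne ?_⟩
  rw [map_prod]
  refine Finset.prod_eq_zero (i := (i, j)) (Finset.mem_filter.2 ⟨Finset.mem_univ _, hij⟩) ?_
  rw [MvPolynomial.eval_X]
  exact h0

end Pool.Agent.Helper58.CY
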