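import Pool.Agent.Helper58.CY.Defs

/-! CY5 A4 (MP_5d2531_al, project CY5, paper /team-store/CY5_paper.md): conjugation invariance of forms and of the division property -/

namespace Pool.Agent.Helper58.CY

open Matrix Finset

variable {F : Type*} {Ω : Type*} [Field F] [Field Ω] [Algebra F Ω]

theorem A4a (D : Subalgebra F (M5 Ω)) (S S' : M5 Ω) (h : S * S' = 1) (hD : IsForm D) :
    IsForm (conjD D S S' h) := by
  have h' : S' * S = 1 := mul_eq_one_comm.mp h
  obtain ⟨b, hb, hli, hsp⟩ := hD
  have e1 : ∀ x : M5 Ω, S * (S' * x * S) * S' = x := by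
    intro x
    calc S * (S' * x * S) * S' = (S * S') * x * (S * S') := by simp only [mul_assoc]
      _ = x := by rw [h, one_mul, mul_one]
  have e2 : ∀ x : M5 Ω, S' * (S * x * S') * S = x := by
    intro x
    calc S' * (S * x * S') * S = (S' * S) * x * (S' * S) := by simp only [mul_assoc]
      _ = x := by rw [h', one_mul, mul_one]
  refine ⟨fun i => S' * b i * S, fun i => ?_, ?_, fun d hd => ?_⟩
  · rw [mem_conjD, e1]
    exact hb i
  · let f : M5 Ω →ₗ[Ω] M5 Ω :=
      { toFun := fun x => S' * x * S
        map_add' := fun x y => by rw [mul_add, add_mul]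
        map_smul' := fun c x => by
          simp only [mul_smul_comm, smul_mul_assoc, RingHom.id_apply] }
    have hf : LinearMap.ker f = ⊥ := by
      rw [LinearMap.ker_eq_bot]
      intro x y hxy
      have h3 : S' * x * S = S' * y * S := hxy
      rw [← e1 x, h3, e1]
    exact hli.map' f hf
  · rw [mem_conjD] at hd
    obtain ⟨c, hc⟩ := hsp _ hd
    refine ⟨c, ?_⟩
    rw [← e2 d, hc, Finset.mul_sum, Finset.sum_mul]
    refine Finset.sum_congr rfl fun i _ => ?_
    rw [mul_smul_comm, smul_mul_assoc]

theorem A4b (D : Subalgebra F (M5 Ω)) (S S' : M5 Ω) (h : S * S' = 1) (hD : IsDiv D) :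
    IsDiv (conjD D S S' h) := by
  have h' : S' * S = 1 := mul_eq_one_comm.mp h
  intro d hd hd0
  rw [mem_conjD] at hd
  have h0 : S * d * S' ≠ 0 := by
    intro h0
    apply hd0
    calc d = (S' * S) * d * (S' * S) := by rw [h', one_mul, mul_one]
      _ = S' * (S * d * S') * S := by simp only [mul_assoc]
      _ = 0 := by rw [h0, mul_zero, zero_mul]
  obtain ⟨e, he, hde⟩ := hD _ hd h0
  refine ⟨S' * e * S, ?_, ?_⟩
  · rw [mem_conjD]
    have : S * (S' * e * S) * S' = e := by
      calc S * (S' * e * S) * S' = (S * S') * e * (S * S') := by simp only [mul_assoc]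
        _ = e := by rw [h, one_mul, mul_one]
    rw [this]
    exact he
  · calc d * (S' * e * S) = (S' * S) * d * (S' * e * S) := by rw [h', one_mul]
      _ = S' * (S * d * S' * e) * S := by simp only [mul_assoc]
      _ = 1 := by rw [hde, mul_one, h']

end Pool.Agent.Helper58.CY
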