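import Pool.Agent.Helper58.CY.Defs

/-! CY5 A5 (MP_5d2531_al, project CY5, paper /team-store/CY5_paper.md): diagonal part: if diagonal a ∈ D with distinct entries then the diagonal part of every d ∈ D is in D. Proof: T = ad(diagonal a) is an F-linear endomorphism of the finite dimensional space D; ker T = diagonal matrices in D, range T ⊆ zero-diagonal matrices; they meet in 0, so D = ker ⊕ range by dimension (LinearMap.isCompl or finrank_range_add_finrank_ker). -/

namespace Pool.Agent.Helper58.CY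

open Matrix Finset

variable {F : Type*} {Ω : Type*} [Field F] [Field Ω] [Algebra F Ω]

private theorem a5_finite (D : Subalgebra F (M5 Ω)) (hD : IsForm D) : Module.Finite F D := by
  obtain ⟨b, hb, _, hspan⟩ := hD
  let φ : (Fin 25 → F) →ₗ[F] D := Fintype.linearCombination F (fun i => (⟨b i, hb i⟩ : D))
  apply Module.Finite.of_surjective φ
  rintro ⟨d, hd⟩
  obtain ⟨c, hc⟩ := hspan d hd
  refine ⟨c, ?_⟩
  apply Subtype.ext
  change ((φ c : D) : M5 Ω) = d
  rw [hc]
  have h1 : φ c = ∑ i, c i • (⟨b i, hb i⟩ : D) := Fintype.linearCombination_apply F _ c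
  rw [h1]
  have h2 : D.val (∑ i, c i • (⟨b i, hb i⟩ : D)) =
      ∑ i, D.val (c i • (⟨b i, hb i⟩ : D)) := map_sum D.val _ _
  exact h2

theorem A5 (D : Subalgebra F (M5 Ω)) (hD : IsForm D) (a : Fin 5 → Ω) (ha : Function.Injective a)
    (hθ : Matrix.diagonal a ∈ D) (d : M5 Ω) (hd : d ∈ D) :
    Matrix.diagonal (fun i => d i i) ∈ D := by
  have hfin : Module.Finite F D := a5_finite D hD
  let θ : D := ⟨Matrix.diagonal a, hθ⟩
  let T : D →ₗ[F] D := LinearMap.mulLeft F θ - LinearMap.mulRight F θ
  have hT : ∀ (x : D) (i j : Fin 5), (T x : M5 Ω) i j = (a i - a j) * (x : M5 Ω) i j := by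
    intro x i j
    change (Matrix.diagonal a * (x : M5 Ω) - (x : M5 Ω) * Matrix.diagonal a) i j = _
    rw [Matrix.sub_apply, Matrix.diagonal_mul, Matrix.mul_diagonal]
    ring
  have hker : ∀ x : D, T x = 0 → ∀ i j, i ≠ j → (x : M5 Ω) i j = 0 := by
    intro x hx i j hij
    have h1 := hT x i j
    rw [hx] at h1
    have h2 : (a i - a j) * (x : M5 Ω) i j = 0 := h1.symm
    rcases mul_eq_zero.1 h2 with h3 | h3
    · exact absurd (ha (sub_eq_zero.1 h3)) hij
    · exact h3
  have hrange : ∀ x : D, ∀ i, (T x : M5 Ω) i i = 0 := by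
    intro x i
    rw [hT, sub_self, zero_mul]
  have hdisj : Disjoint (LinearMap.ker T) (LinearMap.range T) := by
    rw [Submodule.disjoint_def]
    rintro x hx ⟨y, rfl⟩
    apply Subtype.ext
    ext i j
    change (T y : M5 Ω) i j = 0
    by_cases hij : i = j
    · subst hij
      exact hrange y i
    · exact hker (T y) (LinearMap.mem_ker.1 hx) i j hij
  have htop : LinearMap.ker T ⊔ LinearMap.range T = ⊤ := by
    apply Submodule.eq_top_of_disjoint _ _ _ hdisj
    rw [add_comm, LinearMap.finrank_range_add_finrank_ker]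
  have hd' : (⟨d, hd⟩ : D) ∈ LinearMap.ker T ⊔ LinearMap.range T := by
    rw [htop]
    exact Submodule.mem_top
  obtain ⟨u, hu, v, hv, huv⟩ := Submodule.mem_sup.1 hd'
  obtain ⟨w, rfl⟩ := hv
  have h : Matrix.diagonal (fun i => d i i) = (u : M5 Ω) := by
    have h1 : (u : M5 Ω) + (T w : M5 Ω) = d := congrArg Subtype.val huv
    ext i j
    by_cases hij : i = j
    · subst hij
      rw [Matrix.diagonal_apply_eq, ← h1, Matrix.add_apply, hrange, add_zero]
    · rw [Matrix.diagonal_apply_ne _ hij, hker u (LinearMap.mem_ker.1 hu) i j hij]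
  rw [h]
  exact u.2

end Pool.Agent.Helper58.CY
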