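import Pool.Agent.Helper58.CY.Defs

/-! CY5 A6 (MP_5d2531_al, project CY5, paper /team-store/CY5_paper.md): diagonal elements of D are F-combinations of the powers of θ = diagonal a. Proof: elements of D that are linearly independent over F are so over Ω (form), the diagonal matrices have Ω-dimension 5, and 1,θ,..,θ^4 are independent over Ω (Vandermonde). -/

namespace Pool.Agent.Helper58.CY

open Matrix Finset

variable {F : Type*} {Ω : Type*} [Field F] [Field Ω] [Algebra F Ω]

lemma a6_interp (a : Fin 5 → Ω) (ha : Function.Injective a) (l : Fin 5 → Ω) :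
    ∃ w : Fin 5 → Ω, Matrix.diagonal l = ∑ k : Fin 5, w k • (Matrix.diagonal a) ^ (k : ℕ) := by
  classical
  set p : Polynomial Ω := Lagrange.interpolate (Finset.univ : Finset (Fin 5)) a l with hp
  have hinj : Set.InjOn a ((Finset.univ : Finset (Fin 5)) : Set (Fin 5)) := ha.injOn
  have hdeg : p.natDegree < 5 := by
    have h1 : p.degree < ((Finset.univ : Finset (Fin 5)).card : WithBot ℕ) :=
      Lagrange.degree_interpolate_lt l hinj
    have h2 : ((Finset.univ : Finset (Fin 5)).card) = 5 := by simp
    rw [h2] at h1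
    by_cases hp0 : p = 0
    · rw [hp0]; simp
    · exact (Polynomial.natDegree_lt_iff_degree_lt hp0).mpr (by exact_mod_cast h1)
  refine ⟨fun k => p.coeff (k : ℕ), ?_⟩
  have hev : ∀ i, l i = ∑ k : Fin 5, p.coeff (k : ℕ) * a i ^ (k : ℕ) := by
    intro i
    have h1 : p.eval (a i) = l i := Lagrange.eval_interpolate_at_node l hinj (Finset.mem_univ i)
    rw [← h1, Polynomial.eval_eq_sum_range' hdeg, Finset.sum_range]
  have hk : ∀ k : Fin 5, p.coeff (k : ℕ) • (Matrix.diagonal a) ^ (k : ℕ) =
      Matrix.diagonal (fun i => p.coeff (k : ℕ) * a i ^ (k : ℕ)) := by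
    intro k
    rw [Matrix.diagonal_pow]
    ext i j
    by_cases hij : i = j
    · subst hij; simp
    · simp [Matrix.diagonal_apply_ne _ hij]
  rw [Finset.sum_congr rfl fun k _ => hk k]
  ext i j
  rw [Matrix.sum_apply]
  by_cases hij : i = j
  · subst hij
    simp only [Matrix.diagonal_apply_eq]
    exact hev i
  · simp [Matrix.diagonal_apply_ne _ hij]

theorem A6 (D : Subalgebra F (M5 Ω)) (hD : IsForm D) (a : Fin 5 → Ω) (ha : Function.Injective a)
    (hθ : Matrix.diagonal a ∈ D) (l : Fin 5 → Ω) (hl : Matrix.diagonal l ∈ D) :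
    ∃ c : Fin 5 → F, Matrix.diagonal l = ∑ k : Fin 5, c k • (Matrix.diagonal a) ^ (k : ℕ) := by
  classical
  obtain ⟨b, hbD, hbi, hbs⟩ := hD
  have hpow : ∀ k : Fin 5, (Matrix.diagonal a) ^ (k : ℕ) ∈ D := fun k => D.pow_mem hθ k
  choose C hC using fun k => hbs _ (hpow k)
  obtain ⟨c, hc⟩ := hbs _ hl
  obtain ⟨w, hw⟩ := a6_interp a ha l
  -- coordinates
  have hcoord : ∀ i, algebraMap F Ω (c i) = ∑ k, w k * algebraMap F Ω (C k i) := by
    have h0 : ∑ i, (algebraMap F Ω (c i) - ∑ k, w k * algebraMap F Ω (C k i)) • b i = 0 := by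
      have e1 : Matrix.diagonal l = ∑ i, algebraMap F Ω (c i) • b i := by
        rw [hc]
        exact Finset.sum_congr rfl fun i _ => (algebraMap_smul Ω (c i) (b i)).symm
      have e2 : Matrix.diagonal l = ∑ i, (∑ k, w k * algebraMap F Ω (C k i)) • b i := by
        rw [hw]
        have : ∀ k : Fin 5, w k • (Matrix.diagonal a) ^ (k : ℕ) =
            ∑ i, (w k * algebraMap F Ω (C k i)) • b i := by
          intro k
          rw [hC k, Finset.smul_sum]
          refine Finset.sum_congr rfl fun i _ => ?_
          rw [mul_smul, algebraMap_smul]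
        rw [Finset.sum_congr rfl fun k _ => this k, Finset.sum_comm]
        refine Finset.sum_congr rfl fun i _ => ?_
        rw [Finset.sum_smul]
      simp only [sub_smul, Finset.sum_sub_distrib]
      rw [← e1, ← e2, sub_self]
    have h1 := Fintype.linearIndependent_iff.mp hbi _ h0
    intro i
    exact sub_eq_zero.mp (h1 i)
  -- membership in the span over F
  have hmem : c ∈ Submodule.span F (Set.range C) := by
    by_contra hv
    obtain ⟨f, hfv, hfk⟩ := Submodule.exists_le_ker_of_notMem hv
    apply hfv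
    have hf : ∀ x : Fin 25 → F, f x = ∑ i, x i * f (Pi.single i 1) := by
      intro x
      conv_lhs => rw [← Finset.univ_sum_single x]
      rw [map_sum]
      refine Finset.sum_congr rfl fun i _ => ?_
      have : (Pi.single i (x i) : Fin 25 → F) = x i • Pi.single i 1 := by
        rw [← Pi.single_smul]; simp
      rw [this, map_smul, smul_eq_mul]
    have hz : ∀ k, f (C k) = 0 := fun k => by
      have : C k ∈ LinearMap.ker f := hfk (Submodule.subset_span ⟨k, rfl⟩)
      exact this
    apply (algebraMap F Ω).injective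
    rw [map_zero, hf c, map_sum]
    have : ∀ i, algebraMap F Ω (c i * f (Pi.single i 1)) =
        ∑ k, w k * algebraMap F Ω (C k i * f (Pi.single i 1)) := by
      intro i
      rw [map_mul, hcoord i, Finset.sum_mul]
      refine Finset.sum_congr rfl fun k _ => ?_
      rw [map_mul, mul_assoc]
    rw [Finset.sum_congr rfl fun i _ => this i, Finset.sum_comm]
    refine Finset.sum_eq_zero fun k _ => ?_
    rw [← Finset.mul_sum, ← map_sum, ← hf (C k), hz k, map_zero, mul_zero]
  obtain ⟨e, he⟩ := (Submodule.mem_span_range_iff_exists_fun F).mp hmem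
  refine ⟨e, ?_⟩
  rw [hc]
  have : ∀ k : Fin 5, e k • (Matrix.diagonal a) ^ (k : ℕ) = ∑ i, (e k * C k i) • b i := by
    intro k
    rw [hC k, Finset.smul_sum]
    exact Finset.sum_congr rfl fun i _ => (mul_smul _ _ _).symm
  rw [Finset.sum_congr rfl fun k _ => this k, Finset.sum_comm]
  refine Finset.sum_congr rfl fun i _ => ?_
  rw [← Finset.sum_smul]
  congr 1
  rw [← he, Finset.sum_apply]
  rfl

end Pool.Agent.Helper58.CY
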