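import Pool.Agent.Helper58.CY.A5
import Pool.Agent.Helper58.CY.A6

/-! CY5 A8 (MP_5d2531_al, project CY5, paper /team-store/CY5_paper.md): existence of g: the F-linear map D → (L)^4, g ↦ diagonal parts of g, gs, sg, sgs, has a kernel: dim_F D = 25 > 20 ≥ 4 dim L, L = span_F of the 5 powers of θ (A5, A6). -/

namespace Pool.Agent.Helper58.CY

open Matrix Finset

variable {F : Type*} {Ω : Type*} [Field F] [Field Ω] [Algebra F Ω]

theorem A8 (D : Subalgebra F (M5 Ω)) (hD : IsForm D) (a : Fin 5 → Ω) (ha : Function.Injective a)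
    (hθ : Matrix.diagonal a ∈ D) (s : M5 Ω) (hs : s ∈ D) :
    ∃ g ∈ D, g ≠ 0 ∧ ZD g s := by
  obtain ⟨b, hbD, hbi, _⟩ := id hD
  let P : Fin 4 → M5 Ω := ![1, 1, s, s]
  let Q : Fin 4 → M5 Ω := ![1, s, 1, s]
  have hP : ∀ q, P q ∈ D := by
    intro q
    fin_cases q
    · exact D.one_mem
    · exact D.one_mem
    · exact hs
    · exact hs
  have hQ : ∀ q, Q q ∈ D := by
    intro q
    fin_cases q
    · exact D.one_mem
    · exact hs
    · exact D.one_mem
    · exact hs
  have hc : ∀ (i : Fin 25) (q : Fin 4), ∃ c : Fin 5 → F,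
      Matrix.diagonal (fun j => (P q * b i * Q q) j j) =
        ∑ k : Fin 5, c k • (Matrix.diagonal a) ^ (k : ℕ) := by
    intro i q
    exact A6 D hD a ha hθ _ (A5 D hD a ha hθ _ (D.mul_mem (D.mul_mem (hP q) (hbD i)) (hQ q)))
  choose c hcc using hc
  let f : (Fin 25 → F) →ₗ[F] (Fin 4 → Fin 5 → F) := Fintype.linearCombination F c
  have hker : LinearMap.ker f ≠ ⊥ := by
    apply LinearMap.ker_ne_bot_of_finrank_lt
    rw [Module.finrank_pi_fintype]
    simp [Module.finrank_fintype_fun_eq_card]
  obtain ⟨t, ht, ht0⟩ := (Submodule.ne_bot_iff _).1 hker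
  have hft : ∀ q k, ∑ i, t i * c i q k = 0 := by
    intro q k
    have h1 : f t = 0 := ht
    have h2 : (f t) q k = 0 := by rw [h1]; rfl
    rw [show f t = ∑ i, t i • c i from Fintype.linearCombination_apply F c t] at h2
    simpa [Finset.sum_apply] using h2
  have hdiag : ∀ q j, (P q * (∑ i, t i • b i) * Q q) j j = 0 := by
    intro q j
    have h1 : P q * (∑ i, t i • b i) * Q q = ∑ i, t i • (P q * b i * Q q) := by
      rw [Finset.mul_sum, Finset.sum_mul]
      apply Finset.sum_congr rfl
      intro i _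
      rw [mul_smul_comm, smul_mul_assoc]
    have h2 : ∀ i, (P q * b i * Q q) j j = (∑ k : Fin 5, c i q k • (Matrix.diagonal a) ^ (k : ℕ)) j j := by
      intro i
      rw [← hcc i q, Matrix.diagonal_apply_eq]
    rw [h1, Matrix.sum_apply]
    have h3 : ∀ i, (t i • (P q * b i * Q q)) j j =
        ∑ k : Fin 5, (t i * c i q k) • ((Matrix.diagonal a) ^ (k : ℕ)) j j := by
      intro i
      rw [Matrix.smul_apply, h2 i, Matrix.sum_apply, Finset.smul_sum]
      apply Finset.sum_congr rfl
      intro k _
      rw [Matrix.smul_apply, smul_smul]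
    rw [Finset.sum_congr rfl (fun i _ => h3 i), Finset.sum_comm]
    apply Finset.sum_eq_zero
    intro k _
    rw [← Finset.sum_smul, hft q k, zero_smul]
  refine ⟨∑ i, t i • b i, D.sum_mem fun i _ => D.smul_mem (hbD i) _, ?_, ?_⟩
  · intro h0
    apply ht0
    have h1 : ∑ i, (algebraMap F Ω (t i)) • b i = 0 := by
      rw [← h0]
      apply Finset.sum_congr rfl
      intro i _
      rw [algebraMap_smul]
    have h2 := Fintype.linearIndependent_iff.1 hbi (fun i => algebraMap F Ω (t i)) h1
    funext i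
    exact (map_eq_zero (algebraMap F Ω)).1 (h2 i)
  · constructor
    · intro i
      have := hdiag 0 i
      simpa [P, Q] using this
    · intro i
      have := hdiag 1 i
      simpa [P, Q] using this
    · intro i
      have := hdiag 2 i
      simpa [P, Q] using this
    · intro i
      have := hdiag 3 i
      simpa [P, Q] using this

end Pool.Agent.Helper58.CY
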