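import Pool.Agent.Helper58.CY.Defs

/-! CY5 B1 (MP_5d2531_al, project CY5, paper /team-store/CY5_paper.md): basic identities for Y and x_i (paper (1)) -/

namespace Pool.Agent.Helper58.CY

open Matrix Finset

variable {Ω : Type*} [CommRing Ω]

theorem B1a (g s : M5 Ω) (l : Fin 5 → Ω) : Y g s l = ∑ i, l i • xx g s i := by
  have hd : Matrix.diagonal l = ∑ i, l i • Matrix.diagonal (Pi.single i (1 : Ω)) := by
    ext a b
    simp only [Matrix.sum_apply, Matrix.smul_apply, Matrix.diagonal_apply, smul_eq_mul]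
    by_cases hab : a = b
    · subst hab
      simp [Pi.single_apply]
    · simp [hab]
  unfold xx Y
  rw [hd]
  simp only [Finset.mul_sum, Finset.sum_mul, mul_sub, mul_smul_comm, smul_mul_assoc,
    Finset.sum_sub_distrib, smul_sub]

theorem B1b (g s : M5 Ω) : ∑ i, xx g s i = 0 := by
  have h := B1a g s (fun _ => 1)
  simp only [one_smul] at h
  rw [← h]
  unfold Y
  have : Matrix.diagonal (fun _ : Fin 5 => (1 : Ω)) = 1 := Matrix.diagonal_one
  rw [this]
  simp

theorem B1c (g s : M5 Ω) (h : ZD g s) (i : Fin 5) : xx g s i * xx g s i = 0 := by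
  have key : ∀ m : M5 Ω, Matrix.diagonal (Pi.single i (1 : Ω)) * m * Matrix.diagonal (Pi.single i (1 : Ω))
      = m i i • Matrix.diagonal (Pi.single i (1 : Ω)) := by
    intro m
    ext a b
    rw [Matrix.mul_diagonal, Matrix.diagonal_mul, Matrix.smul_apply, Matrix.diagonal_apply]
    simp only [Pi.single_apply, smul_eq_mul]
    by_cases ha : a = i
    · by_cases hb : b = i
      · subst ha; subst hb; simp
      · have : ¬ a = b := fun hh => hb (hh ▸ ha)
        simp [hb, this]
    · simp [ha]
  set E := Matrix.diagonal (Pi.single i (1 : Ω)) with hE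
  have e1 := key g
  have e2 := key (g * s)
  have e3 := key (s * g)
  have e4 := key (s * g * s)
  rw [h.d1 i, zero_smul] at e1
  rw [h.d2 i, zero_smul] at e2
  rw [h.d3 i, zero_smul] at e3
  rw [h.d4 i, zero_smul] at e4
  have hx : xx g s i = g * (s * E - E * s) := rfl
  rw [hx]
  calc g * (s * E - E * s) * (g * (s * E - E * s))
      = g * s * (E * (g * s) * E) - g * s * (E * g * E) * s - g * (E * (s * g * s) * E)
        + g * (E * (s * g) * E) * s := by noncomm_ring
    _ = 0 := by rw [e1, e2, e3, e4]; simp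

theorem B1d (g s : M5 Ω) (h : ZD g s) (i : Fin 5) : Matrix.trace (xx g s i) = 0 := by
  have hx : xx g s i = (g * s) * Matrix.diagonal (Pi.single i (1 : Ω)) -
      g * (Matrix.diagonal (Pi.single i (1 : Ω)) * s) := by
    unfold xx Y
    rw [mul_sub, mul_assoc]
  rw [hx, Matrix.trace_sub, ← mul_assoc, Matrix.trace_mul_comm (g * Matrix.diagonal (Pi.single i (1 : Ω))) s,
    ← mul_assoc]
  simp only [Matrix.trace, Matrix.diag_apply, Matrix.mul_diagonal, Pi.single_apply, mul_ite, mul_one,
    mul_zero, Finset.sum_ite_eq', Finset.mem_univ, if_true]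
  rw [h.d2 i, h.d3 i, sub_zero]

end Pool.Agent.Helper58.CY
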