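import Pool.Agent.Helper58.CY.B1

/-! CY5 B2 (MP_5d2531_al, project CY5, paper /team-store/CY5_paper.md): tr Y = 0 and tr Y^3 = 0 (paper (2)). Only x_i^2 = 0, sum x_i = 0 are used: put t i j k = tr(x_i x_j x_k); solve the 10x10 system (inverse of the Petersen matrix: t_ijk is 1/6 of a combination of the sums); linear_combination after expanding over Fin 5. -/

namespace Pool.Agent.Helper58.CY

open Matrix Finset

variable {Ω : Type*} [Field Ω]

theorem B2t (t : Fin 5 → Fin 5 → Fin 5 → Ω) (h6 : (6 : Ω) ≠ 0)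
    (s1 : ∀ i j k, t i j k = t i k j) (s2 : ∀ i j k, t i j k = t j i k)
    (z1 : ∀ i k, t i i k = 0) (ss : ∀ i j, ∑ k, t i j k = 0)
    (i j k : Fin 5) : t i j k = 0 := by
  have s3 : ∀ a b c, t a b c = t c a b := fun a b c => by rw [s1 a b c, s2 a c b]
  have z2 : ∀ a b, t a b a = 0 := fun a b => by rw [s1 a b a, z1]
  have z3 : ∀ a b, t a b b = 0 := fun a b => by rw [s2 a b b, s1 b a b, z1]
  by_cases hij : i = j
  · rw [hij, z1]
  by_cases hik : i = k
  · rw [hik, z2]
  by_cases hjk : j = k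
  · rw [hjk, z3]
  have hde : ∀ i j k : Fin 5, i ≠ j → i ≠ k → j ≠ k → ∃ d e : Fin 5,
      (Finset.univ : Finset (Fin 5)) = {i, j, k, d, e} ∧ i ≠ d ∧ i ≠ e ∧ j ≠ d ∧ j ≠ e ∧ k ≠ d ∧ k ≠ e ∧ d ≠ e := by
    decide
  obtain ⟨d, e, hu, h1, h2, h3, h4, h5, h6', h7⟩ := hde i j k hij hik hjk
  have E : ∀ a b, t a b i + (t a b j + (t a b k + (t a b d + t a b e))) = 0 := by
    intro a b
    have := ss a b
    rw [hu, Finset.sum_insert (by simp [hij, hik, h1, h2]), Finset.sum_insert (by simp [hjk, h3, h4]),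
      Finset.sum_insert (by simp [h5, h6']), Finset.sum_insert (by simp [h7]),
      Finset.sum_singleton] at this
    exact this
  have key : (6 : Ω) * t i j k = 0 := by
    linear_combination (2) * E i j + (-2) * z2 i j + (-2) * z3 i j + (2) * E i k + (-2) * z2 i k + (-2) * s1 i k j + (-2) * z3 i k + (-1) * E i d + (1) * z2 i d + (1) * s1 i d j + (1) * s1 i d k + (1) * z3 i d + (-1) * E i e + (1) * z2 i e + (1) * s1 i e j + (1) * s1 i e k + (1) * s1 i e d + (1) * z3 i e + (2) * E j k + (-2) * s3 j k i + (-2) * z2 j k + (-2) * z3 j k + (-1) * E j d + (1) * s3 j d i + (1) * z2 j d + (1) * s1 j d k + (1) * z3 j d + (-1) * E j e + (1) * s3 j e i + (1) * z2 j e + (1) * s1 j e k + (1) * s1 j e d + (1) * z3 j e + (-1) * E k d + (1) * s3 k d i + (1) * s3 k d j + (1) * z2 k d + (1) * z3 k d + (-1) * E k e + (1) * s3 k e i + (1) * s3 k e j + (1) * z2 k e + (1) * s1 k e d + (1) * z3 k e + (2) * E d e + (-2) * s3 d e i + (-2) * s3 d e j + (-2) * s3 d e k + (-2) * z2 d e + (-2) * z3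 d e
  rcases mul_eq_zero.mp key with h | h
  · exact absurd h h6
  · exact h

theorem B2aux (T : Fin 5 → Fin 5 → Fin 5 → Ω) (h6 : (6 : Ω) ≠ 0)
    (hc : ∀ i j k, T i j k = T j k i) (hz : ∀ i k, T i i k = 0) (hs : ∀ i j, ∑ k, T i j k = 0)
    (i j k : Fin 5) : T i j k + T i k j = 0 := by
  refine B2t (fun i j k => T i j k + T i k j) h6 (fun i j k => add_comm _ _) ?_ ?_ ?_ i j k
  · intro i j k
    show T i j k + T i k j = T j i k + T j k i
    linear_combination hc i j k - hc j i k
  · intro i k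
    show T i i k + T i k i = 0
    linear_combination hz i k + hc i k i + hc k i i + hz i k
  · intro i j
    show ∑ k, (T i j k + T i k j) = 0
    rw [Finset.sum_add_distrib, hs i j, zero_add, ← hs j i]
    exact Finset.sum_congr rfl fun k _ => by rw [hc j i k]

theorem B2a (x : Fin 5 → M5 Ω) (h6 : (6 : Ω) ≠ 0) (hx : ∀ i, x i * x i = 0) (hs : ∑ i, x i = 0)
    (l : Fin 5 → Ω) :
    Matrix.trace ((∑ i, l i • x i) * (∑ i, l i • x i) * (∑ i, l i • x i)) = 0 := by
  have hT := B2aux (fun i j k => Matrix.trace (x i * x j * x k)) h6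
    (fun i j k => by
      show Matrix.trace (x i * x j * x k) = Matrix.trace (x j * x k * x i)
      rw [mul_assoc, Matrix.trace_mul_comm])
    (fun i k => by
      show Matrix.trace (x i * x i * x k) = 0
      rw [hx, zero_mul, Matrix.trace_zero])
    (fun i j => by
      show ∑ k, Matrix.trace (x i * x j * x k) = 0
      rw [← Matrix.trace_sum, ← Finset.mul_sum, hs, mul_zero, Matrix.trace_zero])
  have h2 : (2 : Ω) ≠ 0 := by
    intro h
    apply h6
    linear_combination 3 * h
  have e : Matrix.trace ((∑ i, l i • x i) * (∑ i, l i • x i) * (∑ i, l i • x i)) =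
      ∑ i, ∑ j, ∑ k, l i * l j * l k * Matrix.trace (x i * x j * x k) := by
    rw [Finset.sum_mul_sum, Finset.sum_mul, Matrix.trace_sum]
    refine Finset.sum_congr rfl fun i _ => ?_
    rw [Finset.sum_mul, Matrix.trace_sum]
    refine Finset.sum_congr rfl fun j _ => ?_
    rw [Finset.mul_sum, Matrix.trace_sum]
    refine Finset.sum_congr rfl fun k _ => ?_
    simp only [smul_mul_assoc, mul_smul_comm, Matrix.trace_smul, smul_eq_mul]
    ring
  have e' : Matrix.trace ((∑ i, l i • x i) * (∑ i, l i • x i) * (∑ i, l i • x i)) =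
      ∑ i, ∑ j, ∑ k, l i * l j * l k * Matrix.trace (x i * x k * x j) := by
    rw [e]
    refine Finset.sum_congr rfl fun i _ => ?_
    rw [Finset.sum_comm]
    exact Finset.sum_congr rfl fun j _ => Finset.sum_congr rfl fun k _ => by ring
  have key : (2 : Ω) * Matrix.trace ((∑ i, l i • x i) * (∑ i, l i • x i) * (∑ i, l i • x i)) = 0 := by
    rw [two_mul]
    nth_rewrite 1 [e]
    rw [e', ← Finset.sum_add_distrib]
    refine Finset.sum_eq_zero fun i _ => ?_
    rw [← Finset.sum_add_distrib]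
    refine Finset.sum_eq_zero fun j _ => ?_
    rw [← Finset.sum_add_distrib]
    refine Finset.sum_eq_zero fun k _ => ?_
    have := hT i j k
    linear_combination l i * l j * l k * this
  rcases mul_eq_zero.mp key with h | h
  · exact absurd h h2
  · exact h

theorem B2 (g s : M5 Ω) (h6 : (6 : Ω) ≠ 0) (h : ZD g s) (l : Fin 5 → Ω) :
    Matrix.trace (Y g s l) = 0 ∧ Matrix.trace (Y g s l * Y g s l * Y g s l) = 0 := by
  constructor
  · rw [B1a, Matrix.trace_sum]
    refine Finset.sum_eq_zero fun i _ => ?_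
    rw [Matrix.trace_smul, B1d g s h, smul_zero]
  · rw [B1a]
    exact B2a (xx g s) h6 (B1c g s h) (B1b g s) l

end Pool.Agent.Helper58.CY
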