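import Pool.Agent.Helper58.CY.B1

/-! CY5 B3 (MP_5d2531_al, project CY5, paper /team-store/CY5_paper.md): the bilinear form tr(Y(l) Y(m)) (paper (3)) -/

namespace Pool.Agent.Helper58.CY

open Matrix Finset

variable {Ω : Type*} [CommRing Ω]

theorem B3a (g s : M5 Ω) (l m : Fin 5 → Ω) :
    Matrix.trace (Y g s l * Y g s m) = ∑ i, ∑ j, ww g s i j * l i * m j := by
  rw [B1a g s l, B1a g s m, Finset.sum_mul, Matrix.trace_sum]
  apply Finset.sum_congr rfl
  intro i _
  rw [Finset.mul_sum, Matrix.trace_sum]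
  apply Finset.sum_congr rfl
  intro j _
  rw [smul_mul_smul_comm, Matrix.trace_smul, ww, smul_eq_mul]
  ring

theorem B3b (g s : M5 Ω) (i j : Fin 5) : ww g s i j = ww g s j i := by
  unfold ww
  exact Matrix.trace_mul_comm _ _

theorem B3c (g s : M5 Ω) (h : ZD g s) (i : Fin 5) : ww g s i i = 0 := by
  unfold ww
  rw [B1c g s h i, Matrix.trace_zero]

theorem B3d (g s : M5 Ω) (i : Fin 5) : ∑ j, ww g s i j = 0 := by
  unfold ww
  rw [← Matrix.trace_sum, ← Finset.mul_sum, B1b, mul_zero, Matrix.trace_zero]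

theorem B3e (g s : M5 Ω) (l : Fin 5 → Ω) (i : Fin 5) :
    Matrix.trace (xx g s i * Y g s l) = ∑ j, ww g s i j * l j := by
  rw [B1a g s l, Finset.mul_sum, Matrix.trace_sum]
  apply Finset.sum_congr rfl
  intro j _
  rw [mul_smul_comm, Matrix.trace_smul, ww, smul_eq_mul, mul_comm]

end Pool.Agent.Helper58.CY
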