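import Pool.Agent.Helper58.CY.Defs

/-! CY5 B4 (MP_5d2531_al, project CY5, paper /team-store/CY5_paper.md): identity (4) of the paper: sum_ij w_ij prod_{k≠i,j}(t-a_k) = t q(a) - (e1 q(a) - 2 B(a^2,a)); divide by prod (t - a_k). Linear combination of the row sum relations (expand over Fin 5). -/

namespace Pool.Agent.Helper58.CY

open Matrix Finset

variable {Ω : Type*} [Field Ω]

private lemma b4_key (a : Fin 5 → Ω) (t e1 e2 e3 : Ω) (ht : ∀ i, t - a i ≠ 0)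
    (h1 : e1 = a 0 + a 1 + a 2 + a 3 + a 4)
    (h2 : e2 = a 0 * a 1 + a 0 * a 2 + a 0 * a 3 + a 0 * a 4 + a 1 * a 2 + a 1 * a 3 + a 1 * a 4 +
      a 2 * a 3 + a 2 * a 4 + a 3 * a 4)
    (h3 : e3 = a 0 * a 1 * a 2 + a 0 * a 1 * a 3 + a 0 * a 1 * a 4 + a 0 * a 2 * a 3 +
      a 0 * a 2 * a 4 + a 0 * a 3 * a 4 + a 1 * a 2 * a 3 + a 1 * a 2 * a 4 + a 1 * a 3 * a 4 +
      a 2 * a 3 * a 4) (i j : Fin 5) (hij : i ≠ j) :
    ((t - a 0) * (t - a 1) * (t - a 2) * (t - a 3) * (t - a 4)) * ((t - a i)⁻¹ * (t - a j)⁻¹) =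
      ((t - e1) * (a i * a j) + (a i ^ 2 * a j + a i * a j ^ 2)) +
      ((t ^ 3 - t ^ 2 * e1 + t * e2 - e3) + (t ^ 2 * a i - t * e1 * a i + t * a i ^ 2 + e2 * a i -
        e1 * a i ^ 2 + a i ^ 3)) +
      (t ^ 2 * a j - t * e1 * a j + t * a j ^ 2 + e2 * a j - e1 * a j ^ 2 + a j ^ 3) := by
  have hb0 := mul_inv_cancel₀ (ht 0)
  have hb1 := mul_inv_cancel₀ (ht 1)
  have hb2 := mul_inv_cancel₀ (ht 2)
  have hb3 := mul_inv_cancel₀ (ht 3)
  have hb4 := mul_inv_cancel₀ (ht 4)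
  subst h1 h2 h3
  fin_cases i <;> fin_cases j <;> first | exact absurd rfl hij | skip
  all_goals simp only [Fin.zero_eta, Fin.mk_one, Fin.reduceFinMk]
  · linear_combination (exp := 1) ((t - a 2) * (t - a 3) * (t - a 4)) * ((t - a 1) * (t - a 1)⁻¹ * hb0 + hb1)
  · linear_combination (exp := 1) ((t - a 1) * (t - a 3) * (t - a 4)) * ((t - a 2) * (t - a 2)⁻¹ * hb0 + hb2)
  · linear_combination (exp := 1) ((t - a 1) * (t - a 2) * (t - a 4)) * ((t - a 3) * (t - a 3)⁻¹ * hb0 + hb3)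
  · linear_combination (exp := 1) ((t - a 1) * (t - a 2) * (t - a 3)) * ((t - a 4) * (t - a 4)⁻¹ * hb0 + hb4)
  · linear_combination (exp := 1) ((t - a 2) * (t - a 3) * (t - a 4)) * ((t - a 1) * (t - a 1)⁻¹ * hb0 + hb1)
  · linear_combination (exp := 1) ((t - a 0) * (t - a 3) * (t - a 4)) * ((t - a 2) * (t - a 2)⁻¹ * hb1 + hb2)
  · linear_combination (exp := 1) ((t - a 0) * (t - a 2) * (t - a 4)) * ((t - a 3) * (t - a 3)⁻¹ * hb1 + hb3)
  · linear_combination (exp := 1) ((t - a 0) * (t - a 2) * (t - a 3)) * ((t - a 4) * (t - a 4)⁻¹ * hb1 + hb4)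
  · linear_combination (exp := 1) ((t - a 1) * (t - a 3) * (t - a 4)) * ((t - a 2) * (t - a 2)⁻¹ * hb0 + hb2)
  · linear_combination (exp := 1) ((t - a 0) * (t - a 3) * (t - a 4)) * ((t - a 2) * (t - a 2)⁻¹ * hb1 + hb2)
  · linear_combination (exp := 1) ((t - a 0) * (t - a 1) * (t - a 4)) * ((t - a 3) * (t - a 3)⁻¹ * hb2 + hb3)
  · linear_combination (exp := 1) ((t - a 0) * (t - a 1) * (t - a 3)) * ((t - a 4) * (t - a 4)⁻¹ * hb2 + hb4)
  · linear_combination (exp := 1) ((t - a 1) * (t - a 2) * (t - a 4)) * ((t - a 3) * (t - a 3)⁻¹ * hb0 + hb3)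
  · linear_combination (exp := 1) ((t - a 0) * (t - a 2) * (t - a 4)) * ((t - a 3) * (t - a 3)⁻¹ * hb1 + hb3)
  · linear_combination (exp := 1) ((t - a 0) * (t - a 1) * (t - a 4)) * ((t - a 3) * (t - a 3)⁻¹ * hb2 + hb3)
  · linear_combination (exp := 1) ((t - a 0) * (t - a 1) * (t - a 2)) * ((t - a 4) * (t - a 4)⁻¹ * hb3 + hb4)
  · linear_combination (exp := 1) ((t - a 1) * (t - a 2) * (t - a 3)) * ((t - a 4) * (t - a 4)⁻¹ * hb0 + hb4)
  · linear_combination (exp := 1) ((t - a 0) * (t - a 2) * (t - a 3)) * ((t - a 4) * (t - a 4)⁻¹ * hb1 + hb4)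
  · linear_combination (exp := 1) ((t - a 0) * (t - a 1) * (t - a 3)) * ((t - a 4) * (t - a 4)⁻¹ * hb2 + hb4)
  · linear_combination (exp := 1) ((t - a 0) * (t - a 1) * (t - a 2)) * ((t - a 4) * (t - a 4)⁻¹ * hb3 + hb4)

theorem B4 (w : Fin 5 → Fin 5 → Ω) (hsym : ∀ i j, w i j = w j i) (h0 : ∀ i, w i i = 0)
    (hr : ∀ i, ∑ j, w i j = 0) (a : Fin 5 → Ω) (t : Ω) (ht : ∀ i, t - a i ≠ 0)
    (h : (t - ∑ i, a i) * (∑ i, ∑ j, w i j * a i * a j) + 2 * (∑ i, ∑ j, w i j * a i ^ 2 * a j) = 0) :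
    ∑ i, ∑ j, w i j * (t - a i)⁻¹ * (t - a j)⁻¹ = 0 := by
  set P : Ω := (t - a 0) * (t - a 1) * (t - a 2) * (t - a 3) * (t - a 4) with hP
  have hP0 : P ≠ 0 := by
    rw [hP]
    exact mul_ne_zero (mul_ne_zero (mul_ne_zero (mul_ne_zero (ht 0) (ht 1)) (ht 2)) (ht 3)) (ht 4)
  set e1 : Ω := a 0 + a 1 + a 2 + a 3 + a 4 with he1
  set e2 : Ω := a 0 * a 1 + a 0 * a 2 + a 0 * a 3 + a 0 * a 4 + a 1 * a 2 + a 1 * a 3 + a 1 * a 4 +
      a 2 * a 3 + a 2 * a 4 + a 3 * a 4 with he2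
  set e3 : Ω := a 0 * a 1 * a 2 + a 0 * a 1 * a 3 + a 0 * a 1 * a 4 + a 0 * a 2 * a 3 +
      a 0 * a 2 * a 4 + a 0 * a 3 * a 4 + a 1 * a 2 * a 3 + a 1 * a 2 * a 4 + a 1 * a 3 * a 4 +
      a 2 * a 3 * a 4 with he3
  have hs : ∑ i, a i = e1 := by rw [Fin.sum_univ_five]
  rw [hs] at h
  apply (mul_right_inj' hP0).mp
  rw [mul_zero, Finset.mul_sum]
  have h1 : ∀ i, P * ∑ j, w i j * (t - a i)⁻¹ * (t - a j)⁻¹ =
      (∑ j, w i j * ((t - e1) * (a i * a j) + (a i ^ 2 * a j + a i * a j ^ 2))) +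
      (∑ j, w i j) * ((t ^ 3 - t ^ 2 * e1 + t * e2 - e3) + (t ^ 2 * a i - t * e1 * a i + t * a i ^ 2 +
        e2 * a i - e1 * a i ^ 2 + a i ^ 3)) +
      ∑ j, w i j * (t ^ 2 * a j - t * e1 * a j + t * a j ^ 2 + e2 * a j - e1 * a j ^ 2 + a j ^ 3) := by
    intro i
    rw [Finset.mul_sum, Finset.sum_mul, ← Finset.sum_add_distrib, ← Finset.sum_add_distrib]
    apply Finset.sum_congr rfl
    intro j _
    by_cases hij : i = j
    · subst hij
      rw [h0]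
      ring
    · have h2 := b4_key a t e1 e2 e3 ht he1 he2 he3 i j hij
      calc P * (w i j * (t - a i)⁻¹ * (t - a j)⁻¹) = w i j * (P * ((t - a i)⁻¹ * (t - a j)⁻¹)) := by ring
        _ = _ := by rw [hP, h2]; ring
  rw [Finset.sum_congr rfl fun i _ => h1 i]
  simp only [hr, zero_mul, add_zero]
  rw [Finset.sum_add_distrib]
  have h3 : ∑ i, ∑ j, w i j * (t ^ 2 * a j - t * e1 * a j + t * a j ^ 2 + e2 * a j - e1 * a j ^ 2 +
      a j ^ 3) = 0 := by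
    rw [Finset.sum_comm]
    apply Finset.sum_eq_zero
    intro j _
    rw [← Finset.sum_mul]
    have : ∑ i, w i j = 0 := by
      rw [← hr j]
      exact Finset.sum_congr rfl fun i _ => hsym i j
    rw [this, zero_mul]
  rw [h3, add_zero]
  have h4 : ∑ i, ∑ j, w i j * (a i * a j ^ 2) = ∑ i, ∑ j, w i j * a i ^ 2 * a j := by
    rw [Finset.sum_comm]
    apply Finset.sum_congr rfl
    intro j _
    apply Finset.sum_congr rfl
    intro i _
    rw [hsym i j]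
    ring
  have h5 : ∑ i, ∑ j, w i j * ((t - e1) * (a i * a j) + (a i ^ 2 * a j + a i * a j ^ 2)) =
      (t - e1) * (∑ i, ∑ j, w i j * a i * a j) + ((∑ i, ∑ j, w i j * a i ^ 2 * a j) +
        ∑ i, ∑ j, w i j * (a i * a j ^ 2)) := by
    rw [Finset.mul_sum, ← Finset.sum_add_distrib, ← Finset.sum_add_distrib]
    apply Finset.sum_congr rfl
    intro i _
    rw [Finset.mul_sum, ← Finset.sum_add_distrib, ← Finset.sum_add_distrib]
    apply Finset.sum_congr rfl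
    intro j _
    ring
  rw [h5, h4, ← h]
  ring

end Pool.Agent.Helper58.CY
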