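import Pool.Agent.Helper58.CY.Defs

/-! CY5 B5 (MP_5d2531_al, project CY5, paper /team-store/CY5_paper.md): second identity (paper (5)): if w kills a (rows) then sum w_ij a_i^2 a_j^2 = 0: for i ≠ j, h4 - e1 h3 + e2 h2 - e3 h1 + e4 = 0 where h_k = h_k(a_i,a_j), e_k = e_k(a_1..a_5). -/

namespace Pool.Agent.Helper58.CY

open Matrix Finset

variable {Ω : Type*} [CommRing Ω]

/-- the coefficient of `u^4` in the product of `1 - u a_k` over `k` different from `i, j` is zero -/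
lemma B5_aux (a : Fin 5 → Ω) (i j : Fin 5) (hij : i ≠ j) :
    (a i ^ 4 + a i ^ 3 * a j + a i ^ 2 * a j ^ 2 + a i * a j ^ 3 + a j ^ 4)
      - (a 0 + a 1 + a 2 + a 3 + a 4) * (a i ^ 3 + a i ^ 2 * a j + a i * a j ^ 2 + a j ^ 3)
      + (a 0 * a 1 + a 0 * a 2 + a 0 * a 3 + a 0 * a 4 + a 1 * a 2 + a 1 * a 3 + a 1 * a 4
          + a 2 * a 3 + a 2 * a 4 + a 3 * a 4) * (a i ^ 2 + a i * a j + a j ^ 2)
      - (a 0 * a 1 * a 2 + a 0 * a 1 * a 3 + a 0 * a 1 * a 4 + a 0 * a 2 * a 3 + a 0 * a 2 * a 4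
          + a 0 * a 3 * a 4 + a 1 * a 2 * a 3 + a 1 * a 2 * a 4 + a 1 * a 3 * a 4
          + a 2 * a 3 * a 4) * (a i + a j)
      + (a 0 * a 1 * a 2 * a 3 + a 0 * a 1 * a 2 * a 4 + a 0 * a 1 * a 3 * a 4
          + a 0 * a 2 * a 3 * a 4 + a 1 * a 2 * a 3 * a 4) = 0 := by
  generalize h0 : a 0 = x0
  generalize h1 : a 1 = x1
  generalize h2 : a 2 = x2
  generalize h3 : a 3 = x3
  generalize h4 : a 4 = x4
  fin_cases i <;> fin_cases j <;>
    first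
    | exact absurd rfl hij
    | (simp only [Fin.zero_eta, Fin.mk_one, Fin.reduceFinMk, h0, h1, h2, h3, h4]; ring)

theorem B5 (w : Fin 5 → Fin 5 → Ω) (hsym : ∀ i j, w i j = w j i) (h0 : ∀ i, w i i = 0)
    (hr : ∀ i, ∑ j, w i j = 0) (a : Fin 5 → Ω) (ha : ∀ i, ∑ j, w i j * a j = 0) :
    ∑ i, ∑ j, w i j * a i ^ 2 * a j ^ 2 = 0 := by
  obtain ⟨e1, e2, e3, e4, he⟩ : ∃ e1 e2 e3 e4 : Ω, ∀ i j, i ≠ j →
      (a i ^ 4 + a i ^ 3 * a j + a i ^ 2 * a j ^ 2 + a i * a j ^ 3 + a j ^ 4)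
      - e1 * (a i ^ 3 + a i ^ 2 * a j + a i * a j ^ 2 + a j ^ 3)
      + e2 * (a i ^ 2 + a i * a j + a j ^ 2) - e3 * (a i + a j) + e4 = 0 :=
    ⟨_, _, _, _, fun i j hij => B5_aux a i j hij⟩
  have hR : ∀ f : Fin 5 → Ω, ∑ i, ∑ j, w i j * f i = 0 := by
    intro f
    refine Finset.sum_eq_zero fun i _ => ?_
    rw [← Finset.sum_mul, hr, zero_mul]
  have hR' : ∀ f : Fin 5 → Ω, ∑ i, ∑ j, w i j * f j = 0 := by
    intro f
    rw [Finset.sum_comm]
    refine Finset.sum_eq_zero fun i _ => ?_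
    rw [← Finset.sum_mul]
    have : ∑ j, w j i = 0 := by
      rw [← hr i]
      exact Finset.sum_congr rfl fun j _ => hsym j i
    rw [this, zero_mul]
  have hA : ∀ f : Fin 5 → Ω, ∑ i, ∑ j, w i j * (f i * a j) = 0 := by
    intro f
    refine Finset.sum_eq_zero fun i _ => ?_
    have : ∀ j, w i j * (f i * a j) = f i * (w i j * a j) := fun j => by ring
    rw [Finset.sum_congr rfl fun j _ => this j, ← Finset.mul_sum, ha, mul_zero]
  have hA' : ∀ f : Fin 5 → Ω, ∑ i, ∑ j, w i j * (a i * f j) = 0 := by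
    intro f
    rw [Finset.sum_comm]
    refine Finset.sum_eq_zero fun j _ => ?_
    have : ∀ i, w i j * (a i * f j) = f j * (w j i * a i) := fun i => by rw [hsym i j]; ring
    rw [Finset.sum_congr rfl fun i _ => this i, ← Finset.mul_sum, ha, mul_zero]
  have hpt : ∀ i j, w i j * a i ^ 2 * a j ^ 2 =
      -(w i j * (a i ^ 4 - e1 * a i ^ 3 + e2 * a i ^ 2 - e3 * a i + e4))
      - w i j * (a j ^ 4 - e1 * a j ^ 3 + e2 * a j ^ 2 - e3 * a j)
      - w i j * ((a i ^ 3 - e1 * a i ^ 2 + e2 * a i) * a j)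
      - w i j * (a i * (a j ^ 3 - e1 * a j ^ 2)) := by
    intro i j
    by_cases hij : i = j
    · subst hij
      rw [h0]
      ring
    · have := he i j hij
      linear_combination w i j * this
  calc ∑ i, ∑ j, w i j * a i ^ 2 * a j ^ 2
      = ∑ i, ∑ j, (-(w i j * (a i ^ 4 - e1 * a i ^ 3 + e2 * a i ^ 2 - e3 * a i + e4))
      - w i j * (a j ^ 4 - e1 * a j ^ 3 + e2 * a j ^ 2 - e3 * a j)
      - w i j * ((a i ^ 3 - e1 * a i ^ 2 + e2 * a i) * a j)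
      - w i j * (a i * (a j ^ 3 - e1 * a j ^ 2))) :=
        Finset.sum_congr rfl fun i _ => Finset.sum_congr rfl fun j _ => hpt i j
    _ = 0 := by
      simp only [Finset.sum_sub_distrib, Finset.sum_neg_distrib]
      rw [hR fun i => a i ^ 4 - e1 * a i ^ 3 + e2 * a i ^ 2 - e3 * a i + e4,
        hR' fun j => a j ^ 4 - e1 * a j ^ 3 + e2 * a j ^ 2 - e3 * a j,
        hA fun i => a i ^ 3 - e1 * a i ^ 2 + e2 * a i,
        hA' fun j => a j ^ 3 - e1 * a j ^ 2]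
      simp

end Pool.Agent.Helper58.CY
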