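import Pool.Agent.Helper58.CY.A7
import Pool.Agent.Helper58.CY.B3
import Pool.Agent.Helper58.CY.B4

/-! CY5 C0 (MP_5d2531_al, project CY5, paper /team-store/CY5_paper.md): choice of l0 (paper (4)): if q(a) = 0 take l = a, otherwise t = R/q(a) ∈ F and l = (t - a)^{-1}; t ∈ F by A7 (traces of Y(a)Y(a), Y(a^2)Y(a), θ), (t·1 - θ)^{-1} ∈ D by IsDiv (inverse is diagonal); t ≠ a i because otherwise the nonzero element t·1-θ of D would be singular; B3, B4. -/

namespace Pool.Agent.Helper58.CY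

open Matrix Finset

variable {F : Type*} {Ω : Type*} [Field F] [Field Ω] [Algebra F Ω]

theorem C0 (D : Subalgebra F (M5 Ω)) (hD : IsForm D) (hdiv : IsDiv D) (a : Fin 5 → Ω)
    (ha : Function.Injective a) (hθ : Matrix.diagonal a ∈ D) (g s : M5 Ω) (hg : g ∈ D) (hs : s ∈ D)
    (hz : ZD g s) :
    ∃ l : Fin 5 → Ω, Function.Injective l ∧ Matrix.diagonal l ∈ D ∧
      Matrix.trace (Y g s l * Y g s l) = 0 := by
  classical
  have hY : ∀ l : Fin 5 → Ω, Matrix.diagonal l ∈ D → Y g s l ∈ D := by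
    intro l hl
    unfold Y
    exact D.mul_mem hg (D.sub_mem (D.mul_mem hs hl) (D.mul_mem hl hs))
  have hθ2 : Matrix.diagonal (fun i => a i ^ 2) ∈ D := by
    have h1 : (Matrix.diagonal a : M5 Ω) * Matrix.diagonal a = Matrix.diagonal (fun i => a i ^ 2) := by
      rw [Matrix.diagonal_mul_diagonal]
      congr 1
      funext i
      ring
    rw [← h1]
    exact D.mul_mem hθ hθ
  obtain ⟨qF, hq⟩ := A7 D hD a ha hθ (Y g s a * Y g s a) (D.mul_mem (hY a hθ) (hY a hθ))
  obtain ⟨BF, hB⟩ := A7 D hD a ha hθ (Y g s (fun i => a i ^ 2) * Y g s a)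
    (D.mul_mem (hY _ hθ2) (hY a hθ))
  obtain ⟨eF, he⟩ := A7 D hD a ha hθ (Matrix.diagonal a) hθ
  rw [Matrix.trace_diagonal] at he
  by_cases hq0 : Matrix.trace (Y g s a * Y g s a) = 0
  · exact ⟨a, ha, hθ, hq0⟩
  have hqF : qF ≠ 0 := by
    rintro rfl
    exact hq0 (by rw [hq, map_zero])
  obtain ⟨t, ht⟩ : ∃ t : F, t = eF - 2 * BF / qF := ⟨_, rfl⟩
  have ht2 : (t - eF) * qF + 2 * BF = 0 := by
    rw [ht]
    field_simp
    ring
  have hmem : algebraMap F (M5 Ω) t - Matrix.diagonal a ∈ D :=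
    D.sub_mem (D.algebraMap_mem t) hθ
  have hal : algebraMap F (M5 Ω) t = Matrix.diagonal (fun _ => algebraMap F Ω t) := by
    rw [Matrix.algebraMap_eq_diagonal]
    rfl
  have hsub : algebraMap F (M5 Ω) t - Matrix.diagonal a =
      Matrix.diagonal (fun i => algebraMap F Ω t - a i) := by
    rw [hal, Matrix.diagonal_sub]
  have hne : algebraMap F (M5 Ω) t - Matrix.diagonal a ≠ 0 := by
    intro h0
    rw [hsub] at h0
    have h1 : ∀ i, algebraMap F Ω t - a i = 0 := by
      intro i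
      have := congrFun (congrFun h0 i) i
      simpa using this
    have h2 : a 0 = a 1 := by
      rw [← sub_eq_zero.mp (h1 0), ← sub_eq_zero.mp (h1 1)]
    exact absurd (ha h2) (by decide)
  obtain ⟨d', hd', hdd⟩ := hdiv _ hmem hne
  rw [hsub] at hdd
  have hti : ∀ i, algebraMap F Ω t - a i ≠ 0 := by
    intro i h0
    have := congrFun (congrFun hdd i) i
    rw [Matrix.diagonal_mul, h0, zero_mul, Matrix.one_apply_eq] at this
    exact zero_ne_one this
  have hinv : d' = Matrix.diagonal (fun i => (algebraMap F Ω t - a i)⁻¹) := by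
    have h1 : Matrix.diagonal (fun i => (algebraMap F Ω t - a i)⁻¹) *
        Matrix.diagonal (fun i => algebraMap F Ω t - a i) = (1 : M5 Ω) := by
      rw [Matrix.diagonal_mul_diagonal, ← Matrix.diagonal_one]
      congr 1
      funext i
      exact inv_mul_cancel₀ (hti i)
    calc d' = 1 * d' := (one_mul _).symm
      _ = _ := by rw [← h1, mul_assoc, hdd, mul_one]
  refine ⟨fun i => (algebraMap F Ω t - a i)⁻¹, ?_, ?_, ?_⟩
  · intro i j hij
    have h1 := inv_injective hij
    exact ha (sub_right_injective h1)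
  · rw [← hinv]
    exact hd'
  · rw [B3a]
    refine B4 (ww g s) (B3b g s) (B3c g s hz) (B3d g s) a (algebraMap F Ω t) hti ?_
    have h1 := B3a g s a a
    have h2 := B3a g s (fun i => a i ^ 2) a
    rw [hq] at h1
    rw [hB] at h2
    rw [← h1, ← h2, he]
    rw [← map_sub, ← map_mul]
    have h3 : (2 : Ω) = algebraMap F Ω 2 := (map_ofNat (algebraMap F Ω) 2).symm
    rw [h3, ← map_mul, ← map_add, ht2, map_zero]

end Pool.Agent.Helper58.CY
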