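import Pool.Agent.Helper58.CY.B3
import Pool.Agent.Helper58.CY.B5

/-! CY5 C2 (MP_5d2531_al, project CY5, paper /team-store/CY5_paper.md): paper (5), first half: if Y(l) is a scalar then tr Y(l^2)^2 = 0 (B1d, B3, B5) -/

namespace Pool.Agent.Helper58.CY

open Matrix Finset

variable {Ω : Type*} [CommRing Ω]

theorem C2 (g s : M5 Ω) (hz : ZD g s) (l : Fin 5 → Ω) (c : Ω) (hc : Y g s l = c • (1 : M5 Ω)) :
    Matrix.trace (Y g s (fun i => l i ^ 2) * Y g s (fun i => l i ^ 2)) = 0 := by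
  have ha : ∀ i, ∑ j, ww g s i j * l j = 0 := by
    intro i
    rw [← B3e g s l i, hc, mul_smul_comm, mul_one, Matrix.trace_smul, B1d g s hz i, smul_zero]
  rw [B3a]
  exact B5 (ww g s) (B3b g s) (B3c g s hz) (B3d g s) l ha

end Pool.Agent.Helper58.CY
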