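import Pool.Agent.Helper58.CY.Defs

/-! CY5 C3 (MP_5d2531_al, project CY5, paper /team-store/CY5_paper.md): paper (5), second half: Y(l) and Y(l^2) are not both scalar (g invertible, off-diagonal entries of s nonzero, l injective) -/

namespace Pool.Agent.Helper58.CY

open Matrix Finset

variable {Ω : Type*} [Field Ω]

lemma C3_entry (g s g' : M5 Ω) (hg : g * g' = 1) (l : Fin 5 → Ω) (c : Ω)
    (hc : Y g s l = c • (1 : M5 Ω)) (i j : Fin 5) : s i j * l j - l i * s i j = c * g' i j := by
  have hg' : g' * g = 1 := mul_eq_one_comm.mp hg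
  have h1 : s * Matrix.diagonal l - Matrix.diagonal l * s = c • g' := by
    have h2 : g' * (Y g s l) = g' * (c • (1 : M5 Ω)) := by rw [hc]
    rw [Y, ← mul_assoc, hg', one_mul, mul_smul_comm, mul_one] at h2
    exact h2
  have h3 := congrFun (congrFun h1 i) j
  simpa [Matrix.sub_apply, Matrix.mul_diagonal, Matrix.diagonal_mul, Matrix.smul_apply,
    smul_eq_mul] using h3

theorem C3 (g s : M5 Ω) (hg : ∃ g' : M5 Ω, g * g' = 1) (hs : ∀ i j : Fin 5, i ≠ j → s i j ≠ 0)
    (l : Fin 5 → Ω) (hl : Function.Injective l) (c c' : Ω) (hc : Y g s l = c • (1 : M5 Ω))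
    (hc' : Y g s (fun i => l i ^ 2) = c' • (1 : M5 Ω)) : False := by
  obtain ⟨g', hgg⟩ := hg
  have e1 := C3_entry g s g' hgg l c hc
  have e2 := C3_entry g s g' hgg _ c' hc'
  have key : ∀ i j : Fin 5, i ≠ j → c * (l j + l i) = c' := by
    intro i j hij
    have h1 := e1 i j
    have h2 : s i j * l j ^ 2 - l i ^ 2 * s i j = c' * g' i j := e2 i j
    have h3 : s i j * (l j - l i) * (c * (l j + l i) - c') = 0 := by
      linear_combination c * h2 - c' * h1
    have h4 : s i j * (l j - l i) ≠ 0 :=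
      mul_ne_zero (hs i j hij) (sub_ne_zero.mpr fun h => hij (hl h).symm)
    have h5 := (mul_eq_zero.mp h3).resolve_left h4
    exact sub_eq_zero.mp h5
  have k1 := key 0 1 (by decide)
  have k2 := key 0 2 (by decide)
  have h12 : l 1 - l 2 ≠ 0 := sub_ne_zero.mpr fun h => absurd (hl h) (by decide)
  have hc0 : c = 0 := by
    have h : c * (l 1 - l 2) = 0 := by linear_combination k1 - k2
    exact (mul_eq_zero.mp h).resolve_right h12
  have h01 := e1 0 1
  rw [hc0, zero_mul] at h01
  have h6 : s 0 1 * (l 1 - l 0) = 0 := by linear_combination h01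
  rcases mul_eq_zero.mp h6 with h | h
  · exact hs 0 1 (by decide) h
  · exact absurd (hl (sub_eq_zero.mp h)) (by decide)

end Pool.Agent.Helper58.CY
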