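import Pool.Agent.Helper58.CY.A2
import Pool.Agent.Helper58.CY.A3b
import Pool.Agent.Helper58.CY.A3c
import Pool.Agent.Helper58.CY.A4
import Pool.Agent.Helper58.CY.A8
import Pool.Agent.Helper58.CY.B2
import Pool.Agent.Helper58.CY.C0
import Pool.Agent.Helper58.CY.C2
import Pool.Agent.Helper58.CY.C3

/-! CY5 C4 (MP_5d2531_al, project CY5, paper /team-store/CY5_paper.md): stage 1: assembly (A2, A3, A4, A8, B2, C0, C2, C3) -/

namespace Pool.Agent.Helper58.CY

open Matrix Finset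

variable {F : Type*} {Ω : Type*} [Field F] [Field Ω] [Algebra F Ω]

private lemma C4diag [Infinite F] (D : Subalgebra F (M5 Ω)) (hD : IsForm D) (hdiv : IsDiv D)
    (h6 : (6 : Ω) ≠ 0) (a : Fin 5 → Ω) (ha : Function.Injective a) (hθ : Matrix.diagonal a ∈ D) :
    ∃ y ∈ D, (∀ c : Ω, y ≠ c • (1 : M5 Ω)) ∧ Matrix.trace y = 0 ∧ Matrix.trace (y * y) = 0 ∧
      Matrix.trace (y * y * y) = 0 := by
  obtain ⟨s, hs, hoff⟩ := A2 D hD
  obtain ⟨g, hg, hg0, hz⟩ := A8 D hD a ha hθ s hs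
  obtain ⟨l, hl, hlD, hq⟩ := C0 D hD hdiv a ha hθ g s hg hs hz
  have hYD : ∀ m : Fin 5 → Ω, Matrix.diagonal m ∈ D → Y g s m ∈ D := fun m hm =>
    D.mul_mem hg (D.sub_mem (D.mul_mem hs hm) (D.mul_mem hm hs))
  by_cases hns : ∀ c : Ω, Y g s l ≠ c • (1 : M5 Ω)
  · exact ⟨Y g s l, hYD l hlD, hns, (B2 g s h6 hz l).1, hq, (B2 g s h6 hz l).2⟩
  · push Not at hns
    obtain ⟨c, hc⟩ := hns
    have hl2 : Matrix.diagonal (fun i => l i ^ 2) ∈ D := by
      have : Matrix.diagonal (fun i => l i ^ 2) = Matrix.diagonal l * Matrix.diagonal l := by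
        rw [Matrix.diagonal_mul_diagonal]
        congr 1
        funext i
        ring
      rw [this]
      exact D.mul_mem hlD hlD
    refine ⟨Y g s (fun i => l i ^ 2), hYD _ hl2, ?_, (B2 g s h6 hz _).1, C2 g s hz l c hc, (B2 g s h6 hz _).2⟩
    intro c' hc'
    obtain ⟨g', -, hg'⟩ := hdiv g hg hg0
    exact C3 g s ⟨g', hg'⟩ hoff l hl c c' hc hc'

private lemma trace_conj (S S' x : M5 Ω) (h : S * S' = 1) : Matrix.trace (S * x * S') = Matrix.trace x := by
  have h' : S' * S = 1 := mul_eq_one_comm.mp h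
  rw [Matrix.trace_mul_comm, ← mul_assoc, h', one_mul]

theorem C4 [Infinite F] [IsAlgClosed Ω] (D : Subalgebra F (M5 Ω)) (hD : IsForm D) (hdiv : IsDiv D)
    (h6 : (6 : Ω) ≠ 0) :
    ∃ y ∈ D, (∀ c : Ω, y ≠ c • (1 : M5 Ω)) ∧ Matrix.trace y = 0 ∧ Matrix.trace (y * y) = 0 ∧
      Matrix.trace (y * y * y) = 0 := by
  obtain ⟨θ, hθ, hdisc⟩ := A3c D hD
  obtain ⟨S, S', a, hSS, hdiag, ha⟩ := A3b θ hdisc
  have hS'S : S' * S = 1 := mul_eq_one_comm.mp hSS
  have hda : Matrix.diagonal a ∈ conjD D S S' hSS := by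
    rw [mem_conjD, ← hdiag]
    have : S * (S' * θ * S) * S' = θ := by
      calc S * (S' * θ * S) * S' = (S * S') * θ * (S * S') := by simp only [mul_assoc]
        _ = θ := by rw [hSS, one_mul, mul_one]
    rw [this]
    exact hθ
  obtain ⟨y, hy, hns, h1, h2, h3⟩ := C4diag (conjD D S S' hSS) (A4a D S S' hSS hD) (A4b D S S' hSS hdiv) h6 a ha hda
  rw [mem_conjD] at hy
  have hmul : ∀ u v : M5 Ω, (S * u * S') * (S * v * S') = S * (u * v) * S' := by
    intro u v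
    calc (S * u * S') * (S * v * S') = S * u * (S' * S) * v * S' := by simp only [mul_assoc]
      _ = S * (u * v) * S' := by rw [hS'S]; simp only [mul_one, mul_assoc]
  refine ⟨S * y * S', hy, ?_, ?_, ?_, ?_⟩
  · intro c hc
    apply hns c
    have : S' * (S * y * S') * S = y := by
      calc S' * (S * y * S') * S = (S' * S) * y * (S' * S) := by simp only [mul_assoc]
        _ = y := by rw [hS'S, one_mul, mul_one]
    rw [← this, hc, mul_smul_comm, mul_one, smul_mul_assoc, hS'S]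
  · rw [trace_conj _ _ _ hSS, h1]
  · rw [hmul, trace_conj _ _ _ hSS, h2]
  · rw [hmul, hmul, trace_conj _ _ _ hSS, h3]

end Pool.Agent.Helper58.CY
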