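import Pool.Agent.Helper58.CY.Defs

/-! CY5 D1 (MP_5d2531_al, project CY5, paper /team-store/CY5_paper.md): Newton and Cayley-Hamilton for 5x5 matrices over an algebraically closed field with 6 ≠ 0: tr y = tr y^2 = tr y^3 = 0 ⇒ charpoly = X^5 - α X - β (coefficients via eigenvalues: Matrix.trace_eq_sum_roots_charpoly and the Newton identities, or directly: coefficient formulas, or triangularisation) -/

namespace Pool.Agent.Helper58.CY

open Matrix Finset

namespace D1aux

open Polynomial

variable {n R : Type*} [Fintype n] [DecidableEq n] [CommRing R]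

/-- derivative of a determinant of polynomials, column by column -/
theorem derivative_det (M : Matrix n n R[X]) :
    derivative M.det = ∑ i, (M.updateCol i (fun k => derivative (M k i))).det := by
  simp_rw [det_apply]
  rw [derivative_sum, Finset.sum_comm]
  refine Finset.sum_congr rfl fun σ _ => ?_
  rw [← Finset.smul_sum]
  have h1 : derivative (Equiv.Perm.sign σ • ∏ i, M (σ i) i) =
      Equiv.Perm.sign σ • derivative (∏ i, M (σ i) i) := by
    rcases Int.units_eq_one_or (Equiv.Perm.sign σ) with h | h
    · rw [h, one_smul, one_smul]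
    · rw [h]
      simp
  rw [h1, derivative_prod_finset]
  congr 1
  refine Finset.sum_congr rfl fun i _ => ?_
  rw [← Finset.mul_prod_erase univ _ (Finset.mem_univ i), mul_comm]
  congr 1
  · rw [updateCol_self]
  · refine Finset.prod_congr rfl fun j hj => ?_
    rw [updateCol_ne (Finset.ne_of_mem_erase hj)]

theorem adj_diag (M : Matrix n n R[X]) (i : n) :
    adjugate M i i = (M.updateCol i (Pi.single i 1)).det := by
  have h : adjugate M i i = adjugate Mᵀ i i := by
    rw [← adjugate_transpose]; rfl
  rw [h, adjugate_def, of_apply, transpose_transpose, cramer_apply]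

theorem trace_adj (y : Matrix n n R) :
    Matrix.trace (adjugate (charmatrix y)) = derivative y.charpoly := by
  rw [charpoly, derivative_det, Matrix.trace]
  refine Finset.sum_congr rfl fun i _ => ?_
  rw [diag_apply, adj_diag]
  congr 2
  ext k
  by_cases h : k = i
  · subst h
    rw [charmatrix_apply_eq, Pi.single_eq_same]
    simp
  · rw [charmatrix_apply_ne _ _ _ h, Pi.single_eq_of_ne h]
    simp

/-- coefficients of the adjugate -/
noncomputable def Bk (y : Matrix n n R) (k : ℕ) : Matrix n n R :=
  Matrix.of fun i j => (adjugate (charmatrix y) i j).coeff k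

theorem Brec (y : Matrix n n R) (k : ℕ) :
    Bk y k = Bk y (k + 1) * y + y.charpoly.coeff (k + 1) • (1 : Matrix n n R) := by
  have h := adjugate_mul (charmatrix y)
  ext i j
  have h1 : ((adjugate (charmatrix y) * charmatrix y) i j).coeff (k + 1) =
      (((charmatrix y).det • (1 : Matrix n n R[X])) i j).coeff (k + 1) := by rw [h]
  have h2 : (adjugate (charmatrix y) * charmatrix y) i j =
      X * adjugate (charmatrix y) i j - ∑ l, adjugate (charmatrix y) i l * C (y l j) := by
    rw [charmatrix, Matrix.mul_sub, Matrix.sub_apply]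
    congr 1
    · rw [scalar_apply, mul_diagonal]
      ring
  rw [h2, coeff_sub, coeff_X_mul, finsetSum_coeff] at h1
  simp only [coeff_mul_C] at h1
  rw [Matrix.add_apply, Matrix.mul_apply, Matrix.smul_apply]
  simp only [Bk, of_apply]
  rw [sub_eq_iff_eq_add] at h1
  rw [h1, add_comm]
  congr 1
  rw [Matrix.smul_apply, ← charpoly]
  by_cases hij : i = j
  · subst hij
    simp
  · simp [Matrix.one_apply_ne hij]

theorem tr_Bk (y : Matrix n n R) (k : ℕ) :
    Matrix.trace (Bk y k) = (k + 1) * y.charpoly.coeff (k + 1) := by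
  have h := congrArg (fun p : R[X] => p.coeff k) (trace_adj y)
  simp only [coeff_derivative] at h
  rw [Matrix.trace, finsetSum_coeff] at h
  rw [Matrix.trace, mul_comm]
  exact h

end D1aux

open D1aux

variable {Ω : Type*} [Field Ω]

theorem D1 [IsAlgClosed Ω] (h6 : (6 : Ω) ≠ 0) (y : M5 Ω) (h1 : Matrix.trace y = 0)
    (h2 : Matrix.trace (y * y) = 0) (h3 : Matrix.trace (y * y * y) = 0) :
    ∃ α β : Ω, y.charpoly = Polynomial.X ^ 5 - Polynomial.C α * Polynomial.X - Polynomial.C β := by
  have hdeg : y.charpoly.natDegree = 5 := by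
    rw [charpoly_natDegree_eq_dim]; rfl
  have hmon : y.charpoly.coeff 5 = 1 := by
    have := y.charpoly_monic
    rw [Polynomial.Monic, Polynomial.leadingCoeff, hdeg] at this
    exact this
  have hbig : ∀ k, 5 < k → y.charpoly.coeff k = 0 := fun k hk =>
    Polynomial.coeff_eq_zero_of_natDegree_lt (by omega)
  -- vanishing for large k
  have hN : ∃ N, ∀ k, N ≤ k → Bk y k = 0 := by
    refine ⟨(∑ i, ∑ j, (adjugate (charmatrix y) i j).natDegree) + 1, fun k hk => ?_⟩
    ext i j
    rw [Bk, of_apply, Matrix.zero_apply]
    apply Polynomial.coeff_eq_zero_of_natDegree_lt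
    have h1 : (adjugate (charmatrix y) i j).natDegree ≤
        ∑ j, (adjugate (charmatrix y) i j).natDegree :=
      Finset.single_le_sum (f := fun j => (adjugate (charmatrix y) i j).natDegree)
        (fun _ _ => Nat.zero_le _) (Finset.mem_univ j)
    have h2 : ∑ j, (adjugate (charmatrix y) i j).natDegree ≤
        ∑ i, ∑ j, (adjugate (charmatrix y) i j).natDegree :=
      Finset.single_le_sum (f := fun i => ∑ j, (adjugate (charmatrix y) i j).natDegree)
        (fun _ _ => Nat.zero_le _) (Finset.mem_univ i)
    omega
  obtain ⟨N, hN⟩ := hN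
  have hdown : ∀ m k, N ≤ k + m → 5 ≤ k → Bk y k = 0 := by
    intro m
    induction m with
    | zero => intro k hk _; exact hN k hk
    | succ m ih =>
      intro k hk h5
      rw [D1aux.Brec, ih (k + 1) (by omega) (by omega), hbig (k + 1) (by omega), zero_mul, zero_smul,
        add_zero]
  have B5 : Bk y 5 = 0 := hdown N 5 (by omega) le_rfl
  have B4 : Bk y 4 = 1 := by
    rw [D1aux.Brec, B5, zero_mul, zero_add, hmon, one_smul]
  have B3 := D1aux.Brec y 3
  rw [B4, one_mul] at B3
  have B2 := D1aux.Brec y 2
  have B1 := D1aux.Brec y 1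
  have t3 := tr_Bk y 3
  have t2 := tr_Bk y 2
  have t1 := tr_Bk y 1
  have trone : Matrix.trace (1 : M5 Ω) = 5 := by
    rw [Matrix.trace_one]; simp
  set c4 := y.charpoly.coeff 4 with hc4
  set c3 := y.charpoly.coeff 3 with hc3
  set c2 := y.charpoly.coeff 2 with hc2
  have e4 : c4 = 0 := by
    rw [B3, Matrix.trace_add, Matrix.trace_smul, trone, h1] at t3
    simp only [smul_eq_mul] at t3
    push_cast at t3
    norm_num at t3
    linear_combination t3
  have h2' : (2 : Ω) ≠ 0 := by
    intro h
    apply h6
    linear_combination 3 * h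
  have h3' : (3 : Ω) ≠ 0 := by
    intro h
    apply h6
    linear_combination 2 * h
  have e3 : c3 = 0 := by
    rw [B2, B3] at t2
    rw [e4, zero_smul, add_zero, Matrix.trace_add, Matrix.trace_smul, trone, h2] at t2
    simp only [smul_eq_mul] at t2
    push_cast at t2
    have : (2 : Ω) * c3 = 0 := by
      have t2' : 0 + c3 * 5 = (2 + 1) * c3 := t2
      linear_combination t2'
    exact (mul_eq_zero.mp this).resolve_left h2'
  have e2 : c2 = 0 := by
    rw [B1, B2, B3] at t1
    rw [e4, e3, zero_smul, add_zero, add_zero, Matrix.trace_add, Matrix.trace_smul,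
      trone, h3] at t1
    simp only [smul_eq_mul] at t1
    push_cast at t1
    have : (3 : Ω) * c2 = 0 := by
      have t1' : 0 + c2 * 5 = (1 + 1) * c2 := t1
      linear_combination t1'
    exact (mul_eq_zero.mp this).resolve_left h3'
  refine ⟨- y.charpoly.coeff 1, - y.charpoly.coeff 0, ?_⟩
  conv_lhs => rw [y.charpoly.as_sum_range' 6 (by omega)]
  simp only [Finset.sum_range_succ, Finset.sum_range_zero, ← Polynomial.C_mul_X_pow_eq_monomial]
  rw [← hc4, ← hc3, ← hc2, e4, e3, e2, hmon]
  simp only [Polynomial.C_0, Polynomial.C_1, Polynomial.C_neg]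
  ring

end Pool.Agent.Helper58.CY
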