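import Pool.Agent.Helper58.CY.Defs

/-! CY5 D2 (MP_5d2531_al, project CY5, paper /team-store/CY5_paper.md): linear disjointness: coefficients in F. Extend 1, y to (or express in) the form basis: 1, y, y^5 ∈ D, all have F-coordinates in b; y^5 = α y + β gives linear equations over F with 2 unknowns; 1, y independent over F. -/

namespace Pool.Agent.Helper58.CY

open Matrix Finset

variable {F : Type*} {Ω : Type*} [Field F] [Field Ω] [Algebra F Ω]

theorem D2 (D : Subalgebra F (M5 Ω)) (hD : IsForm D) (y : M5 Ω) (hy : y ∈ D)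
    (hns : ∀ c : Ω, y ≠ c • (1 : M5 Ω)) (α β : Ω) (h : y ^ 5 = α • y + β • (1 : M5 Ω)) :
    ∃ α' β' : F, algebraMap F Ω α' = α ∧ algebraMap F Ω β' = β := by
  obtain ⟨b, hbD, hb, hspan⟩ := hD
  obtain ⟨a, ha⟩ := hspan 1 (one_mem D)
  obtain ⟨c, hc⟩ := hspan y hy
  obtain ⟨e, he⟩ := hspan (y ^ 5) (pow_mem hy 5)
  have key : ∀ i, algebraMap F Ω (e i) = α * algebraMap F Ω (c i) + β * algebraMap F Ω (a i) := by
    have h0 : ∑ i, (algebraMap F Ω (e i) - (α * algebraMap F Ω (c i) + β * algebraMap F Ω (a i))) • b i = 0 := by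
      have h1 : (∑ i, e i • b i) = α • (∑ i, c i • b i) + β • (∑ i, a i • b i) := by
        rw [← he, ← hc, ← ha]; exact h
      rw [Finset.smul_sum, Finset.smul_sum, ← Finset.sum_add_distrib] at h1
      rw [← sub_eq_zero, ← Finset.sum_sub_distrib] at h1
      rw [← h1]
      refine Finset.sum_congr rfl fun i _ => ?_
      rw [sub_smul, add_smul, mul_smul, mul_smul, algebraMap_smul, algebraMap_smul, algebraMap_smul]
    intro i
    have := Fintype.linearIndependent_iff.mp hb _ h0 i
    exact sub_eq_zero.mp this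
  have hex : ∃ i j, a i * c j - a j * c i ≠ 0 := by
    by_contra hcon
    push Not at hcon
    have ha0 : ∃ i, a i ≠ 0 := by
      by_contra hz
      push Not at hz
      have : (1 : M5 Ω) = 0 := by
        rw [ha]
        exact Finset.sum_eq_zero fun i _ => by rw [hz i, zero_smul]
      exact one_ne_zero this
    obtain ⟨i, hi⟩ := ha0
    apply hns (algebraMap F Ω (c i / a i))
    rw [hc, ha, Finset.smul_sum]
    refine Finset.sum_congr rfl fun j _ => ?_
    rw [algebraMap_smul, smul_smul]
    congr 1
    have := hcon i j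
    field_simp
    linear_combination this
  obtain ⟨i, j, hij⟩ := hex
  have hijΩ : algebraMap F Ω (a i) * algebraMap F Ω (c j) - algebraMap F Ω (a j) * algebraMap F Ω (c i) ≠ 0 := by
    rw [← map_mul, ← map_mul, ← map_sub]
    exact (map_ne_zero (algebraMap F Ω)).mpr hij
  refine ⟨(a i * e j - a j * e i) / (a i * c j - a j * c i),
    (c j * e i - c i * e j) / (a i * c j - a j * c i), ?_, ?_⟩
  · rw [map_div₀, map_sub, map_sub, map_mul, map_mul, map_mul, map_mul, key i, key j,
      div_eq_iff hijΩ]
    ring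
  · rw [map_div₀, map_sub, map_sub, map_mul, map_mul, map_mul, map_mul, key i, key j,
      div_eq_iff hijΩ]
    ring

end Pool.Agent.Helper58.CY
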