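import Pool.Agent.Helper58.CY.Defs

/-! CY5 D3 (MP_5d2531_al, project CY5, paper /team-store/CY5_paper.md): diagonalisation in characteristic 5: charpoly y = X^5 - α X - β, h^4 = α ≠ 0, y0 a root: the 5 distinct roots are y0 + i h (i = 0..4). Eigenvectors are linearly independent. -/

namespace Pool.Agent.Helper58.CY

open Matrix Finset

variable {Ω : Type*} [Field Ω]

/-- the numbers `0, 1, 2, 3, 4` are distinct in characteristic 5 -/
theorem natCast_inj5 [CharP Ω 5] (i j : Fin 5) (h : ((i : ℕ) : Ω) = ((j : ℕ) : Ω)) : i = j := by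
  have h1 := (CharP.natCast_eq_natCast Ω 5).1 h
  have h2 : (i : ℕ) = (j : ℕ) := by
    have := i.isLt
    have := j.isLt
    unfold Nat.ModEq at h1
    omega
  exact Fin.ext h2

theorem D3 [IsAlgClosed Ω] [CharP Ω 5] (y : M5 Ω) (α β h : Ω) (hα : α ≠ 0) (hh : h ^ 4 = α)
    (hc : y.charpoly = Polynomial.X ^ 5 - Polynomial.C α * Polynomial.X - Polynomial.C β) :
    ∃ (S S' : M5 Ω) (y0 : Ω), S * S' = 1 ∧ S' * y * S = yd y0 h := by
  have hh0 : h ≠ 0 := by
    rintro rfl
    apply hα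
    rw [← hh]
    norm_num
  obtain ⟨y0, hy0⟩ : ∃ y0, y.charpoly.IsRoot y0 := by
    apply IsAlgClosed.exists_root
    rw [Matrix.charpoly_degree_eq_dim]
    simp
  have h1 : y0 ^ 5 - α * y0 - β = 0 := by
    rw [Polynomial.IsRoot, hc] at hy0
    simpa using hy0
  have : Fact (Nat.Prime 5) := ⟨by norm_num⟩
  have : ExpChar Ω 5 := ExpChar.prime (by norm_num)
  have hi5 : ∀ i : ℕ, ((i : Ω)) ^ 5 = (i : Ω) := by
    intro i
    have h2 := ZMod.pow_card (p := 5) (i : ZMod 5)
    have h3 := congrArg (ZMod.castHom (dvd_refl 5) Ω) h2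
    rw [map_pow, map_natCast] at h3
    exact h3
  have hroot : ∀ i : ℕ, (y0 + (i : Ω) * h) ^ 5 - α * (y0 + (i : Ω) * h) - β = 0 := by
    intro i
    have h2 : (y0 + (i : Ω) * h) ^ 5 = y0 ^ 5 + ((i : Ω) * h) ^ 5 := add_pow_char _ _ 5
    rw [h2, mul_pow, hi5]
    have h3 : h ^ 5 = α * h := by
      rw [← hh]
      ring
    rw [h3]
    linear_combination h1
  have hev : ∀ i : Fin 5, ∃ v : Fin 5 → Ω, v ≠ 0 ∧ y *ᵥ v = (y0 + ((i : ℕ) : Ω) * h) • v := by
    intro i
    have h2 : y.charpoly.eval (y0 + ((i : ℕ) : Ω) * h) = 0 := by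
      rw [hc]
      simpa using hroot i
    rw [Matrix.eval_charpoly] at h2
    obtain ⟨v, hv, hv2⟩ := Matrix.exists_mulVec_eq_zero_iff.2 h2
    refine ⟨v, hv, ?_⟩
    rw [Matrix.sub_mulVec, sub_eq_zero] at hv2
    rw [← hv2, Matrix.scalar_apply, ← Matrix.smul_one_eq_diagonal, Matrix.smul_mulVec,
      Matrix.one_mulVec]
  choose v hv hyv using hev
  have hli : LinearIndependent Ω v := by
    refine Module.End.eigenvectors_linearIndependent' (Matrix.toLin' y)
      (fun i : Fin 5 => y0 + ((i : ℕ) : Ω) * h) ?_ v ?_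
    · intro i j hij
      have h2 : ((i : ℕ) : Ω) * h = ((j : ℕ) : Ω) * h := add_left_cancel hij
      exact natCast_inj5 i j (mul_right_cancel₀ hh0 h2)
    · intro i
      refine ⟨?_, hv i⟩
      rw [Module.End.mem_eigenspace_iff, Matrix.toLin'_apply]
      exact hyv i
  let S : M5 Ω := Matrix.of fun r i => v i r
  have hS : IsUnit S := by
    rw [← Matrix.linearIndependent_cols_iff_isUnit]
    exact hli
  have hdet : IsUnit S.det := (Matrix.isUnit_iff_isUnit_det S).1 hS
  refine ⟨S, S⁻¹, y0, Matrix.mul_nonsing_inv S hdet, ?_⟩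
  have hyS : y * S = S * yd y0 h := by
    ext r i
    have h2 := congrFun (hyv i) r
    rw [yd, Matrix.mul_diagonal]
    have h3 : (y * S) r i = (y *ᵥ v i) r := by
      simp [S, Matrix.mul_apply, Matrix.mulVec, dotProduct]
    rw [h3, h2]
    simp [S, mul_comm]
  rw [mul_assoc, hyS, ← mul_assoc, Matrix.nonsing_inv_mul S hdet, one_mul]

end Pool.Agent.Helper58.CY
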