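import Pool.Agent.Helper58.CY.Defs

/-! CY5 D4 (MP_5d2531_al, project CY5, paper /team-store/CY5_paper.md): the ring BB: closed under products, contains the parts, sums lie in D. D4a: reduce exponents with (2^k h)^4 = h^4 = α ∈ F (2^4 = 1 in char 5). D4b: w^(r) = -(1/α) sum_{k=1}^4 (r h)^(4-k) ad(y)^k w entrywise, r = 2^(k+r0); (ad y)^k w has entries ((i-j) h)^k w_ij. D4c: sum over k of (2^k)^j is 0 for j=1,2,3 and 4 = -1 for j = 0. -/

namespace Pool.Agent.Helper58.CY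

open Matrix Finset

variable {F : Type*} {Ω : Type*} [Field F] [Field Ω] [Algebra F Ω]

private lemma five_zero (Ω : Type*) [Field Ω] [CharP Ω 5] : (5 : Ω) = 0 := by
  have := CharP.cast_eq_zero Ω 5
  exact_mod_cast this

private lemma pow4 [CharP Ω 5] (k : ℕ) (h : Ω) (α : F) (hh : h ^ 4 = algebraMap F Ω α) :
    ((2 : Ω) ^ k * h) ^ 4 = algebraMap F Ω α := by
  have h16 : (2 : Ω) ^ 4 = 1 := by
    have h5 := five_zero Ω
    linear_combination 3 * h5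
  rw [mul_pow, ← pow_mul, mul_comm k 4, pow_mul, h16, one_pow, one_mul, hh]

private lemma fin4_cases (P : Fin 4 → Prop) (h0 : P 0) (h1 : P 1) (h2 : P 2) (h3 : P 3) : ∀ k, P k := by
  intro k
  fin_cases k
  · exact h0
  · exact h1
  · exact h2
  · exact h3

theorem D4a [CharP Ω 5] (D : Subalgebra F (M5 Ω)) (h : Ω) (α : F) (hh : h ^ 4 = algebraMap F Ω α)
    (f g : Fin 4 → M5 Ω) (hf : f ∈ BB D h) (hg : g ∈ BB D h) : (fun k => f k * g k) ∈ BB D h := by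
  obtain ⟨d, hd, hf⟩ := hf
  obtain ⟨e, he, hg⟩ := hg
  refine ⟨![d 0 * e 0 + α • (d 1 * e 3 + d 2 * e 2 + d 3 * e 1),
    d 0 * e 1 + d 1 * e 0 + α • (d 2 * e 3 + d 3 * e 2),
    d 0 * e 2 + d 1 * e 1 + d 2 * e 0 + α • (d 3 * e 3),
    d 0 * e 3 + d 1 * e 2 + d 2 * e 1 + d 3 * e 0], ?_, ?_⟩
  · have hm : ∀ i j, d i * e j ∈ D := fun i j => D.mul_mem (hd i) (he j)
    refine fin4_cases _ ?_ ?_ ?_ ?_
    · exact D.add_mem (hm _ _) (D.smul_mem (D.add_mem (D.add_mem (hm _ _) (hm _ _)) (hm _ _)) α)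
    · exact D.add_mem (D.add_mem (hm _ _) (hm _ _)) (D.smul_mem (D.add_mem (hm _ _) (hm _ _)) α)
    · exact D.add_mem (D.add_mem (D.add_mem (hm _ _) (hm _ _)) (hm _ _)) (D.smul_mem (hm _ _) α)
    · exact D.add_mem (D.add_mem (D.add_mem (hm _ _) (hm _ _)) (hm _ _)) (hm _ _)
  · intro k
    have hx := pow4 (F := F) (k : ℕ) h α hh
    set x : Ω := (2 : Ω) ^ (k : ℕ) * h with hxdef
    have hα : ∀ m : M5 Ω, α • m = (x ^ 4) • m := by
      intro m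
      rw [hx, algebraMap_smul]
    simp only [hf, hg, ← hxdef, Fin.sum_univ_four]
    simp only [Matrix.cons_val_zero, Matrix.cons_val_one, Matrix.cons_val, hα]
    simp only [Fin.val_zero, Fin.val_one, Fin.val_two, pow_zero, one_smul, pow_one]
    have h3 : ((3 : Fin 4) : ℕ) = 3 := rfl
    simp only [h3, add_mul, mul_add, smul_add, smul_mul_assoc, mul_smul_comm, smul_smul]
    have e1 : x * x = x ^ 2 := by ring
    have e2 : x * x ^ 2 = x ^ 3 := by ring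
    have e3 : x ^ 2 * x = x ^ 3 := by ring
    have e4 : x * x ^ 3 = x ^ 4 := by ring
    have e5 : x ^ 3 * x = x ^ 4 := by ring
    have e6 : x ^ 2 * x ^ 2 = x ^ 4 := by ring
    have e7 : x ^ 2 * x ^ 3 = x ^ 5 := by ring
    have e8 : x ^ 3 * x ^ 2 = x ^ 5 := by ring
    have e9 : x * x ^ 4 = x ^ 5 := by ring
    have e10 : x ^ 2 * x ^ 4 = x ^ 6 := by ring
    have e11 : x ^ 3 * x ^ 3 = x ^ 6 := by ring
    simp only [e1, e2, e3, e4, e5, e6, e7, e8, e9, e10, e11]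
    abel

private lemma entry_zmod : ∀ i j c : ZMod 5, c ≠ 0 →
    c ^ 3 * (i - j) + c ^ 2 * (i - j) ^ 2 + c * (i - j) ^ 3 + (i - j) ^ 4 =
      if i = j + c then -1 else 0 := by
  decide

private lemma two_ne : (2 : ZMod 5) ≠ 0 := by decide

private lemma entry_id (Ω : Type*) [Field Ω] [CharP Ω 5] (i j : Fin 5) (n : ℕ) :
    ((2 : Ω) ^ n) ^ 3 * (((i : ℕ) : Ω) - ((j : ℕ) : Ω)) + ((2 : Ω) ^ n) ^ 2 * (((i : ℕ) : Ω) - ((j : ℕ) : Ω)) ^ 2 +
      ((2 : Ω) ^ n) * (((i : ℕ) : Ω) - ((j : ℕ) : Ω)) ^ 3 + (((i : ℕ) : Ω) - ((j : ℕ) : Ω)) ^ 4 =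
      if i = j + sft n then -1 else 0 := by
  have hc : ((2 : ZMod 5) ^ n) ≠ 0 := by
    have hp : Fact (Nat.Prime 5) := ⟨by norm_num⟩
    exact pow_ne_zero _ two_ne
  have key := entry_zmod ((i : ℕ) : ZMod 5) ((j : ℕ) : ZMod 5) ((2 : ZMod 5) ^ n) hc
  have hs : (2 : ZMod 5) ^ n = @id (ZMod 5) (sft n) := by
    have : @id (ZMod 5) (sft n) = (((2 ^ n : ℕ)) : ZMod 5) := by
      show (Fin.ofNat 5 (2 ^ n) : ZMod 5) = _
      rfl
    rw [this]; push_cast; rfl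
  have hi : (((i : ℕ) : ZMod 5)) = @id (ZMod 5) i := @ZMod.natCast_zmod_val 5 _ i
  have hj : (((j : ℕ) : ZMod 5)) = @id (ZMod 5) j := @ZMod.natCast_zmod_val 5 _ j
  have key2 := congrArg (ZMod.castHom (dvd_refl 5) Ω) key
  have hl : (ZMod.castHom (dvd_refl 5) Ω) (((2 : ZMod 5) ^ n) ^ 3 * (((i : ℕ) : ZMod 5) - ((j : ℕ) : ZMod 5)) +
      ((2 : ZMod 5) ^ n) ^ 2 * (((i : ℕ) : ZMod 5) - ((j : ℕ) : ZMod 5)) ^ 2 +
      ((2 : ZMod 5) ^ n) * (((i : ℕ) : ZMod 5) - ((j : ℕ) : ZMod 5)) ^ 3 + (((i : ℕ) : ZMod 5) - ((j : ℕ) : ZMod 5)) ^ 4) =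
      ((2 : Ω) ^ n) ^ 3 * (((i : ℕ) : Ω) - ((j : ℕ) : Ω)) + ((2 : Ω) ^ n) ^ 2 * (((i : ℕ) : Ω) - ((j : ℕ) : Ω)) ^ 2 +
      ((2 : Ω) ^ n) * (((i : ℕ) : Ω) - ((j : ℕ) : Ω)) ^ 3 + (((i : ℕ) : Ω) - ((j : ℕ) : Ω)) ^ 4 := by
    simp only [map_add, map_mul, map_pow, map_sub, map_natCast, map_ofNat]
  rw [← hl, key2]
  by_cases hij : i = j + sft n
  · have : (((i : ℕ) : ZMod 5)) = ((j : ℕ) : ZMod 5) + (2 : ZMod 5) ^ n := by
      rw [hi, hj, hs]; exact hij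
    rw [if_pos this, if_pos hij, map_neg, map_one]
  · have : ¬ (((i : ℕ) : ZMod 5)) = ((j : ℕ) : ZMod 5) + (2 : ZMod 5) ^ n := by
      rw [hi, hj, hs]; exact hij
    rw [if_neg this, if_neg hij, map_zero]

/-- iterated commutator with `y` -/
private def adp (y : M5 Ω) : ℕ → M5 Ω → M5 Ω
  | 0, w => w
  | n + 1, w => y * adp y n w - adp y n w * y

private lemma adp_mem (D : Subalgebra F (M5 Ω)) (y : M5 Ω) (hy : y ∈ D) (w : M5 Ω) (hw : w ∈ D) :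
    ∀ n, adp y n w ∈ D
  | 0 => hw
  | n + 1 => D.sub_mem (D.mul_mem hy (adp_mem D y hy w hw n)) (D.mul_mem (adp_mem D y hy w hw n) hy)

private lemma adp_entry (y0 h : Ω) (w : M5 Ω) (i j : Fin 5) :
    ∀ n, adp (yd y0 h) n w i j = ((((i : ℕ) : Ω) - ((j : ℕ) : Ω)) * h) ^ n * w i j
  | 0 => by simp [adp]
  | n + 1 => by
      show (yd y0 h * adp (yd y0 h) n w - adp (yd y0 h) n w * yd y0 h) i j = _
      rw [Matrix.sub_apply, yd, Matrix.diagonal_mul, Matrix.mul_diagonal, ← yd, adp_entry y0 h w i j n]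
      ring

theorem D4b [CharP Ω 5] (D : Subalgebra F (M5 Ω)) (y0 h : Ω) (hy : yd y0 h ∈ D) (α : F) (hα : α ≠ 0)
    (hh : h ^ 4 = algebraMap F Ω α) (w : M5 Ω) (hw : w ∈ D) (r : ℕ) :
    (fun k : Fin 4 => part (sft ((k : ℕ) + r)) w) ∈ BB D h := by
  have h4 : h ^ 4 ≠ 0 := by
    rw [hh]
    exact (map_ne_zero _).mpr hα
  have hne : h ≠ 0 := by
    rintro rfl
    exact h4 (by norm_num)
  have hm : ∀ n, adp (yd y0 h) n w ∈ D := adp_mem D _ hy w hw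
  have h2F : ∀ j : ℕ, ∀ m : M5 Ω, m ∈ D → ((2 : Ω) ^ r) ^ j • m ∈ D := by
    intro j m hmD
    have : ((2 : Ω) ^ r) ^ j • m = ((2 : F) ^ r) ^ j • m := by
      rw [← algebraMap_smul Ω (((2 : F) ^ r) ^ j) m]
      simp only [map_pow, map_ofNat]
    rw [this]
    exact D.smul_mem hmD _
  have hαD : ∀ m : M5 Ω, m ∈ D → (-(h ^ 4)⁻¹) • m ∈ D := by
    intro m hmD
    have : (-(h ^ 4)⁻¹) • m = (-α⁻¹) • m := by
      rw [← algebraMap_smul Ω (-α⁻¹) m]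
      simp only [map_neg, map_inv₀, hh]
    rw [this]
    exact D.smul_mem hmD _
  refine ⟨fun j => (-(h ^ 4)⁻¹) • (((2 : Ω) ^ r) ^ (j : ℕ) • adp (yd y0 h) (4 - (j : ℕ)) w), ?_, ?_⟩
  · intro j
    exact hαD _ (h2F _ _ (hm _))
  · intro k
    ext i j
    have key := entry_id Ω i j ((k : ℕ) + r)
    simp only [Fin.sum_univ_four, Matrix.add_apply, Matrix.smul_apply, smul_eq_mul, adp_entry]
    simp only [part, Matrix.of_apply]
    have h3 : ((3 : Fin 4) : ℕ) = 3 := rfl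
    simp only [Fin.val_zero, Fin.val_one, Fin.val_two, h3]
    have h0 : (if i = j + sft ((k : ℕ) + r) then w i j else 0) =
        -(if i = j + sft ((k : ℕ) + r) then -1 else 0) * w i j := by
      split_ifs <;> ring
    rw [h0, ← key]
    norm_num
    field_simp
    ring

theorem D4c [CharP Ω 5] (D : Subalgebra F (M5 Ω)) (h : Ω)
    (f : Fin 4 → M5 Ω) (hf : f ∈ BB D h) : ∑ k, f k ∈ D := by
  obtain ⟨d, hd, hf⟩ := hf
  have h5 := five_zero Ω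
  have : ∑ k, f k = -d 0 := by
    simp only [hf, Fin.sum_univ_four]
    have h3 : ((3 : Fin 4) : ℕ) = 3 := rfl
    simp only [Fin.val_zero, Fin.val_one, Fin.val_two, h3]
    ext i j
    simp only [Matrix.add_apply, Matrix.smul_apply, Matrix.neg_apply, smul_eq_mul]
    linear_combination (d 0 i j + 3 * h * d 1 i j + 17 * h ^ 2 * d 2 i j + 117 * h ^ 3 * d 3 i j) * h5
  rw [this]
  exact D.neg_mem (hd 0)

end Pool.Agent.Helper58.CY
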