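import Pool.Agent.Helper58.CY.Defs

/-! CY5 D5 (MP_5d2531_al, project CY5, paper /team-store/CY5_paper.md): monomial matrices: products, the word (6) -/

namespace Pool.Agent.Helper58.CY

open Matrix Finset

variable {Ω : Type*} [CommRing Ω]

theorem D5a (r s : Fin 5) (u v : Fin 5 → Ω) : Sh r u * Sh s v = Sh (r + s) (fun j => u (j + s) * v j) := by
  ext i j
  rw [Matrix.mul_apply]
  simp only [Sh, Matrix.of_apply]
  rw [Finset.sum_eq_single (j + s)]
  · rw [if_pos rfl, add_assoc, add_comm s r, ite_mul, zero_mul]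
  · intro k _ hk
    rw [if_neg (c := k = j + s) hk, mul_zero]
  · intro h
    exact absurd (Finset.mem_univ _) h

theorem D5b (r : Fin 5) (w : M5 Ω) : part r w = Sh r (fun j => w (j + r) j) := by
  ext i j
  simp only [part, Sh, Matrix.of_apply]
  split_ifs with h
  · rw [h]
  · rfl

theorem D5c (u : Fin 5 → Ω) : Sh 1 u ^ 5 = (∏ j, u j) • (1 : M5 Ω) := by
  have h : Sh 1 u ^ 5 = Sh 1 u * Sh 1 u * Sh 1 u * Sh 1 u * Sh 1 u := by
    simp only [pow_succ, pow_zero, one_mul]
  rw [h]
  simp only [D5a]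
  ext i j
  simp only [Sh, Matrix.of_apply, Matrix.smul_apply, Matrix.one_apply, smul_eq_mul]
  rw [Fin.prod_univ_five]
  have h5 : (1 + 1 + 1 + 1 + 1 : Fin 5) = 0 := rfl
  rw [h5, add_zero]
  by_cases hij : i = j
  · subst hij
    rw [if_pos rfl, if_pos rfl, mul_one]
    fin_cases i <;> simp <;> ring
  · rw [if_neg hij, if_neg hij, mul_zero]

end Pool.Agent.Helper58.CY
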