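import Pool.Agent.Helper58.CY.D5

/-! CY5 D6 (MP_5d2531_al, project CY5, paper /team-store/CY5_paper.md): the word identity (6) of the paper, for every r ≠ 0 (fin_cases r), and the word is a monomial matrix of shift r with nonzero entries (31 r = r). Numerically verified. Exponent bookkeeping with D5a; μ is a monomial in the entries. -/

namespace Pool.Agent.Helper58.CY

open Matrix Finset

variable {Ω : Type*} [Field Ω]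

private def Mono (r : Fin 5) (M : M5 Ω) : Prop := ∃ f : Fin 5 → Ω, (∀ j, f j ≠ 0) ∧ M = Sh r f

private lemma Mono.mul {r s : Fin 5} {M N : M5 Ω} (h1 : Mono r M) (h2 : Mono s N) :
    Mono (r + s) (M * N) := by
  obtain ⟨f, hf, rfl⟩ := h1
  obtain ⟨g, hg, rfl⟩ := h2
  exact ⟨_, fun j => mul_ne_zero (hf _) (hg _), D5a r s f g⟩

private lemma Mono.pow2 {r : Fin 5} {M : M5 Ω} (h : Mono r M) : Mono (r + r) (M ^ 2) := by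
  rw [pow_two]; exact h.mul h

private lemma Mono.pow3 {r : Fin 5} {M : M5 Ω} (h : Mono r M) : Mono (r + r + r) (M ^ 3) := by
  rw [pow_succ]; exact h.pow2.mul h

private lemma Mono.pow4 {r : Fin 5} {M : M5 Ω} (h : Mono r M) : Mono (r + r + r + r) (M ^ 4) := by
  rw [pow_succ]; exact h.pow3.mul h

private lemma shift31 : ∀ r : Fin 5, r + r + (r + r + (r + r)) + (r + r) + (r + r + r + r) + (r + r + r) +
    (r + r + r) + (r + r + r) + (r + r + r) + (r + r + r + r) + (r + r + r) = r := by decide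

theorem D6a (r : Fin 5) (u0 u1 u2 u3 : Fin 5 → Ω) (h0 : ∀ j, u0 j ≠ 0) (h1 : ∀ j, u1 j ≠ 0)
    (h2 : ∀ j, u2 j ≠ 0) (h3 : ∀ j, u3 j ≠ 0) :
    ∃ f : Fin 5 → Ω, (∀ j, f j ≠ 0) ∧
      word (Sh r u0) (Sh (r + r) u1) (Sh (r + r + r + r) u2) (Sh (r + r + r) u3) = Sh r f := by
  have m0 : Mono r (Sh r u0) := ⟨u0, h0, rfl⟩
  have m1 : Mono (r + r) (Sh (r + r) u1) := ⟨u1, h1, rfl⟩
  have m2 : Mono (r + r + r + r) (Sh (r + r + r + r) u2) := ⟨u2, h2, rfl⟩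
  have m3 : Mono (r + r + r) (Sh (r + r + r) u3) := ⟨u3, h3, rfl⟩
  have m := (((((((((m0.pow2.mul m1.pow2).mul m0.pow2).mul m2).mul m0.pow3).mul m3).mul m0.pow3).mul
    m3).mul m0.pow4).mul m3)
  obtain ⟨f, hf, hM⟩ := m
  refine ⟨f, hf, ?_⟩
  rw [word, hM]
  congr 1
  exact shift31 r

private lemma all5 (P : Fin 5 → Prop) (h0 : P 0) (h1 : P 1) (h2 : P 2) (h3 : P 3) (h4 : P 4) :
    ∀ j, P j := by
  intro j
  fin_cases j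
  · exact h0
  · exact h1
  · exact h2
  · exact h3
  · exact h4


private lemma D6_1 (u0 u1 u2 u3 : Fin 5 → Ω) (h0 : ∀ j, u0 j ≠ 0) (h3 : ∀ j, u3 j ≠ 0) :
    ∃ μ : Ω, word (Sh 2 u1) (Sh 4 u2) (Sh 3 u3) (Sh 1 u0) =
      μ • (word (Sh 1 u0) (Sh 2 u1) (Sh 4 u2) (Sh 3 u3)) ^ 2 := by
  have hne : ((u0 0 * u0 1 * u0 2 * u0 3 * u0 4) ^ 5 * (u3 0 * u3 1 * u3 2 * u3 3 * u3 4)) ≠ 0 :=
    mul_ne_zero (pow_ne_zero _ (mul_ne_zero (mul_ne_zero (mul_ne_zero (mul_ne_zero (h0 _) (h0 _)) (h0 _)) (h0 _)) (h0 _)))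
      (mul_ne_zero (mul_ne_zero (mul_ne_zero (mul_ne_zero (h3 _) (h3 _)) (h3 _)) (h3 _)) (h3 _))
  refine ⟨((u1 0 * u1 1 * u1 2 * u1 3 * u1 4) ^ 2) /
    ((u0 0 * u0 1 * u0 2 * u0 3 * u0 4) ^ 5 * (u3 0 * u3 1 * u3 2 * u3 3 * u3 4)), ?_⟩
  generalize hN : (u0 0 * u0 1 * u0 2 * u0 3 * u0 4) ^ 5 * (u3 0 * u3 1 * u3 2 * u3 3 * u3 4) = N at *
  generalize hN1 : (u1 0 * u1 1 * u1 2 * u1 3 * u1 4) ^ 2 = N1 at *
  simp only [word, pow_succ, pow_zero, one_mul, D5a]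
  simp only [Fin.reduceAdd]
  ext i j
  simp only [Sh, Matrix.smul_apply, Matrix.of_apply, smul_eq_mul, mul_ite, mul_zero]
  by_cases hij : i = j + 2
  · rw [if_pos hij, if_pos hij, div_mul_eq_mul_div, eq_div_iff hne, ← hN, ← hN1]
    clear hij
    revert j
    refine all5 _ ?_ ?_ ?_ ?_ ?_ <;> (simp only [Fin.reduceAdd]; ring)
  · rw [if_neg hij, if_neg hij]

private lemma D6_2 (u0 u1 u2 u3 : Fin 5 → Ω) (h0 : ∀ j, u0 j ≠ 0) (h3 : ∀ j, u3 j ≠ 0) :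
    ∃ μ : Ω, word (Sh 4 u1) (Sh 3 u2) (Sh 1 u3) (Sh 2 u0) =
      μ • (word (Sh 2 u0) (Sh 4 u1) (Sh 3 u2) (Sh 1 u3)) ^ 2 := by
  have hne : ((u0 0 * u0 1 * u0 2 * u0 3 * u0 4) ^ 5 * (u3 0 * u3 1 * u3 2 * u3 3 * u3 4)) ≠ 0 :=
    mul_ne_zero (pow_ne_zero _ (mul_ne_zero (mul_ne_zero (mul_ne_zero (mul_ne_zero (h0 _) (h0 _)) (h0 _)) (h0 _)) (h0 _)))
      (mul_ne_zero (mul_ne_zero (mul_ne_zero (mul_ne_zero (h3 _) (h3 _)) (h3 _)) (h3 _)) (h3 _))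
  refine ⟨((u1 0 * u1 1 * u1 2 * u1 3 * u1 4) ^ 2) /
    ((u0 0 * u0 1 * u0 2 * u0 3 * u0 4) ^ 5 * (u3 0 * u3 1 * u3 2 * u3 3 * u3 4)), ?_⟩
  generalize hN : (u0 0 * u0 1 * u0 2 * u0 3 * u0 4) ^ 5 * (u3 0 * u3 1 * u3 2 * u3 3 * u3 4) = N at *
  generalize hN1 : (u1 0 * u1 1 * u1 2 * u1 3 * u1 4) ^ 2 = N1 at *
  simp only [word, pow_succ, pow_zero, one_mul, D5a]
  simp only [Fin.reduceAdd]
  ext i j
  simp only [Sh, Matrix.smul_apply, Matrix.of_apply, smul_eq_mul, mul_ite, mul_zero]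
  by_cases hij : i = j + 4
  · rw [if_pos hij, if_pos hij, div_mul_eq_mul_div, eq_div_iff hne, ← hN, ← hN1]
    clear hij
    revert j
    refine all5 _ ?_ ?_ ?_ ?_ ?_ <;> (simp only [Fin.reduceAdd]; ring)
  · rw [if_neg hij, if_neg hij]

private lemma D6_3 (u0 u1 u2 u3 : Fin 5 → Ω) (h0 : ∀ j, u0 j ≠ 0) (h3 : ∀ j, u3 j ≠ 0) :
    ∃ μ : Ω, word (Sh 1 u1) (Sh 2 u2) (Sh 4 u3) (Sh 3 u0) =
      μ • (word (Sh 3 u0) (Sh 1 u1) (Sh 2 u2) (Sh 4 u3)) ^ 2 := by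
  have hne : ((u0 0 * u0 1 * u0 2 * u0 3 * u0 4) ^ 5 * (u3 0 * u3 1 * u3 2 * u3 3 * u3 4)) ≠ 0 :=
    mul_ne_zero (pow_ne_zero _ (mul_ne_zero (mul_ne_zero (mul_ne_zero (mul_ne_zero (h0 _) (h0 _)) (h0 _)) (h0 _)) (h0 _)))
      (mul_ne_zero (mul_ne_zero (mul_ne_zero (mul_ne_zero (h3 _) (h3 _)) (h3 _)) (h3 _)) (h3 _))
  refine ⟨((u1 0 * u1 1 * u1 2 * u1 3 * u1 4) ^ 2) /
    ((u0 0 * u0 1 * u0 2 * u0 3 * u0 4) ^ 5 * (u3 0 * u3 1 * u3 2 * u3 3 * u3 4)), ?_⟩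
  generalize hN : (u0 0 * u0 1 * u0 2 * u0 3 * u0 4) ^ 5 * (u3 0 * u3 1 * u3 2 * u3 3 * u3 4) = N at *
  generalize hN1 : (u1 0 * u1 1 * u1 2 * u1 3 * u1 4) ^ 2 = N1 at *
  simp only [word, pow_succ, pow_zero, one_mul, D5a]
  simp only [Fin.reduceAdd]
  ext i j
  simp only [Sh, Matrix.smul_apply, Matrix.of_apply, smul_eq_mul, mul_ite, mul_zero]
  by_cases hij : i = j + 1
  · rw [if_pos hij, if_pos hij, div_mul_eq_mul_div, eq_div_iff hne, ← hN, ← hN1]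
    clear hij
    revert j
    refine all5 _ ?_ ?_ ?_ ?_ ?_ <;> (simp only [Fin.reduceAdd]; ring)
  · rw [if_neg hij, if_neg hij]

private lemma D6_4 (u0 u1 u2 u3 : Fin 5 → Ω) (h0 : ∀ j, u0 j ≠ 0) (h3 : ∀ j, u3 j ≠ 0) :
    ∃ μ : Ω, word (Sh 3 u1) (Sh 1 u2) (Sh 2 u3) (Sh 4 u0) =
      μ • (word (Sh 4 u0) (Sh 3 u1) (Sh 1 u2) (Sh 2 u3)) ^ 2 := by
  have hne : ((u0 0 * u0 1 * u0 2 * u0 3 * u0 4) ^ 5 * (u3 0 * u3 1 * u3 2 * u3 3 * u3 4)) ≠ 0 :=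
    mul_ne_zero (pow_ne_zero _ (mul_ne_zero (mul_ne_zero (mul_ne_zero (mul_ne_zero (h0 _) (h0 _)) (h0 _)) (h0 _)) (h0 _)))
      (mul_ne_zero (mul_ne_zero (mul_ne_zero (mul_ne_zero (h3 _) (h3 _)) (h3 _)) (h3 _)) (h3 _))
  refine ⟨((u1 0 * u1 1 * u1 2 * u1 3 * u1 4) ^ 2) /
    ((u0 0 * u0 1 * u0 2 * u0 3 * u0 4) ^ 5 * (u3 0 * u3 1 * u3 2 * u3 3 * u3 4)), ?_⟩
  generalize hN : (u0 0 * u0 1 * u0 2 * u0 3 * u0 4) ^ 5 * (u3 0 * u3 1 * u3 2 * u3 3 * u3 4) = N at *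
  generalize hN1 : (u1 0 * u1 1 * u1 2 * u1 3 * u1 4) ^ 2 = N1 at *
  simp only [word, pow_succ, pow_zero, one_mul, D5a]
  simp only [Fin.reduceAdd]
  ext i j
  simp only [Sh, Matrix.smul_apply, Matrix.of_apply, smul_eq_mul, mul_ite, mul_zero]
  by_cases hij : i = j + 3
  · rw [if_pos hij, if_pos hij, div_mul_eq_mul_div, eq_div_iff hne, ← hN, ← hN1]
    clear hij
    revert j
    refine all5 _ ?_ ?_ ?_ ?_ ?_ <;> (simp only [Fin.reduceAdd]; ring)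
  · rw [if_neg hij, if_neg hij]

theorem D6 (r : Fin 5) (hr : r ≠ 0) (u0 u1 u2 u3 : Fin 5 → Ω) (h0 : ∀ j, u0 j ≠ 0) (h1 : ∀ j, u1 j ≠ 0)
    (h2 : ∀ j, u2 j ≠ 0) (h3 : ∀ j, u3 j ≠ 0) :
    ∃ μ : Ω, word (Sh (r + r) u1) (Sh (r + r + r + r) u2) (Sh (r + r + r) u3) (Sh r u0) =
      μ • (word (Sh r u0) (Sh (r + r) u1) (Sh (r + r + r + r) u2) (Sh (r + r + r) u3)) ^ 2 := by
  revert hr
  revert r
  refine all5 _ ?_ ?_ ?_ ?_ ?_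
  · exact fun h => absurd rfl h
  · exact fun _ => D6_1 u0 u1 u2 u3 h0 h3
  · exact fun _ => D6_2 u0 u1 u2 u3 h0 h3
  · exact fun _ => D6_3 u0 u1 u2 u3 h0 h3
  · exact fun _ => D6_4 u0 u1 u2 u3 h0 h3

end Pool.Agent.Helper58.CY
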