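import Pool.Agent.Helper58.CY.D4
import Pool.Agent.Helper58.CY.D6

/-! CY5 D7 (MP_5d2531_al, project CY5, paper /team-store/CY5_paper.md): stage 2 in diagonal form: y = yd y0 h ∈ D, h^4 = α ∈ F, α ≠ 0, char 5, w ∈ D with all off-diagonal entries nonzero ⇒ w5 = sum of the four words is in D, non-scalar, with scalar 5th power (D4, D5, D6) -/

namespace Pool.Agent.Helper58.CY

open Matrix Finset

variable {F : Type*} {Ω : Type*} [Field F] [Field Ω] [Algebra F Ω]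

private lemma bb_pow [CharP Ω 5] (D : Subalgebra F (M5 Ω)) (h : Ω) (α : F)
    (hh : h ^ 4 = algebraMap F Ω α) (f : Fin 4 → M5 Ω) (hf : f ∈ BB D h) (n : ℕ) :
    (fun k => f k ^ (n + 1)) ∈ BB D h := by
  induction n with
  | zero =>
    simp only [zero_add, pow_one]
    exact hf
  | succ n ih =>
    have h1 := D4a D h α hh _ _ ih hf
    have e : (fun k => f k ^ (n + 1 + 1)) = fun k => f k ^ (n + 1) * f k := by
      funext k
      rw [pow_succ]
    rw [e]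
    exact h1

private lemma bb_word [CharP Ω 5] (D : Subalgebra F (M5 Ω)) (h : Ω) (α : F)
    (hh : h ^ 4 = algebraMap F Ω α) (f0 f1 f2 f3 : Fin 4 → M5 Ω) (h0 : f0 ∈ BB D h)
    (h1 : f1 ∈ BB D h) (h2 : f2 ∈ BB D h) (h3 : f3 ∈ BB D h) :
    (fun k => word (f0 k) (f1 k) (f2 k) (f3 k)) ∈ BB D h := by
  have a2 := bb_pow D h α hh f0 h0 1
  have b2 := bb_pow D h α hh f1 h1 1
  have a3 := bb_pow D h α hh f0 h0 2
  have a4 := bb_pow D h α hh f0 h0 3
  have s1 := D4a D h α hh _ _ a2 b2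
  have s2 := D4a D h α hh _ _ s1 a2
  have s3 := D4a D h α hh _ _ s2 h2
  have s4 := D4a D h α hh _ _ s3 a3
  have s5 := D4a D h α hh _ _ s4 h3
  have s6 := D4a D h α hh _ _ s5 a3
  have s7 := D4a D h α hh _ _ s6 h3
  have s8 := D4a D h α hh _ _ s7 a4
  have s9 := D4a D h α hh _ _ s8 h3
  exact s9

theorem D7 [CharP Ω 5] (D : Subalgebra F (M5 Ω)) (y0 h : Ω) (hy : yd y0 h ∈ D) (α : F) (hα : α ≠ 0)
    (hh : h ^ 4 = algebraMap F Ω α) (w : M5 Ω) (hw : w ∈ D) (hoff : ∀ i j : Fin 5, i ≠ j → w i j ≠ 0) :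
    ∃ z ∈ D, (∀ c : Ω, z ≠ c • (1 : M5 Ω)) ∧ ∃ c : Ω, z ^ 5 = c • (1 : M5 Ω) := by
  classical
  -- entries of the parts
  have hne : ∀ r : Fin 5, r ≠ 0 → ∀ j : Fin 5, w (j + r) j ≠ 0 := by
    intro r hr j
    apply hoff
    intro h0
    apply hr
    have h1 : j + r = j + 0 := by rw [h0, add_zero]
    exact add_left_cancel h1
  set P1 : M5 Ω := Sh 1 (fun j => w (j + 1) j) with hP1
  set P2 : M5 Ω := Sh 2 (fun j => w (j + 2) j) with hP2
  set P4 : M5 Ω := Sh 4 (fun j => w (j + 4) j) with hP4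
  set P3 : M5 Ω := Sh 3 (fun j => w (j + 3) j) with hP3
  have n1 := hne 1 (by decide)
  have n2 := hne 2 (by decide)
  have n4 := hne 4 (by decide)
  have n3 := hne 3 (by decide)
  set W0 : M5 Ω := word P1 P2 P4 P3 with hW0
  set W1 : M5 Ω := word P2 P4 P3 P1 with hW1
  set W2 : M5 Ω := word P4 P3 P1 P2 with hW2
  set W3 : M5 Ω := word P3 P1 P2 P4 with hW3
  -- membership
  have hmem : W0 + W1 + W2 + W3 ∈ D := by
    have hb := bb_word D h α hh _ _ _ _ (D4b D y0 h hy α hα hh w hw 0)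
      (D4b D y0 h hy α hα hh w hw 1) (D4b D y0 h hy α hα hh w hw 2) (D4b D y0 h hy α hα hh w hw 3)
    have hs := D4c D h _ hb
    have s0 : sft 0 = 1 := by decide
    have s1 : sft 1 = 2 := by decide
    have s2 : sft 2 = 4 := by decide
    have s3 : sft 3 = 3 := by decide
    have s4 : sft 4 = 1 := by decide
    have s5 : sft 5 = 2 := by decide
    have s6 : sft 6 = 4 := by decide
    have v3 : ((3 : Fin 4) : ℕ) = 3 := rfl
    rw [Fin.sum_univ_four] at hs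
    simp only [Fin.val_zero, Fin.val_one, Fin.val_two, v3, zero_add, add_zero, Nat.reduceAdd, s0, s1,
      s2, s3, s4, s5, s6, D5b] at hs
    exact hs
  -- the recursion
  obtain ⟨f, hf, hWf⟩ := D6a (1 : Fin 5) (fun j => w (j + 1) j) (fun j => w (j + 2) j)
    (fun j => w (j + 4) j) (fun j => w (j + 3) j) n1 n2 n4 n3
  have hW0f : W0 = Sh 1 f := hWf
  obtain ⟨μ1, h1⟩ := D6 (1 : Fin 5) (by decide) (fun j => w (j + 1) j) (fun j => w (j + 2) j)
    (fun j => w (j + 4) j) (fun j => w (j + 3) j) n1 n2 n4 n3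
  have h1' : W1 = μ1 • W0 ^ 2 := h1
  obtain ⟨μ2, h2⟩ := D6 (2 : Fin 5) (by decide) (fun j => w (j + 2) j) (fun j => w (j + 4) j)
    (fun j => w (j + 3) j) (fun j => w (j + 1) j) n2 n4 n3 n1
  have h2' : W2 = μ2 • W1 ^ 2 := h2
  obtain ⟨μ3, h3⟩ := D6 (4 : Fin 5) (by decide) (fun j => w (j + 4) j) (fun j => w (j + 3) j)
    (fun j => w (j + 1) j) (fun j => w (j + 2) j) n4 n3 n1 n2
  have h3' : W3 = μ3 • W2 ^ 2 := h3
  set N : Ω := ∏ j, f j with hN
  have hN5 : W0 ^ 5 = N • (1 : M5 Ω) := by rw [hW0f, D5c]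
  have hW1 : W1 = μ1 • W0 ^ 2 := h1'
  have hW2 : W2 = (μ2 * μ1 ^ 2) • W0 ^ 4 := by
    rw [h2', hW1, smul_pow, ← pow_mul, smul_smul]
  have hW3 : W3 = (μ3 * (μ2 * μ1 ^ 2) ^ 2 * N) • W0 ^ 3 := by
    rw [h3', hW2, smul_pow, ← pow_mul, smul_smul]
    have e : W0 ^ (4 * 2) = W0 ^ 5 * W0 ^ 3 := by rw [← pow_add]
    rw [e, hN5, smul_mul_assoc, one_mul, smul_smul]
  set a : Ω := μ1 with ha
  set b : Ω := μ2 * μ1 ^ 2 with hb
  set c : Ω := μ3 * (μ2 * μ1 ^ 2) ^ 2 * N with hc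
  have hz : W0 + W1 + W2 + W3 = W0 + a • W0 ^ 2 + b • W0 ^ 4 + c • W0 ^ 3 := by
    rw [hW1, hW2, hW3]
  refine ⟨W0 + W1 + W2 + W3, hmem, ?_, ?_⟩
  · intro c' hc'
    rw [hz] at hc'
    have e1 := congrFun (congrFun hc' 1) 0
    have p2 : W0 ^ 2 = Sh 2 (fun j => f (j + 1) * f j) := by
      rw [hW0f, pow_two, D5a]
      rfl
    have p3 : W0 ^ 3 = Sh 3 (fun j => (f (j + 1 + 1) * f (j + 1)) * f j) := by
      rw [pow_succ, p2, hW0f, D5a]
      rfl
    have p4 : W0 ^ 4 = Sh 4 (fun j => ((f (j + 1 + 1 + 1) * f (j + 1 + 1)) * f (j + 1)) * f j) := by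
      rw [pow_succ, p3, hW0f, D5a]
      rfl
    rw [p2, p3, p4, hW0f] at e1
    have q1 : (1 : Fin 5) = 0 + 1 := rfl
    have q2 : ¬ (1 : Fin 5) = 0 + 2 := by decide
    have q3 : ¬ (1 : Fin 5) = 0 + 3 := by decide
    have q4 : ¬ (1 : Fin 5) = 0 + 4 := by decide
    simp only [Matrix.add_apply, Matrix.smul_apply, Sh, Matrix.of_apply, smul_eq_mul,
      Matrix.one_apply] at e1
    rw [if_pos q1, if_neg q2, if_neg q3, if_neg q4, if_neg (by decide : ¬ (1 : Fin 5) = 0)] at e1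
    simp only [mul_zero, add_zero] at e1
    exact hf 0 e1
  · have hpr : Fact (Nat.Prime 5) := ⟨by norm_num⟩
    have hchar : CharP (M5 Ω) 5 := inferInstance
    have c1 : Commute W0 (a • W0 ^ 2) := ((Commute.refl W0).pow_right 2).smul_right a
    have c2 : Commute (W0 + a • W0 ^ 2) (b • W0 ^ 4) := by
      refine Commute.smul_right ?_ b
      exact ((Commute.refl W0).pow_right 4).add_left
        (((Commute.refl W0).pow_pow 2 4).smul_left a)
    have c3 : Commute (W0 + a • W0 ^ 2 + b • W0 ^ 4) (c • W0 ^ 3) := by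
      refine Commute.smul_right ?_ c
      exact (((Commute.refl W0).pow_right 3).add_left
        (((Commute.refl W0).pow_pow 2 3).smul_left a)).add_left
        (((Commute.refl W0).pow_pow 4 3).smul_left b)
    rw [hz, add_pow_char_of_commute 5 c3, add_pow_char_of_commute 5 c2,
      add_pow_char_of_commute 5 c1, smul_pow, smul_pow, smul_pow]
    have r2 : (W0 ^ 2) ^ 5 = (N ^ 2) • (1 : M5 Ω) := by
      rw [← pow_mul, mul_comm 2 5, pow_mul, hN5, smul_pow, one_pow]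
    have r3 : (W0 ^ 3) ^ 5 = (N ^ 3) • (1 : M5 Ω) := by
      rw [← pow_mul, mul_comm 3 5, pow_mul, hN5, smul_pow, one_pow]
    have r4 : (W0 ^ 4) ^ 5 = (N ^ 4) • (1 : M5 Ω) := by
      rw [← pow_mul, mul_comm 4 5, pow_mul, hN5, smul_pow, one_pow]
    rw [hN5, r2, r3, r4]
    refine ⟨N + a ^ 5 * N ^ 2 + b ^ 5 * N ^ 4 + c ^ 5 * N ^ 3, ?_⟩
    simp only [smul_smul, add_smul]

end Pool.Agent.Helper58.CY
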