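import Pool.Agent.Helper58.CY.A2
import Pool.Agent.Helper58.CY.A4
import Pool.Agent.Helper58.CY.D1
import Pool.Agent.Helper58.CY.D2
import Pool.Agent.Helper58.CY.D3
import Pool.Agent.Helper58.CY.D7

/-! CY5 D8 (MP_5d2531_al, project CY5, paper /team-store/CY5_paper.md): stage 2: assembly (D1, D2, D3, D7, A2, A4) -/

namespace Pool.Agent.Helper58.CY

open Matrix Finset

variable {F : Type*} {Ω : Type*} [Field F] [Field Ω] [Algebra F Ω]

theorem D8 [Infinite F] [IsAlgClosed Ω] [CharP Ω 5] (D : Subalgebra F (M5 Ω)) (hD : IsForm D)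
    (y : M5 Ω) (hy : y ∈ D) (hns : ∀ c : Ω, y ≠ c • (1 : M5 Ω)) (h1 : Matrix.trace y = 0)
    (h2 : Matrix.trace (y * y) = 0) (h3 : Matrix.trace (y * y * y) = 0) :
    ∃ z ∈ D, (∀ c : Ω, z ≠ c • (1 : M5 Ω)) ∧ ∃ c : Ω, z ^ 5 = c • (1 : M5 Ω) := by
  have h5 : (5 : Ω) = 0 := by
    have := CharP.cast_eq_zero Ω 5
    exact_mod_cast this
  have h6 : (6 : Ω) ≠ 0 := by
    have : (6 : Ω) = 5 + 1 := by norm_num
    rw [this, h5, zero_add]
    exact one_ne_zero
  obtain ⟨α, β, hc⟩ := D1 h6 y h1 h2 h3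
  have hCH : y ^ 5 = α • y + β • (1 : M5 Ω) := by
    have h := Matrix.aeval_self_charpoly y
    rw [hc, map_sub, map_sub, map_mul, map_pow, Polynomial.aeval_X, Polynomial.aeval_C,
      Polynomial.aeval_C, Algebra.algebraMap_eq_smul_one, Algebra.algebraMap_eq_smul_one,
      smul_mul_assoc, one_mul, sub_sub, sub_eq_zero] at h
    exact h
  obtain ⟨α', β', hα', hβ'⟩ := D2 D hD y hy hns α β hCH
  by_cases hα : α = 0
  · refine ⟨y, hy, hns, β, ?_⟩
    rw [hCH, hα, zero_smul, zero_add]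
  obtain ⟨h, hh⟩ := IsAlgClosed.exists_pow_nat_eq α (n := 4) (by norm_num)
  obtain ⟨S, S', y0, hS, hyd⟩ := D3 y α β h hα hh hc
  have hS' : S' * S = 1 := mul_eq_one_comm.mp hS
  have hyd' : yd y0 h ∈ conjD D S S' hS := by
    rw [mem_conjD, ← hyd]
    have : S * (S' * y * S) * S' = y := by
      calc S * (S' * y * S) * S' = (S * S') * y * (S * S') := by simp only [mul_assoc]
        _ = y := by rw [hS, one_mul, mul_one]
    rw [this]
    exact hy
  have hα0 : α' ≠ 0 := by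
    rintro rfl
    rw [map_zero] at hα'
    exact hα hα'.symm
  obtain ⟨w, hw, hoff⟩ := A2 (conjD D S S' hS) (A4a D S S' hS hD)
  obtain ⟨z, hz, hzs, c, hzc⟩ := D7 (conjD D S S' hS) y0 h hyd' α' hα0 (hh.trans hα'.symm) w hw hoff
  refine ⟨S * z * S', hz, fun c' hc' => hzs c' ?_, c, ?_⟩
  · calc z = (S' * S) * z * (S' * S) := by rw [hS', one_mul, mul_one]
      _ = S' * (S * z * S') * S := by simp only [mul_assoc]
      _ = c' • (1 : M5 Ω) := by
        rw [hc', mul_smul_comm, mul_one, smul_mul_assoc, hS']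
  · have e : (conjHom F S S' hS z) ^ 5 = conjHom F S S' hS (z ^ 5) := (map_pow _ _ _).symm
    have e1 : (S * z * S') ^ 5 = S * z ^ 5 * S' := e
    rw [e1, hzc, mul_smul_comm, mul_one, smul_mul_assoc, hS]

end Pool.Agent.Helper58.CY
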