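import Mathlib

/-! CY5: definitions for project CY5 (MP_5d2531_al), helper58. Paper: /team-store/CY5_paper.md -/

namespace Pool.Agent.Helper58.CY

open Matrix Finset

/-- 5 x 5 matrices -/
abbrev M5 (Ω : Type*) := Matrix (Fin 5) (Fin 5) Ω

section Form

variable {F : Type*} {Ω : Type*} [Field F] [Field Ω] [Algebra F Ω]

/-- `D` is an `F`-form of `M_5(Ω)`: 25 elements of `D`, linearly independent over `Ω`, span `D` over `F`. -/
def IsForm (D : Subalgebra F (M5 Ω)) : Prop :=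
  ∃ b : Fin 25 → M5 Ω, (∀ i, b i ∈ D) ∧ LinearIndependent Ω b ∧
    ∀ d ∈ D, ∃ c : Fin 25 → F, d = ∑ i, c i • b i

/-- every nonzero element of `D` is invertible in `D` -/
def IsDiv (D : Subalgebra F (M5 Ω)) : Prop :=
  ∀ d ∈ D, d ≠ 0 → ∃ d' ∈ D, d * d' = 1

/-- conjugation `x ↦ S x S'` with `S S' = 1` -/
def conjHom (F : Type*) {Ω : Type*} [Field F] [Field Ω] [Algebra F Ω]
    (S S' : M5 Ω) (h : S * S' = 1) : M5 Ω →ₐ[F] M5 Ω where
  toFun x := S * x * S'
  map_one' := by rw [mul_one, h]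
  map_mul' x y := by
    have h' : S' * S = 1 := mul_eq_one_comm.mp h
    calc S * (x * y) * S' = S * x * 1 * y * S' := by simp only [mul_one, mul_assoc]
      _ = S * x * (S' * S) * y * S' := by rw [h']
      _ = S * x * S' * (S * y * S') := by simp only [mul_assoc]
  map_zero' := by simp
  map_add' x y := by rw [mul_add, add_mul]
  commutes' r := by
    rw [Algebra.algebraMap_eq_smul_one, mul_smul_comm, mul_one, smul_mul_assoc, h]

/-- the conjugate of `D`: all `x` with `S x S' ∈ D` -/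
def conjD (D : Subalgebra F (M5 Ω)) (S S' : M5 Ω) (h : S * S' = 1) : Subalgebra F (M5 Ω) :=
  D.comap (conjHom F S S' h)

lemma mem_conjD (D : Subalgebra F (M5 Ω)) (S S' : M5 Ω) (h : S * S' = 1) (x : M5 Ω) :
    x ∈ conjD D S S' h ↔ S * x * S' ∈ D := Iff.rfl

end Form

section Comm

variable {Ω : Type*} [CommRing Ω]

/-- discriminant of the characteristic polynomial, as the determinant of the trace form on powers -/
def discM (θ : M5 Ω) : Ω := Matrix.det (Matrix.of fun i j : Fin 5 => Matrix.trace (θ ^ ((i : ℕ) + (j : ℕ))))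

/-- `Y(l) = g (s l - l s)` -/
def Y (g s : M5 Ω) (l : Fin 5 → Ω) : M5 Ω := g * (s * Matrix.diagonal l - Matrix.diagonal l * s)

/-- `x_i = Y(E_ii)` -/
def xx (g s : M5 Ω) (i : Fin 5) : M5 Ω := Y g s (Pi.single i 1)

/-- `w_ij = tr (x_i x_j)` -/
def ww (g s : M5 Ω) (i j : Fin 5) : Ω := Matrix.trace (xx g s i * xx g s j)

/-- zero diagonals of `g, gs, sg, sgs` -/
structure ZD (g s : M5 Ω) : Prop where
  d1 : ∀ i, g i i = 0
  d2 : ∀ i, (g * s) i i = 0
  d3 : ∀ i, (s * g) i i = 0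
  d4 : ∀ i, (s * g * s) i i = 0

/-- the part of `w` of shift `r` -/
def part (r : Fin 5) (w : M5 Ω) : M5 Ω := Matrix.of fun i j => if i = j + r then w i j else 0

/-- the monomial matrix of shift `r` with entries `u` -/
def Sh (r : Fin 5) (u : Fin 5 → Ω) : M5 Ω := Matrix.of fun i j => if i = j + r then u j else 0

/-- the word (total shift `31 = 1` for letters of shifts `1, 2, 4, 3`) -/
def word (z0 z1 z2 z3 : M5 Ω) : M5 Ω :=
  z0 ^ 2 * z1 ^ 2 * z0 ^ 2 * z2 * z0 ^ 3 * z3 * z0 ^ 3 * z3 * z0 ^ 4 * z3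

/-- the diagonal matrix with entries `y0 + i h` -/
def yd (y0 h : Ω) : M5 Ω := Matrix.diagonal fun i => y0 + ((i : ℕ) : Ω) * h

/-- the shifts `1, 2, 4, 3, 1, 2, ...` -/
def sft (k : ℕ) : Fin 5 := Fin.ofNat 5 (2 ^ k)

end Comm

/-- functions `k ↦ ∑ (2^k h)^j d_j` with `d_j ∈ D` -/
def BB {F : Type*} {Ω : Type*} [Field F] [Field Ω] [Algebra F Ω] (D : Subalgebra F (M5 Ω)) (h : Ω) :
    Set (Fin 4 → M5 Ω) :=
  {f | ∃ d : Fin 4 → M5 Ω, (∀ j, d j ∈ D) ∧ ∀ k : Fin 4, f k = ∑ j : Fin 4, ((2 : Ω) ^ (k : ℕ) * h) ^ (j : ℕ) • d j}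

end Pool.Agent.Helper58.CY
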