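import Pool.Agent.Helper58.CY.Defs

/-! CY5: definitions for part II of project CY5 (MP_5d2531_al), helper58. Paper: /team-store/CY5_paper.md -/

namespace Pool.Agent.Helper58.CY

open Matrix Finset

section EP

variable {Ω : Type*} [CommRing Ω]

/-- the value of the generalised polynomial attached to `P` at `θ, y_0, ..., y_4` -/
noncomputable def EP (P : MvPolynomial (Fin 6) ℤ) (θ : M5 Ω) (y : Fin 5 → M5 Ω) : M5 Ω :=
  ∑ m ∈ P.support, P.coeff m • (θ ^ m 0 * y 0 * θ ^ m 1 * y 1 * θ ^ m 2 * y 2 * θ ^ m 3 * y 3 *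
    θ ^ m 4 * y 4 * θ ^ m 5)

/-- Formanek's polynomial -/
noncomputable def fmk : MvPolynomial (Fin 6) ℤ :=
  (MvPolynomial.X 0 - MvPolynomial.X 1) * (MvPolynomial.X 0 - MvPolynomial.X 2) *
  (MvPolynomial.X 0 - MvPolynomial.X 3) * (MvPolynomial.X 0 - MvPolynomial.X 4) *
  (MvPolynomial.X 5 - MvPolynomial.X 1) * (MvPolynomial.X 5 - MvPolynomial.X 2) *
  (MvPolynomial.X 5 - MvPolynomial.X 3) * (MvPolynomial.X 5 - MvPolynomial.X 4) *
  ((MvPolynomial.X 1 - MvPolynomial.X 2) * (MvPolynomial.X 1 - MvPolynomial.X 3) *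
   (MvPolynomial.X 1 - MvPolynomial.X 4) * (MvPolynomial.X 2 - MvPolynomial.X 3) *
   (MvPolynomial.X 2 - MvPolynomial.X 4) * (MvPolynomial.X 3 - MvPolynomial.X 4)) ^ 2

/-- sum over all cyclic orderings of the products of entries -/
def tau (y : Fin 5 → M5 Ω) : Ω :=
  ∑ σ : Equiv.Perm (Fin 5), ∏ k : Fin 5, y k (σ k) (σ (k + 1))

/-- squared Vandermonde determinant -/
def dsc (a : Fin 5 → Ω) : Ω := (Matrix.vandermonde a).det ^ 2

end EP

section GD

variable {K : Type*} {Ω : Type*} [Field K] [Field Ω] [Algebra K Ω]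

/-- the scalars in `G` -/
def CC (G : Subalgebra K (M5 Ω)) : Subalgebra K Ω :=
  G.comap (IsScalarTower.toAlgHom K Ω (M5 Ω))

lemma mem_CC (G : Subalgebra K (M5 Ω)) (c : Ω) : c ∈ CC G ↔ c • (1 : M5 Ω) ∈ G := by
  rw [← Algebra.algebraMap_eq_smul_one]; exact Iff.rfl

/-- the field of fractions of `CC G` inside `Ω` -/
def FF (G : Subalgebra K (M5 Ω)) : Subfield Ω := Subfield.closure (CC G : Set Ω)

lemma mem_FF (G : Subalgebra K (M5 Ω)) (f : Ω) :
    f ∈ FF G ↔ ∃ a ∈ CC G, ∃ b ∈ CC G, b ≠ 0 ∧ f = a / b := by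
  have hcl : Subring.closure (CC G : Set Ω) = (CC G).toSubring := by
    apply le_antisymm
    · rw [Subring.closure_le]; exact fun x hx => hx
    · exact fun x hx => Subring.subset_closure hx
  unfold FF
  rw [Subfield.mem_closure_iff]
  constructor
  · rintro ⟨a, ha, b, hb, rfl⟩
    rw [hcl] at ha hb
    by_cases hb0 : b = 0
    · exact ⟨0, zero_mem _, 1, one_mem _, one_ne_zero, by simp [hb0]⟩
    · exact ⟨a, ha, b, hb, hb0, rfl⟩
  · rintro ⟨a, ha, b, hb, _, rfl⟩
    exact ⟨a, by rw [hcl]; exact ha, b, by rw [hcl]; exact hb, rfl⟩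

lemma CC_smul_mem (G : Subalgebra K (M5 Ω)) {c : Ω} (hc : c ∈ CC G) {x : M5 Ω} (hx : x ∈ G) :
    c • x ∈ G := by
  have := G.mul_mem ((mem_CC G c).mp hc) hx
  rwa [smul_mul_assoc, one_mul] at this

/-- the algebra of central quotients of `G` -/
def DD (G : Subalgebra K (M5 Ω)) : Subalgebra (FF G) (M5 Ω) where
  carrier := {x | ∃ c ∈ CC G, c ≠ 0 ∧ c • x ∈ G}
  mul_mem' := by
    rintro x y ⟨c, hc, hc0, hcx⟩ ⟨c', hc', hc0', hcy⟩
    refine ⟨c * c', mul_mem hc hc', mul_ne_zero hc0 hc0', ?_⟩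
    have := G.mul_mem hcx hcy
    rwa [smul_mul_smul_comm] at this
  add_mem' := by
    rintro x y ⟨c, hc, hc0, hcx⟩ ⟨c', hc', hc0', hcy⟩
    refine ⟨c * c', mul_mem hc hc', mul_ne_zero hc0 hc0', ?_⟩
    have h1 := CC_smul_mem G hc' hcx
    have h2 := CC_smul_mem G hc hcy
    have := G.add_mem h1 h2
    rw [smul_smul, smul_smul, mul_comm c' c, ← smul_add] at this
    exact this
  algebraMap_mem' := by
    rintro ⟨f, hf⟩
    obtain ⟨a, ha, b, hb, hb0, rfl⟩ := (mem_FF G f).mp hf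
    refine ⟨b, hb, hb0, ?_⟩
    have : b • (algebraMap (FF G) (M5 Ω)) ⟨a / b, hf⟩ = a • (1 : M5 Ω) := by
      rw [IsScalarTower.algebraMap_apply (FF G) Ω (M5 Ω), Algebra.algebraMap_eq_smul_one, smul_smul]
      congr 1
      show b * (a / b) = a
      field_simp
    rw [this]
    exact (mem_CC G a).mp ha

lemma mem_DD (G : Subalgebra K (M5 Ω)) (x : M5 Ω) :
    x ∈ DD G ↔ ∃ c ∈ CC G, c ≠ 0 ∧ c • x ∈ G := Iff.rfl

end GD

section Gen

/-- index set of the 25 generic matrices (and of the entries of a matrix) -/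
abbrev Idx := Fin 5 × Fin 5

variable (K : Type*) [Field K]

/-- polynomial ring in the entries of the generic matrices -/
abbrev RR := MvPolynomial (Idx × Idx) K

/-- an algebraically closed field containing the entries -/
abbrev Om := AlgebraicClosure (FractionRing (RR K))

/-- generic matrices over the polynomial ring -/
noncomputable def genR (i : Idx) : M5 (RR K) := Matrix.of fun a b => MvPolynomial.X (i, (a, b))

/-- generic matrices over `Om` -/
noncomputable def gen (i : Idx) : M5 (Om K) := (genR K i).map (algebraMap (RR K) (Om K))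

/-- the algebra of generic matrices -/
noncomputable def GG : Subalgebra K (M5 (Om K)) := Algebra.adjoin K (Set.range (gen K))

end Gen

/-- `P` is scalar valued on `M_5(K)` -/
def ScalarValued {K : Type*} [Field K] {ι : Type*} (P : FreeAlgebra K ι) : Prop :=
  ∀ a : ι → M5 K, ∃ c : K, FreeAlgebra.lift K a P = c • (1 : M5 K)

end Pool.Agent.Helper58.CY
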