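import Pool.Agent.Helper58.CY.Defs

/-! CY5 E1 (MP_5d2531_al, project CY5, paper /team-store/CY5_paper.md): a form which is not a division algebra contains u ≠ 0 with u^2 = 0. Proof: d ≠ 0 in D without right inverse in D: x ↦ d x on D not surjective, so not injective (dim 25): d x = 0, x ≠ 0 in D. D spans M_5(Ω), so x M_5 d ≠ 0, x r d ≠ 0 for some r ∈ D; u = x r d, u^2 = x r (d x) r d = 0. -/

namespace Pool.Agent.Helper58.CY

open Matrix Finset

variable {F : Type*} {Ω : Type*} [Field F] [Field Ω] [Algebra F Ω]

theorem E1 (D : Subalgebra F (M5 Ω)) (hD : IsForm D) (hnd : ¬ IsDiv D) :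
    ∃ u ∈ D, u ≠ 0 ∧ u * u = 0 := by
  obtain ⟨b, hbD, hb, hspan⟩ := hD
  unfold IsDiv at hnd
  push Not at hnd
  obtain ⟨d, hd, hd0, hno⟩ := hnd
  -- `D` is finite dimensional
  have hDs : Subalgebra.toSubmodule D = Submodule.span F (Set.range b) := by
    apply le_antisymm
    · intro z hz
      obtain ⟨c, hc⟩ := hspan z hz
      rw [hc]
      exact Submodule.sum_mem _ fun i _ => Submodule.smul_mem _ _ (Submodule.subset_span ⟨i, rfl⟩)
    · rw [Submodule.span_le]
      rintro _ ⟨i, rfl⟩
      exact hbD i
  have hfin : Module.Finite F D := by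
    have : Module.Finite F (Subalgebra.toSubmodule D) := by
      rw [hDs]
      exact Module.Finite.span_of_finite F (Set.finite_range b)
    exact this
  -- a zero divisor
  obtain ⟨x, hx, hx0, hdx⟩ : ∃ x ∈ D, x ≠ 0 ∧ d * x = 0 := by
    by_contra hcon
    push Not at hcon
    have hinj : Function.Injective (LinearMap.mulLeft F (⟨d, hd⟩ : D)) := by
      rw [injective_iff_map_eq_zero]
      intro z hz
      by_contra hz0
      have h1 : (z : M5 Ω) ≠ 0 := fun h2 => hz0 (Subtype.ext h2)
      refine hcon z z.2 h1 ?_
      have h3 := congrArg (Subtype.val) hz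
      simpa using h3
    have hsurj := (LinearMap.injective_iff_surjective (f := LinearMap.mulLeft F (⟨d, hd⟩ : D))).mp hinj
    obtain ⟨z, hz⟩ := hsurj 1
    refine hno z z.2 ?_
    have h3 := congrArg (Subtype.val) hz
    simpa using h3
  -- a middle factor
  obtain ⟨r, hr, hxrd⟩ : ∃ r ∈ D, x * r * d ≠ 0 := by
    by_contra hcon
    push Not at hcon
    have htop : Submodule.span Ω (Set.range b) = ⊤ := by
      apply hb.span_eq_top_of_card_eq_finrank'
      simp [Module.finrank_matrix]
    have hall : ∀ m : M5 Ω, x * m * d = 0 := by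
      intro m
      have hm : m ∈ Submodule.span Ω (Set.range b) := by rw [htop]; trivial
      induction hm using Submodule.span_induction with
      | mem z hz =>
        obtain ⟨i, rfl⟩ := hz
        exact hcon _ (hbD i)
      | zero => simp
      | add u v _ _ hu hv => rw [mul_add, add_mul, hu, hv, add_zero]
      | smul c u _ hu => rw [mul_smul_comm, smul_mul_assoc, hu, smul_zero]
    have hentry : ∀ k i j l : Fin 5, x k i * d j l = 0 := by
      intro k i j l
      have h1 := congrFun (congrFun (hall (Matrix.single i j 1)) k) l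
      simpa [Matrix.mul_apply, Matrix.single_apply, Finset.sum_ite_eq, ite_and] using h1
    obtain ⟨k, i, hki⟩ : ∃ k i, x k i ≠ 0 := by
      by_contra h1
      push Not at h1
      exact hx0 (by ext k i; exact h1 k i)
    obtain ⟨j, l, hjl⟩ : ∃ j l, d j l ≠ 0 := by
      by_contra h1
      push Not at h1
      exact hd0 (by ext j l; exact h1 j l)
    exact mul_ne_zero hki hjl (hentry k i j l)
  refine ⟨x * r * d, D.mul_mem (D.mul_mem hx hr) hd, hxrd, ?_⟩
  calc x * r * d * (x * r * d) = x * r * (d * x) * r * d := by simp only [mul_assoc]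
    _ = 0 := by rw [hdx]; simp

end Pool.Agent.Helper58.CY
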