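import Pool.Agent.Helper58.CY.Defs2

/-! CY5 F1 (MP_5d2531_al, project CY5, paper /team-store/CY5_paper.md): EP: membership, conjugation and the entry formula for diagonal θ (linear in P: EP P = sum over the support; prove the entry formula for each monomial: aeval of P at v is sum over support of coeff * prod v^m; MvPolynomial.aeval_def, eval₂_eq) -/

namespace Pool.Agent.Helper58.CY

open Matrix Finset

namespace F1aux

/-- conjugation as a ring homomorphism -/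
def cj {Ω : Type*} [CommRing Ω] (S S' : M5 Ω) (h : S * S' = 1) : M5 Ω →+* M5 Ω where
  toFun x := S' * x * S
  map_one' := by rw [mul_one, mul_eq_one_comm.mp h]
  map_mul' x y := by
    calc S' * (x * y) * S = S' * x * 1 * y * S := by simp only [mul_one, mul_assoc]
      _ = S' * x * (S * S') * y * S := by rw [h]
      _ = S' * x * S * (S' * y * S) := by simp only [mul_assoc]
  map_zero' := by simp
  map_add' x y := by rw [mul_add, add_mul]

theorem rev4 {Ω : Type*} [CommRing Ω] (f : Fin 5 → Fin 5 → Fin 5 → Fin 5 → Ω) :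
    ∑ p4, ∑ p3, ∑ p2, ∑ p1, f p1 p2 p3 p4 = ∑ p1, ∑ p2, ∑ p3, ∑ p4, f p1 p2 p3 p4 := by
  have h3 : ∀ g : Fin 5 → Fin 5 → Fin 5 → Ω,
      ∑ p3, ∑ p2, ∑ p1, g p1 p2 p3 = ∑ p1, ∑ p2, ∑ p3, g p1 p2 p3 := by
    intro g
    have h1 : ∑ p3, ∑ p2, ∑ p1, g p1 p2 p3 = ∑ p3, ∑ p1, ∑ p2, g p1 p2 p3 :=
      Finset.sum_congr rfl fun p3 _ => Finset.sum_comm
    rw [h1, Finset.sum_comm]
    exact Finset.sum_congr rfl fun p1 _ => Finset.sum_comm
  rw [Finset.sum_congr rfl fun p4 _ => h3 (fun p1 p2 p3 => f p1 p2 p3 p4), Finset.sum_comm]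
  refine Finset.sum_congr rfl fun p1 _ => ?_
  rw [Finset.sum_comm]
  exact Finset.sum_congr rfl fun p2 _ => Finset.sum_comm

theorem out4 {Ω ι : Type*} [CommRing Ω] (s : Finset ι)
    (f : ι → Fin 5 → Fin 5 → Fin 5 → Fin 5 → Ω) :
    ∑ m ∈ s, ∑ p1, ∑ p2, ∑ p3, ∑ p4, f m p1 p2 p3 p4 =
      ∑ p1, ∑ p2, ∑ p3, ∑ p4, ∑ m ∈ s, f m p1 p2 p3 p4 := by
  rw [Finset.sum_comm]
  refine Finset.sum_congr rfl fun p1 _ => ?_
  rw [Finset.sum_comm]
  refine Finset.sum_congr rfl fun p2 _ => ?_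
  rw [Finset.sum_comm]
  exact Finset.sum_congr rfl fun p3 _ => Finset.sum_comm

end F1aux

open F1aux

theorem F1a {K : Type*} {Ω : Type*} [Field K] [Field Ω] [Algebra K Ω] (G : Subalgebra K (M5 Ω))
    (P : MvPolynomial (Fin 6) ℤ) (θ : M5 Ω) (hθ : θ ∈ G) (y : Fin 5 → M5 Ω) (hy : ∀ k, y k ∈ G) :
    EP P θ y ∈ G := by
  unfold EP
  refine Subalgebra.sum_mem G fun m _ => ?_
  apply zsmul_mem
  have hp : ∀ k : ℕ, θ ^ k ∈ G := fun k => pow_mem hθ k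
  exact mul_mem (mul_mem (mul_mem (mul_mem (mul_mem (mul_mem (mul_mem (mul_mem (mul_mem (mul_mem
    (hp _) (hy 0)) (hp _)) (hy 1)) (hp _)) (hy 2)) (hp _)) (hy 3)) (hp _)) (hy 4)) (hp _)

theorem F1b {Ω : Type*} [CommRing Ω] (P : MvPolynomial (Fin 6) ℤ) (θ : M5 Ω) (y : Fin 5 → M5 Ω)
    (S S' : M5 Ω) (h : S * S' = 1) :
    S' * EP P θ y * S = EP P (S' * θ * S) (fun k => S' * y k * S) := by
  change cj S S' h (EP P θ y) = EP P (cj S S' h θ) (fun k => cj S S' h (y k))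
  unfold EP
  rw [map_sum]
  refine Finset.sum_congr rfl fun m _ => ?_
  rw [map_zsmul]
  simp only [map_mul, map_pow]

theorem F1c {Ω : Type*} [CommRing Ω] (P : MvPolynomial (Fin 6) ℤ) (a : Fin 5 → Ω) (y : Fin 5 → M5 Ω)
    (i j : Fin 5) :
    EP P (Matrix.diagonal a) y i j = ∑ p1 : Fin 5, ∑ p2 : Fin 5, ∑ p3 : Fin 5, ∑ p4 : Fin 5,
      MvPolynomial.aeval (![a i, a p1, a p2, a p3, a p4, a j] : Fin 6 → Ω) P *
        (y 0 i p1 * y 1 p1 p2 * y 2 p2 p3 * y 3 p3 p4 * y 4 p4 j) := by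
  have key : ∀ m : Fin 6 →₀ ℕ, (diagonal a ^ m 0 * y 0 * diagonal a ^ m 1 * y 1 *
      diagonal a ^ m 2 * y 2 * diagonal a ^ m 3 * y 3 * diagonal a ^ m 4 * y 4 *
      diagonal a ^ m 5) i j =
      ∑ p1 : Fin 5, ∑ p2 : Fin 5, ∑ p3 : Fin 5, ∑ p4 : Fin 5,
        (a i ^ m 0 * a p1 ^ m 1 * a p2 ^ m 2 * a p3 ^ m 3 * a p4 ^ m 4 * a j ^ m 5) *
        (y 0 i p1 * y 1 p1 p2 * y 2 p2 p3 * y 3 p3 p4 * y 4 p4 j) := by
    intro m
    rw [← rev4]
    simp only [Matrix.diagonal_pow, Matrix.mul_diagonal]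
    rw [Matrix.mul_apply, Finset.sum_mul]
    refine Finset.sum_congr rfl fun p4 _ => ?_
    rw [Matrix.mul_diagonal, Matrix.mul_apply, Finset.sum_mul, Finset.sum_mul, Finset.sum_mul]
    refine Finset.sum_congr rfl fun p3 _ => ?_
    rw [Matrix.mul_diagonal, Matrix.mul_apply, Finset.sum_mul, Finset.sum_mul, Finset.sum_mul,
      Finset.sum_mul, Finset.sum_mul]
    refine Finset.sum_congr rfl fun p2 _ => ?_
    rw [Matrix.mul_diagonal, Matrix.mul_apply, Finset.sum_mul, Finset.sum_mul, Finset.sum_mul,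
      Finset.sum_mul, Finset.sum_mul, Finset.sum_mul, Finset.sum_mul]
    refine Finset.sum_congr rfl fun p1 _ => ?_
    rw [Matrix.mul_diagonal, Matrix.diagonal_mul]
    simp only [Pi.pow_apply]
    ring
  have hev : ∀ v : Fin 6 → Ω, MvPolynomial.aeval v P =
      ∑ m ∈ P.support, ((P.coeff m : ℤ) : Ω) *
        (v 0 ^ m 0 * v 1 ^ m 1 * v 2 ^ m 2 * v 3 ^ m 3 * v 4 ^ m 4 * v 5 ^ m 5) := by
    intro v
    rw [MvPolynomial.aeval_def, MvPolynomial.eval₂_eq']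
    refine Finset.sum_congr rfl fun m _ => ?_
    rw [Fin.prod_univ_six]
    simp
  unfold EP
  rw [Matrix.sum_apply]
  have h1 : ∀ m ∈ P.support, (P.coeff m • (diagonal a ^ m 0 * y 0 * diagonal a ^ m 1 * y 1 *
      diagonal a ^ m 2 * y 2 * diagonal a ^ m 3 * y 3 * diagonal a ^ m 4 * y 4 *
      diagonal a ^ m 5)) i j = ∑ p1 : Fin 5, ∑ p2 : Fin 5, ∑ p3 : Fin 5, ∑ p4 : Fin 5,
        ((P.coeff m : ℤ) : Ω) *
        (a i ^ m 0 * a p1 ^ m 1 * a p2 ^ m 2 * a p3 ^ m 3 * a p4 ^ m 4 * a j ^ m 5) *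
        (y 0 i p1 * y 1 p1 p2 * y 2 p2 p3 * y 3 p3 p4 * y 4 p4 j) := by
    intro m _
    rw [Matrix.smul_apply, key, zsmul_eq_mul]
    simp only [Finset.mul_sum, mul_assoc]
  rw [Finset.sum_congr rfl h1, out4]
  refine Finset.sum_congr rfl fun p1 _ => Finset.sum_congr rfl fun p2 _ =>
    Finset.sum_congr rfl fun p3 _ => Finset.sum_congr rfl fun p4 _ => ?_
  rw [hev, Finset.sum_mul]
  rfl

end Pool.Agent.Helper58.CY
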