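import Pool.Agent.Helper58.CY.F1

/-! CY5 F2 (MP_5d2531_al, project CY5, paper /team-store/CY5_paper.md): Formanek central polynomial (paper (9)). Entry (i,j) of the sum: by F1c the product of differences vanishes unless p1..p4 are distinct and different from i and from j, so i = j (5 indices) and the value is dsc a (Matrix.det_vandermonde). Then reindex: (k, injective path starting at i) ↔ σ with σ k = i, σ (m+k) = p_m; sum over k of sums over {σ | σ k = i} = sum over all σ. -/

namespace Pool.Agent.Helper58.CY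

open Matrix Finset

variable {Ω : Type*} [CommRing Ω]

/-- the discriminant is invariant under permutations -/
lemma F2_dsc_perm (a : Fin 5 → Ω) (σ : Equiv.Perm (Fin 5)) : dsc (a ∘ σ) = dsc a := by
  unfold dsc
  have h : Matrix.vandermonde (a ∘ σ) = (Matrix.vandermonde a).submatrix σ id := by
    ext i j
    simp [Matrix.vandermonde_apply]
  rw [h, Matrix.det_permute, mul_pow]
  have : ((Equiv.Perm.sign σ : ℤ) : Ω) ^ 2 = 1 := by
    rcases Int.units_eq_one_or (Equiv.Perm.sign σ) with h | h <;> simp [h]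
  rw [this, one_mul]

lemma F2_dsc_formula (x : Fin 5 → Ω) : dsc x =
    (x 0 - x 1) * (x 0 - x 2) * (x 0 - x 3) * (x 0 - x 4) * (x 0 - x 1) * (x 0 - x 2) *
    (x 0 - x 3) * (x 0 - x 4) * ((x 1 - x 2) * (x 1 - x 3) * (x 1 - x 4) * (x 2 - x 3) *
    (x 2 - x 4) * (x 3 - x 4)) ^ 2 := by
  unfold dsc
  rw [Matrix.det_vandermonde]
  have h0 : (Finset.Ioi (0 : Fin 5)) = {1, 2, 3, 4} := by decide
  have h1 : (Finset.Ioi (1 : Fin 5)) = {2, 3, 4} := by decide
  have h2 : (Finset.Ioi (2 : Fin 5)) = {3, 4} := by decide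
  have h3 : (Finset.Ioi (3 : Fin 5)) = {4} := by decide
  have h4 : (Finset.Ioi (4 : Fin 5)) = ∅ := by decide
  rw [Fin.prod_univ_five, h0, h1, h2, h3, h4]
  simp only [Finset.prod_empty, Finset.prod_singleton, mul_one]
  rw [Finset.prod_insert (by decide), Finset.prod_insert (by decide), Finset.prod_insert (by decide),
    Finset.prod_singleton, Finset.prod_insert (by decide), Finset.prod_insert (by decide),
    Finset.prod_singleton, Finset.prod_insert (by decide), Finset.prod_singleton]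
  rw [← neg_sub (x 0) (x 1), ← neg_sub (x 0) (x 2), ← neg_sub (x 0) (x 3), ← neg_sub (x 0) (x 4),
    ← neg_sub (x 1) (x 2), ← neg_sub (x 1) (x 3), ← neg_sub (x 1) (x 4),
    ← neg_sub (x 2) (x 3), ← neg_sub (x 2) (x 4), ← neg_sub (x 3) (x 4)]
  generalize x 0 - x 1 = d01
  generalize x 0 - x 2 = d02
  generalize x 0 - x 3 = d03
  generalize x 0 - x 4 = d04
  generalize x 1 - x 2 = d12
  generalize x 1 - x 3 = d13
  generalize x 1 - x 4 = d14
  generalize x 2 - x 3 = d23
  generalize x 2 - x 4 = d24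
  generalize x 3 - x 4 = d34
  ring

lemma F2_fmk (x0 x1 x2 x3 x4 x5 : Ω) :
    MvPolynomial.aeval (![x0, x1, x2, x3, x4, x5] : Fin 6 → Ω) fmk =
    (x0 - x1) * (x0 - x2) * (x0 - x3) * (x0 - x4) * (x5 - x1) * (x5 - x2) *
    (x5 - x3) * (x5 - x4) * ((x1 - x2) * (x1 - x3) * (x1 - x4) * (x2 - x3) *
    (x2 - x4) * (x3 - x4)) ^ 2 := by
  simp only [fmk, map_mul, map_sub, map_pow, MvPolynomial.aeval_X]
  simp [Matrix.cons_val]

/-- value of Formanek's polynomial at entries -/
lemma F2_val (a : Fin 5 → Ω) (i j p1 p2 p3 p4 : Fin 5) :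
    MvPolynomial.aeval (![a i, a p1, a p2, a p3, a p4, a j] : Fin 6 → Ω) fmk =
      if i = j ∧ Function.Injective (![i, p1, p2, p3, p4] : Fin 5 → Fin 5) then dsc a else 0 := by
  rw [F2_fmk]
  by_cases hinj : Function.Injective (![i, p1, p2, p3, p4] : Fin 5 → Fin 5)
  · by_cases hij : i = j
    · subst hij
      rw [if_pos ⟨rfl, hinj⟩]
      have hb : Function.Bijective (![i, p1, p2, p3, p4] : Fin 5 → Fin 5) :=
        Finite.injective_iff_bijective.mp hinj
      rw [← F2_dsc_perm a (Equiv.ofBijective _ hb), F2_dsc_formula]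
      simp [Matrix.cons_val]
    · rw [if_neg (fun h => hij h.1)]
      have hs : Function.Surjective (![i, p1, p2, p3, p4] : Fin 5 → Fin 5) :=
        Finite.injective_iff_surjective.mp hinj
      obtain ⟨m, hm⟩ := hs j
      fin_cases m
      · exact absurd hm hij
      all_goals
        simp [Matrix.cons_val] at hm
        subst hm
        simp only [sub_self, mul_zero, zero_mul]
  · rw [if_neg (fun h => hinj h.2)]
    have : i = p1 ∨ i = p2 ∨ i = p3 ∨ i = p4 ∨ p1 = p2 ∨ p1 = p3 ∨ p1 = p4 ∨ p2 = p3 ∨ p2 = p4 ∨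
        p3 = p4 := by
      by_contra hcon
      push Not at hcon
      obtain ⟨c1, c2, c3, c4, c5, c6, c7, c8, c9, c10⟩ := hcon
      apply hinj
      intro m n hmn
      fin_cases m <;> fin_cases n <;> simp_all [Matrix.cons_val]
    rcases this with h | h | h | h | h | h | h | h | h | h <;> subst h <;>
      simp only [sub_self, mul_zero, zero_mul, ne_eq, OfNat.ofNat_ne_zero, not_false_eq_true,
        zero_pow]

/-- sums over five indices are sums over functions -/
lemma F2_sum_fun (h : (Fin 5 → Fin 5) → Ω) :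
    ∑ f : Fin 5 → Fin 5, h f = ∑ p0, ∑ p1, ∑ p2, ∑ p3, ∑ p4, h ![p0, p1, p2, p3, p4] := by
  let e : (Fin 5 × Fin 5 × Fin 5 × Fin 5 × Fin 5) ≃ (Fin 5 → Fin 5) :=
    { toFun := fun p => ![p.1, p.2.1, p.2.2.1, p.2.2.2.1, p.2.2.2.2]
      invFun := fun f => (f 0, f 1, f 2, f 3, f 4)
      left_inv := by
        rintro ⟨p0, p1, p2, p3, p4⟩
        simp [Matrix.cons_val]
      right_inv := by
        intro f
        ext m
        fin_cases m <;> simp [Matrix.cons_val] }
  rw [← Equiv.sum_comp e]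
  simp only [Fintype.sum_prod_type]
  rfl

lemma F2_sum_inj (h : (Fin 5 → Fin 5) → Ω) :
    ∑ f : Fin 5 → Fin 5, (if Function.Injective f then h f else 0) =
      ∑ σ : Equiv.Perm (Fin 5), h σ := by
  classical
  rw [← Finset.sum_filter]
  refine Finset.sum_bij (fun f hf => Equiv.ofBijective f
    (Finite.injective_iff_bijective.mp (Finset.mem_filter.mp hf).2)) ?_ ?_ ?_ ?_
  · intro f hf
    exact Finset.mem_univ _
  · intro f hf g hg hfg
    have := congrArg (fun σ : Equiv.Perm (Fin 5) => (σ : Fin 5 → Fin 5)) hfg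
    simpa using this
  · intro σ _
    refine ⟨σ, Finset.mem_filter.mpr ⟨Finset.mem_univ _, σ.injective⟩, ?_⟩
    ext m
    simp
  · intro f hf
    simp

lemma F2_key (D : Ω) (y : Fin 5 → M5 Ω) (i k : Fin 5) :
    (∑ p1 : Fin 5, ∑ p2 : Fin 5, ∑ p3 : Fin 5, ∑ p4 : Fin 5,
        (if i = i ∧ Function.Injective (![i, p1, p2, p3, p4] : Fin 5 → Fin 5) then D else 0) *
        (y (0 + k) i p1 * y (1 + k) p1 p2 * y (2 + k) p2 p3 * y (3 + k) p3 p4 * y (4 + k) p4 i)) =
        ∑ σ : Equiv.Perm (Fin 5), (if σ k = i then D * ∏ m, y m (σ m) (σ (m + 1)) else 0) := by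
  classical
  let G : (Fin 5 → Fin 5) → Ω := fun f => if f 0 = i then
    D * (y (0 + k) (f 0) (f 1) * y (1 + k) (f 1) (f 2) * y (2 + k) (f 2) (f 3) *
      y (3 + k) (f 3) (f 4) * y (4 + k) (f 4) (f 0)) else 0
  have h1 : (∑ p1 : Fin 5, ∑ p2 : Fin 5, ∑ p3 : Fin 5, ∑ p4 : Fin 5,
        (if i = i ∧ Function.Injective (![i, p1, p2, p3, p4] : Fin 5 → Fin 5) then D else 0) *
        (y (0 + k) i p1 * y (1 + k) p1 p2 * y (2 + k) p2 p3 * y (3 + k) p3 p4 * y (4 + k) p4 i)) =
        ∑ f : Fin 5 → Fin 5, (if Function.Injective f then G f else 0) := by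
    symm
    rw [F2_sum_fun, Finset.sum_eq_single i]
    · refine Finset.sum_congr rfl fun p1 _ => Finset.sum_congr rfl fun p2 _ =>
        Finset.sum_congr rfl fun p3 _ => Finset.sum_congr rfl fun p4 _ => ?_
      by_cases hinj : Function.Injective (![i, p1, p2, p3, p4] : Fin 5 → Fin 5)
      · rw [if_pos hinj, if_pos ⟨rfl, hinj⟩]
        simp [G, Matrix.cons_val]
      · rw [if_neg hinj, if_neg (fun h => hinj h.2), zero_mul]
    · intro p0 _ hp0
      refine Finset.sum_eq_zero fun p1 _ => Finset.sum_eq_zero fun p2 _ =>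
        Finset.sum_eq_zero fun p3 _ => Finset.sum_eq_zero fun p4 _ => ?_
      have hG : G ![p0, p1, p2, p3, p4] = 0 := by
        simp only [G]
        rw [if_neg]
        simpa using hp0
      rw [hG]
      simp
    · intro h
      exact absurd (Finset.mem_univ i) h
  rw [h1, F2_sum_inj, ← Equiv.sum_comp (Equiv.mulRight (Equiv.addRight k))]
  refine Finset.sum_congr rfl fun σ _ => ?_
  have h2 : ∀ m : Fin 5, (Equiv.mulRight (Equiv.addRight k) σ) m = σ (m + k) := by
    intro m
    simp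
  simp only [G, h2, zero_add]
  congr 2
  rw [← Equiv.prod_comp (Equiv.addRight k) (fun m => y m (σ m) (σ (m + 1))), Fin.prod_univ_five]
  simp only [Equiv.coe_addRight, zero_add]
  have e1 : (1 : Fin 5) + k + 1 = 2 + k := by fin_cases k <;> decide
  have e2 : (2 : Fin 5) + k + 1 = 3 + k := by fin_cases k <;> decide
  have e3 : (3 : Fin 5) + k + 1 = 4 + k := by fin_cases k <;> decide
  have e4 : (4 : Fin 5) + k + 1 = k := by fin_cases k <;> decide
  have e0 : k + 1 = 1 + k := by fin_cases k <;> decide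
  rw [e1, e2, e3, e4, e0]

theorem F2 (a : Fin 5 → Ω) (y : Fin 5 → M5 Ω) :
    ∑ k : Fin 5, EP fmk (Matrix.diagonal a) (fun i => y (i + k)) = (dsc a * tau y) • (1 : M5 Ω) := by
  classical
  ext i j
  rw [Matrix.sum_apply]
  simp only [F1c, F2_val]
  rw [Matrix.smul_apply, Matrix.one_apply]
  by_cases hij : i = j
  · subst hij
    rw [if_pos rfl, smul_eq_mul, mul_one]
    rw [Finset.sum_congr rfl (fun k _ => F2_key (dsc a) y i k)]
    rw [Finset.sum_comm]
    unfold tau
    rw [Finset.mul_sum]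
    refine Finset.sum_congr rfl fun σ _ => ?_
    have : ∀ k : Fin 5, (σ k = i) = (k = σ.symm i) := by
      intro k
      exact propext (Equiv.eq_symm_apply σ).symm
    simp only [this]
    rw [Finset.sum_ite_eq']
    simp
  · rw [if_neg hij]
    simp [hij]

end Pool.Agent.Helper58.CY
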