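import Pool.Agent.Helper58.CY.Defs2

/-! CY5 F3 (MP_5d2531_al, project CY5, paper /team-store/CY5_paper.md): separation: x i j ≠ 0, u = E_(0,i), v = E_(j,1), y1..y4 = E_12, E_23, E_34, E_40: tau = x i j (only σ = id contributes) -/

namespace Pool.Agent.Helper58.CY

open Matrix Finset

variable {Ω : Type*} [Field Ω]

theorem F3 (x : M5 Ω) (hx : x ≠ 0) :
    ∃ (u v : M5 Ω) (y : Fin 5 → M5 Ω), tau (fun k => if k = 0 then u * x * v else y k) ≠ 0 := by
  have h : ∃ i j, x i j ≠ 0 := by
    by_contra hcon
    push Not at hcon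
    exact hx (Matrix.ext hcon)
  obtain ⟨i, j, hij⟩ := h
  refine ⟨Matrix.single 0 i 1, Matrix.single j 1 1, fun k => Matrix.single k (k + 1) 1, ?_⟩
  have h1 : Matrix.single (0 : Fin 5) i (1 : Ω) * x * Matrix.single j (1 : Fin 5) (1 : Ω) =
      Matrix.single 0 1 (x i j) := by
    ext a b
    rw [Matrix.mul_apply]
    simp only [Matrix.single_apply, Matrix.mul_apply]
    by_cases ha : 0 = a <;> by_cases hb : 1 = b <;> simp [ha, hb, Finset.sum_ite_eq]
  have h2 : tau (fun k : Fin 5 => if k = 0 then Matrix.single (0 : Fin 5) i (1 : Ω) * x *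
      Matrix.single j (1 : Fin 5) (1 : Ω) else Matrix.single k (k + 1) (1 : Ω)) = x i j := by
    unfold tau
    rw [h1, Finset.sum_eq_single (1 : Equiv.Perm (Fin 5))]
    · rw [Fin.prod_univ_succ]
      have h3 : ∀ k : Fin 4, (if k.succ = (0 : Fin 5) then Matrix.single (0 : Fin 5) (1 : Fin 5) (x i j)
          else Matrix.single k.succ (k.succ + 1) (1 : Ω)) ((1 : Equiv.Perm (Fin 5)) k.succ)
          ((1 : Equiv.Perm (Fin 5)) (k.succ + 1)) = 1 := by
        intro k
        rw [if_neg (Fin.succ_ne_zero k), Equiv.Perm.one_apply, Equiv.Perm.one_apply,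
          Matrix.single_apply_same]
      rw [Finset.prod_congr rfl fun k _ => h3 k, Finset.prod_const_one, mul_one]
      exact Matrix.single_apply_same 0 1 _
    · intro σ _ hσ
      have h4 : ∃ k, σ k ≠ k := by
        by_contra hcon
        push Not at hcon
        exact hσ (Equiv.ext hcon)
      obtain ⟨k, hk⟩ := h4
      refine Finset.prod_eq_zero (Finset.mem_univ k) ?_
      show (if k = 0 then Matrix.single (0 : Fin 5) (1 : Fin 5) (x i j)
          else Matrix.single k (k + 1) (1 : Ω)) (σ k) (σ (k + 1)) = 0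
      by_cases hk0 : k = 0
      · subst hk0
        rw [if_pos rfl, Matrix.single_apply, if_neg fun h => hk h.1.symm]
      · rw [if_neg hk0, Matrix.single_apply, if_neg fun h => hk h.1.symm]
    · intro h
      exact absurd (Finset.mem_univ _) h
  rw [h2]
  exact hij

end Pool.Agent.Helper58.CY
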