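import Pool.Agent.Helper58.CY.Defs2

/-! CY5 F4 (MP_5d2531_al, project CY5, paper /team-store/CY5_paper.md): form criterion: span_Ω D = everything and a separating family of Ω-linear functionals mapping D into F. Proof: choose an Ω-basis b_i of M_5 (25 elements) inside D (Submodule/Basis.extract from spanning set) and 25 functionals λ_j from Λ forming a basis of the dual; A = (λ_j(b_i)) is invertible with entries in F; for d = sum c_i b_i, A c ∈ F^25, so c ∈ F^25. -/

namespace Pool.Agent.Helper58.CY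

open Matrix Finset

theorem F4_finrank (Ω : Type*) [Field Ω] : Module.finrank Ω (M5 Ω) = 25 := by
  rw [Module.finrank_matrix]
  simp

/-- a spanning set contains a basis indexed by `Fin 25` -/
theorem F4_basis {Ω : Type*} [Field Ω] {V : Type*} [AddCommGroup V] [Module Ω V]
    [Module.Finite Ω V] (hV : Module.finrank Ω V = 25) (s : Set V)
    (hs : Submodule.span Ω s = ⊤) : ∃ b : Module.Basis (Fin 25) Ω V, ∀ i, b i ∈ s := by
  have h := Module.Basis.ofSpan_subset (K := Ω) (V := V) (s := s) hs.ge
  let b0 := Module.Basis.ofSpan (K := Ω) (V := V) (s := s) hs.ge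
  haveI : Finite _ := Module.Finite.finite_basis b0
  haveI := Fintype.ofFinite ((linearIndepOn_empty Ω id).extend (Set.empty_subset s))
  have hc := Module.finrank_eq_card_basis b0
  have e : ((linearIndepOn_empty Ω id).extend (Set.empty_subset s)) ≃ Fin 25 :=
    Fintype.equivFinOfCardEq (by rw [← hc, hV])
  refine ⟨b0.reindex e, fun i => ?_⟩
  rw [Module.Basis.reindex_apply]
  exact h ⟨_, rfl⟩

theorem F4 {F : Type*} {Ω : Type*} [Field F] [Field Ω] [Algebra F Ω] (D : Subalgebra F (M5 Ω))
    (hs : Submodule.span Ω (D : Set (M5 Ω)) = ⊤) (Λ : Set (M5 Ω →ₗ[Ω] Ω))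
    (hΛ : ∀ f ∈ Λ, ∀ d ∈ D, ∃ c : F, f d = algebraMap F Ω c)
    (hsep : ∀ x : M5 Ω, (∀ f ∈ Λ, f x = 0) → x = 0) : IsForm D := by
  classical
  obtain ⟨b, hb⟩ := F4_basis (F4_finrank Ω) _ hs
  have hΛs : Submodule.span Ω Λ = (⊤ : Submodule Ω (Module.Dual Ω (M5 Ω))) := by
    have h1 : (Submodule.span Ω Λ : Submodule Ω (Module.Dual Ω (M5 Ω))).dualCoannihilator = ⊥ := by
      rw [Submodule.eq_bot_iff]
      intro x hx
      apply hsep x
      intro f hf
      exact (Submodule.mem_dualCoannihilator x).mp hx f (Submodule.subset_span hf)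
    have h2 := Subspace.dualCoannihilator_dualAnnihilator_eq
      (W := (Submodule.span Ω Λ : Submodule Ω (Module.Dual Ω (M5 Ω))))
    rw [h1, Submodule.dualAnnihilator_bot] at h2
    exact h2.symm
  obtain ⟨l, hl⟩ := F4_basis (V := Module.Dual Ω (M5 Ω))
    (by rw [Subspace.dual_finrank_eq, F4_finrank]) Λ hΛs
  have hz : ∀ x : M5 Ω, (∀ j, l j x = 0) → x = 0 := by
    intro x hx
    apply hsep
    intro f _
    have hf : ∑ i, l.repr f i • l i = f := l.sum_repr f
    have hf2 := LinearMap.congr_fun hf x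
    rw [← hf2, LinearMap.sum_apply]
    refine Finset.sum_eq_zero fun i _ => ?_
    rw [LinearMap.smul_apply, hx i, smul_zero]
  choose A hA using fun (j i : Fin 25) => hΛ (l j) (hl j) (b i) (hb i)
  have hdet : (Matrix.of A).det ≠ 0 := by
    intro h0
    have h1 : ((Matrix.of A).map (algebraMap F Ω)).det = 0 := by
      rw [← RingHom.mapMatrix_apply, ← RingHom.map_det, h0, map_zero]
    obtain ⟨v, hv0, hv⟩ := Matrix.exists_mulVec_eq_zero_iff.mpr h1
    apply hv0
    have h2 : ∑ i, v i • b i = 0 := by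
      apply hz
      intro j
      have h3 := congrFun hv j
      simp only [Matrix.mulVec, dotProduct, Matrix.map_apply, Matrix.of_apply, Pi.zero_apply] at h3
      rw [map_sum, ← h3]
      refine Finset.sum_congr rfl fun i _ => ?_
      rw [map_smul, hA j i, smul_eq_mul, mul_comm]
    have h4 := Fintype.linearIndependent_iff.mp b.linearIndependent v h2
    funext i
    exact h4 i
  refine ⟨b, hb, b.linearIndependent, fun d hd => ?_⟩
  choose y hy using fun j : Fin 25 => hΛ (l j) (hl j) d hd
  refine ⟨((Matrix.of A)⁻¹).mulVec y, ?_⟩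
  have hmul : (Matrix.of A).mulVec (((Matrix.of A)⁻¹).mulVec y) = y := by
    rw [Matrix.mulVec_mulVec, Matrix.mul_nonsing_inv _ (isUnit_iff_ne_zero.mpr hdet),
      Matrix.one_mulVec]
  generalize ((Matrix.of A)⁻¹).mulVec y = c at hmul
  apply sub_eq_zero.mp
  apply hz
  intro j
  rw [map_sub, hy j, map_sum, sub_eq_zero, ← congrFun hmul j]
  simp only [Matrix.mulVec, dotProduct, Matrix.of_apply]
  rw [map_sum]
  refine Finset.sum_congr rfl fun i _ => ?_
  rw [map_mul, ← hA j i, ← algebraMap_smul Ω (c i) (b i), map_smul, smul_eq_mul, mul_comm]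

end Pool.Agent.Helper58.CY
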