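import Pool.Agent.Helper58.CY.F3

/-! CY5 F5a (MP_5d2531_al, project CY5, paper /team-store/CY5_paper.md): separation by elements of G: tau is multilinear in its arguments; an Ω-multilinear expression in u, v, y1..y4 (conjugated by S) that vanishes on G vanishes on span_Ω G = everything; contradiction with F3 applied to S' x S (note S'(u x v)S = (S'uS)(S'xS)(S'vS)). Change the arguments one at a time (Submodule.span_induction). -/

namespace Pool.Agent.Helper58.CY

open Matrix Finset

variable {K : Type*} {Ω : Type*} [Field K] [Field Ω] [Algebra K Ω]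

/-- `y ↦ tau (S' y S)` as a multilinear map -/
noncomputable def tauM (S S' : M5 Ω) : MultilinearMap Ω (fun _ : Fin 5 => M5 Ω) Ω :=
  ∑ σ : Equiv.Perm (Fin 5), (MultilinearMap.mkPiAlgebra Ω (Fin 5) Ω).compLinearMap
    (fun k => (Matrix.entryLinearMap Ω Ω (σ k) (σ (k + 1))).comp
      ((LinearMap.mulRight Ω S).comp (LinearMap.mulLeft Ω S')))

theorem tauM_apply (S S' : M5 Ω) (y : Fin 5 → M5 Ω) :
    tauM S S' y = tau (fun k => S' * y k * S) := by
  unfold tauM tau
  rw [_root_.sum_apply]
  rfl

theorem multilinear_eq_zero_of_span {M : Type*} [AddCommGroup M] [Module Ω M]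
    (f : MultilinearMap Ω (fun _ : Fin 5 => M) Ω) (s : Fin 5 → Set M)
    (h : ∀ y : Fin 5 → M, (∀ k, y k ∈ s k) → f y = 0) (A : Finset (Fin 5)) :
    ∀ y : Fin 5 → M, (∀ k ∈ A, y k ∈ Submodule.span Ω (s k)) → (∀ k, k ∉ A → y k ∈ s k) →
      f y = 0 := by
  induction A using Finset.induction_on with
  | empty => exact fun y _ h2 => h y (fun k => h2 k (by simp))
  | insert a A ha ih =>
    intro y h1 h2
    have key : ∀ z ∈ Submodule.span Ω (s a), f (Function.update y a z) = 0 := by
      intro z hz
      induction hz using Submodule.span_induction with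
      | mem z hz =>
        apply ih
        · intro k hk
          have hka : k ≠ a := fun e => ha (e ▸ hk)
          rw [Function.update_of_ne hka]
          exact h1 k (Finset.mem_insert_of_mem hk)
        · intro k hk
          by_cases hka : k = a
          · subst hka
            simpa using hz
          · rw [Function.update_of_ne hka]
            exact h2 k (by simp [hka, hk])
      | zero => exact f.map_update_zero y a
      | add z w _ _ hz hw => rw [f.map_update_add, hz, hw, add_zero]
      | smul c z _ hz => rw [f.map_update_smul, hz, smul_zero]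
    have := key (y a) (h1 a (Finset.mem_insert_self a A))
    rwa [Function.update_eq_self] at this

theorem F5a (G : Subalgebra K (M5 Ω)) (hG : Submodule.span Ω (G : Set (M5 Ω)) = ⊤) (S S' : M5 Ω)
    (h : S * S' = 1) (x : M5 Ω) (hx : x ≠ 0) :
    ∃ u ∈ G, ∃ v ∈ G, ∃ y : Fin 5 → M5 Ω, (∀ k, y k ∈ G) ∧
      tau (fun k => S' * (if k = 0 then u * x * v else y k) * S) ≠ 0 := by
  by_contra hcon
  push Not at hcon
  have h' : S' * S = 1 := mul_eq_one_comm.mp h
  have hx' : S' * x * S ≠ 0 := by
    intro h0
    apply hx
    calc x = (S * S') * x * (S * S') := by rw [h, one_mul, mul_one]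
      _ = S * (S' * x * S) * S' := by simp only [mul_assoc]
      _ = 0 := by rw [h0, mul_zero, zero_mul]
  obtain ⟨u, v, y, huv⟩ := F3 (S' * x * S) hx'
  apply huv
  -- the sets of admissible arguments
  set s : Fin 5 → Set (M5 Ω) := fun k =>
    if k = 0 then {z | ∃ u ∈ G, ∃ v ∈ G, z = u * x * v} else (G : Set (M5 Ω)) with hs
  have hzero : ∀ y : Fin 5 → M5 Ω, (∀ k, y k ∈ s k) → tauM S S' y = 0 := by
    intro y hy
    have h0 : y 0 ∈ s 0 := hy 0
    rw [hs] at h0
    simp only [if_true, Set.mem_ofPred_eq] at h0
    obtain ⟨u, hu, v, hv, huv⟩ := h0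
    have h1 := hcon u hu v hv (fun k => if k = 0 then 1 else y k) (by
      intro k
      by_cases hk : k = 0
      · simp only [hk, if_true]; exact G.one_mem
      · have := hy k
        rw [hs] at this
        simp only [hk, if_false] at this ⊢
        exact this)
    rw [tauM_apply, ← h1]
    congr 1
    funext k
    by_cases hk : k = 0
    · simp only [hk, if_true, huv]
    · simp only [hk, if_false]
  have huxv : ∀ u v : M5 Ω, u * x * v ∈ Submodule.span Ω (s 0) := by
    intro u v
    have hu : u ∈ Submodule.span Ω (G : Set (M5 Ω)) := by rw [hG]; trivial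
    have hv : v ∈ Submodule.span Ω (G : Set (M5 Ω)) := by rw [hG]; trivial
    induction hu using Submodule.span_induction with
    | mem u hu =>
      induction hv using Submodule.span_induction with
      | mem v hv =>
        apply Submodule.subset_span
        rw [hs]
        simp only [if_true, Set.mem_ofPred_eq]
        exact ⟨u, hu, v, hv, rfl⟩
      | zero => rw [mul_zero]; exact Submodule.zero_mem _
      | add v w _ _ hv hw => rw [mul_add]; exact Submodule.add_mem _ hv hw
      | smul c v _ hv => rw [mul_smul_comm]; exact Submodule.smul_mem _ c hv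
    | zero => rw [zero_mul, zero_mul]; exact Submodule.zero_mem _
    | add u w _ _ hu hw => rw [add_mul, add_mul]; exact Submodule.add_mem _ hu hw
    | smul c u _ hu => rw [smul_mul_assoc, smul_mul_assoc]; exact Submodule.smul_mem _ c hu
  have hall := multilinear_eq_zero_of_span (tauM S S') s hzero Finset.univ
    (fun k => if k = 0 then (S * u * S') * x * (S * v * S') else S * y k * S')
    (by
      intro k _
      by_cases hk : k = 0
      · subst hk
        simp only [if_true]
        exact huxv _ _
      · rw [hs]
        simp only [hk, if_false]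
        rw [hG]; trivial)
    (by intro k hk; simp at hk)
  rw [tauM_apply] at hall
  rw [← hall]
  congr 1
  funext k
  by_cases hk : k = 0
  · simp only [hk, if_true]
    calc u * (S' * x * S) * v = 1 * u * (S' * x * S) * v * 1 := by rw [one_mul, mul_one]
      _ = (S' * S) * u * (S' * x * S) * v * (S' * S) := by rw [h']
      _ = S' * (S * u * S' * x * (S * v * S')) * S := by simp only [mul_assoc]
  · simp only [hk, if_false]
    calc y k = 1 * y k * 1 := by rw [one_mul, mul_one]
      _ = (S' * S) * y k * (S' * S) := by rw [h']
      _ = S' * (S * y k * S') * S := by simp only [mul_assoc]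

end Pool.Agent.Helper58.CY
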