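import Pool.Agent.Helper58.CY.F1
import Pool.Agent.Helper58.CY.F2

/-! CY5 F5b (MP_5d2531_al, project CY5, paper /team-store/CY5_paper.md): dsc a * tau(...) ∈ CC G: apply F1a, F1b, F2 (S' (sum of EP) S = (dsc * tau) 1, so the sum itself is (dsc*tau) 1) -/

namespace Pool.Agent.Helper58.CY

open Matrix Finset

variable {K : Type*} {Ω : Type*} [Field K] [Field Ω] [Algebra K Ω]

theorem F5b (G : Subalgebra K (M5 Ω)) (S S' : M5 Ω) (h : S * S' = 1) (a : Fin 5 → Ω) (θ : M5 Ω)
    (hθ : θ ∈ G) (ha : S' * θ * S = Matrix.diagonal a) (y : Fin 5 → M5 Ω) (hy : ∀ k, y k ∈ G) :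
    dsc a * tau (fun k => S' * y k * S) ∈ CC G := by
  rw [mem_CC]
  set c := dsc a * tau (fun k => S' * y k * S) with hc
  have hM : ∑ k : Fin 5, EP fmk θ (fun i => y (i + k)) ∈ G :=
    Subalgebra.sum_mem _ fun k _ => F1a G fmk θ hθ _ fun i => hy _
  have h1 : S' * (∑ k : Fin 5, EP fmk θ (fun i => y (i + k))) * S = c • (1 : M5 Ω) := by
    rw [Finset.mul_sum, Finset.sum_mul, hc, ← F2 a (fun k => S' * y k * S)]
    apply Finset.sum_congr rfl
    intro k _
    rw [F1b fmk θ _ S S' h, ha]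
  have h2 : ∑ k : Fin 5, EP fmk θ (fun i => y (i + k)) = c • (1 : M5 Ω) := by
    calc ∑ k : Fin 5, EP fmk θ (fun i => y (i + k))
        = (S * S') * (∑ k : Fin 5, EP fmk θ (fun i => y (i + k))) * (S * S') := by
          rw [h, one_mul, mul_one]
      _ = S * (S' * (∑ k : Fin 5, EP fmk θ (fun i => y (i + k))) * S) * S' := by
          simp only [mul_assoc]
      _ = c • (1 : M5 Ω) := by
          rw [h1, mul_smul_comm, mul_one, smul_mul_assoc, h]
  rw [← h2]
  exact hM

end Pool.Agent.Helper58.CY
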