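import Pool.Agent.Helper58.CY.Defs2

/-! CY5 F8 (MP_5d2531_al, project CY5, paper /team-store/CY5_paper.md): specialisation of generic matrices. F8a: elements of GG K are values of free polynomials at gen. F8b: specialisation at a (ring hom eval, FreeAlgebra.lift and AlgHom uniqueness). F8c: scalar generic value ⇔ scalar valued (MvPolynomial.funext, K infinite; c lies in the polynomial ring because it is an entry). F8d: nonzero. -/

namespace Pool.Agent.Helper58.CY

open Matrix Finset

variable (K : Type*) [Field K]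

theorem F8a (p : M5 (Om K)) (hp : p ∈ GG K) :
    ∃ P : FreeAlgebra K Idx, FreeAlgebra.lift K (gen K) P = p := by
  unfold GG at hp
  rw [Algebra.adjoin_range_eq_range_freeAlgebra_lift] at hp
  exact hp

theorem F8b (P : FreeAlgebra K Idx) (a : Idx → M5 K) :
    (FreeAlgebra.lift K (genR K) P).map (MvPolynomial.eval (fun q : Idx × Idx => a q.1 q.2.1 q.2.2)) =
      FreeAlgebra.lift K a P := by
  have h : ((MvPolynomial.aeval (fun q : Idx × Idx => a q.1 q.2.1 q.2.2) :
      RR K →ₐ[K] K).mapMatrix.comp (FreeAlgebra.lift K (genR K))) = FreeAlgebra.lift K a := by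
    apply FreeAlgebra.hom_ext
    funext i
    ext x y
    simp only [Function.comp_apply, AlgHom.comp_apply, AlgHom.coe_comp, FreeAlgebra.lift_ι_apply,
      AlgHom.mapMatrix_apply, Matrix.map_apply, genR, Matrix.of_apply, MvPolynomial.aeval_X]
  have h2 := congrArg (fun f : FreeAlgebra K Idx →ₐ[K] M5 K => f P) h
  simp only [AlgHom.comp_apply, AlgHom.mapMatrix_apply] at h2
  rw [← h2]
  ext x y
  simp only [Matrix.map_apply]
  rfl

theorem F8b' (P : FreeAlgebra K Idx) :
    (FreeAlgebra.lift K (genR K) P).map (algebraMap (RR K) (Om K)) = FreeAlgebra.lift K (gen K) P := by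
  have h : ((IsScalarTower.toAlgHom K (RR K) (Om K)).mapMatrix.comp
      (FreeAlgebra.lift K (genR K))) = FreeAlgebra.lift K (gen K) := by
    apply FreeAlgebra.hom_ext
    funext i
    ext x y
    simp only [Function.comp_apply, AlgHom.comp_apply, AlgHom.coe_comp, FreeAlgebra.lift_ι_apply,
      AlgHom.mapMatrix_apply, Matrix.map_apply, gen, IsScalarTower.coe_toAlgHom']
  have h2 := congrArg (fun f : FreeAlgebra K Idx →ₐ[K] M5 (Om K) => f P) h
  simp only [AlgHom.comp_apply, AlgHom.mapMatrix_apply] at h2
  rw [← h2]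
  ext x y
  simp only [Matrix.map_apply, IsScalarTower.coe_toAlgHom']

private theorem f8_inj : Function.Injective (algebraMap (RR K) (Om K)) := by
  rw [IsScalarTower.algebraMap_eq (RR K) (FractionRing (RR K)) (Om K)]
  exact (algebraMap (FractionRing (RR K)) (Om K)).injective.comp
    (IsFractionRing.injective (RR K) (FractionRing (RR K)))

/-- evaluation of an entry at an arbitrary point -/
private theorem f8_entry (P : FreeAlgebra K Idx) (q : Idx × Idx → K) (i j : Fin 5) :
    MvPolynomial.eval q ((FreeAlgebra.lift K (genR K) P) i j) =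
      (FreeAlgebra.lift K (fun k : Idx => (Matrix.of fun x y => q (k, (x, y)) : M5 K)) P) i j := by
  rw [← F8b K P (fun k : Idx => (Matrix.of fun x y => q (k, (x, y)) : M5 K))]
  rfl

theorem F8c [Infinite K] (P : FreeAlgebra K Idx) :
    (∃ c : Om K, FreeAlgebra.lift K (gen K) P = c • (1 : M5 (Om K))) ↔ ScalarValued P := by
  constructor
  · rintro ⟨c, hc⟩ a
    rw [← F8b' K P] at hc
    have hoff : ∀ i j, i ≠ j → (FreeAlgebra.lift K (genR K) P) i j = 0 := by
      intro i j hij
      apply f8_inj K
      have h1 := congrFun (congrFun hc i) j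
      rw [Matrix.map_apply, Matrix.smul_apply, Matrix.one_apply_ne hij, smul_zero] at h1
      rw [h1, map_zero]
    have hdiag : ∀ i, (FreeAlgebra.lift K (genR K) P) i i = (FreeAlgebra.lift K (genR K) P) 0 0 := by
      intro i
      apply f8_inj K
      have h1 := congrFun (congrFun hc i) i
      have h2 := congrFun (congrFun hc 0) 0
      rw [Matrix.map_apply, Matrix.smul_apply, Matrix.one_apply_eq] at h1 h2
      rw [h1, h2]
    refine ⟨MvPolynomial.eval (fun q : Idx × Idx => a q.1 q.2.1 q.2.2)
      ((FreeAlgebra.lift K (genR K) P) 0 0), ?_⟩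
    rw [← F8b K P a]
    ext i j
    rw [Matrix.map_apply, Matrix.smul_apply]
    by_cases hij : i = j
    · subst hij
      rw [hdiag i, Matrix.one_apply_eq, smul_eq_mul, mul_one]
    · rw [hoff i j hij, Matrix.one_apply_ne hij, smul_zero, map_zero]
  · intro hS
    refine ⟨algebraMap (RR K) (Om K) ((FreeAlgebra.lift K (genR K) P) 0 0), ?_⟩
    rw [← F8b' K P]
    ext i j
    rw [Matrix.map_apply, Matrix.smul_apply]
    by_cases hij : i = j
    · subst hij
      rw [Matrix.one_apply_eq, smul_eq_mul, mul_one]
      have h1 : (FreeAlgebra.lift K (genR K) P) i i = (FreeAlgebra.lift K (genR K) P) 0 0 := by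
        apply MvPolynomial.funext
        intro q
        rw [f8_entry K P q i i, f8_entry K P q 0 0]
        obtain ⟨c, hc⟩ := hS (fun k : Idx => (Matrix.of fun x y => q (k, (x, y)) : M5 K))
        rw [hc, Matrix.smul_apply, Matrix.smul_apply, Matrix.one_apply_eq, Matrix.one_apply_eq]
      rw [h1]
    · have h1 : (FreeAlgebra.lift K (genR K) P) i j = 0 := by
        apply MvPolynomial.funext
        intro q
        rw [f8_entry K P q i j]
        obtain ⟨c, hc⟩ := hS (fun k : Idx => (Matrix.of fun x y => q (k, (x, y)) : M5 K))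
        rw [hc, Matrix.smul_apply, Matrix.one_apply_ne hij, smul_zero, map_zero]
      rw [h1, map_zero, Matrix.one_apply_ne hij, smul_zero]

theorem F8d [Infinite K] (P : FreeAlgebra K Idx) (h : FreeAlgebra.lift K (gen K) P ≠ 0) :
    ∃ a : Idx → M5 K, FreeAlgebra.lift K a P ≠ 0 := by
  by_contra hcon
  push Not at hcon
  apply h
  rw [← F8b' K P]
  ext i j
  rw [Matrix.map_apply]
  have h1 : (FreeAlgebra.lift K (genR K) P) i j = 0 := by
    apply MvPolynomial.funext
    intro q
    rw [f8_entry K P q i j, hcon, Matrix.zero_apply, map_zero]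
  rw [h1, map_zero, Matrix.zero_apply]

end Pool.Agent.Helper58.CY
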