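import Pool.Agent.Helper58.CY.TA
import Pool.Agent.Helper58.CY.F5
import Pool.Agent.Helper58.CY.F6
import Pool.Agent.Helper58.CY.F7
import Pool.Agent.Helper58.CY.F8

/-! CY5 F9 (MP_5d2531_al, project CY5, paper /team-store/CY5_paper.md): Theorem B with variables indexed by Idx (paper (10)): TA applied to DD (GG K) (F5, F6, F7; Infinite (FF G), CharP (Om K) 5), then clear the denominator and specialise (F8). For 1 ≤ ν < 5: P^ν and P^5 scalar valued, P^5 ≠ 0 ⇒ generic value p has p^ν, p^5 scalars, p^5 ≠ 0 ⇒ p scalar (choose k with kν = 1 mod 5) ⇒ w scalar. -/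

namespace Pool.Agent.Helper58.CY

open Matrix Finset

variable (K : Type*) [Field K]

theorem F9 [Infinite K] [CharP K 5] :
    ∃ P : FreeAlgebra K Idx, ScalarValued (P ^ 5) ∧ (∃ a : Idx → M5 K, FreeAlgebra.lift K a (P ^ 5) ≠ 0) ∧
      ∀ ν : ℕ, 1 ≤ ν → ν < 5 → ¬ ScalarValued (P ^ ν) := by
  have hθ : gen K (0, 0) ∈ GG K := Algebra.subset_adjoin ⟨_, rfl⟩
  have hform : IsForm (DD (GG K)) := F5 (GG K) (F6 K) _ hθ (F7 K)
  have : CharP (Om K) 5 := charP_of_injective_algebraMap (algebraMap K (Om K)).injective 5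
  have : Infinite (FF (GG K)) := by
    refine Infinite.of_injective (fun k : K => (⟨algebraMap K (Om K) k,
      Subfield.subset_closure ((CC (GG K)).algebraMap_mem k)⟩ : FF (GG K))) ?_
    intro a b hab
    have h := congrArg (fun x : FF (GG K) => (x : Om K)) hab
    exact (algebraMap K (Om K)).injective h
  obtain ⟨z, hz, hzns, c, hc, hz5⟩ := TA (DD (GG K)) hform
  obtain ⟨e, he, he0, hez⟩ := (mem_DD _ _).mp hz
  obtain ⟨P, hP⟩ := F8a K (e • z) hez
  have hp5 : (e • z) ^ 5 = (e ^ 5 * c) • (1 : M5 (Om K)) := by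
    rw [smul_pow, hz5, smul_smul]
  have hec : e ^ 5 * c ≠ 0 := mul_ne_zero (pow_ne_zero _ he0) hc
  refine ⟨P, ?_, ?_, ?_⟩
  · rw [← F8c]
    exact ⟨e ^ 5 * c, by rw [map_pow, hP, hp5]⟩
  · apply F8d
    rw [map_pow, hP, hp5]
    exact smul_ne_zero hec one_ne_zero
  · intro ν h1 h5 hsc
    rw [← F8c] at hsc
    obtain ⟨d, hd⟩ := hsc
    rw [map_pow, hP] at hd
    have hk : ∃ k m : ℕ, ν * k = 5 * m + 1 := by
      interval_cases ν
      · exact ⟨1, 0, by norm_num⟩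
      · exact ⟨3, 1, by norm_num⟩
      · exact ⟨2, 1, by norm_num⟩
      · exact ⟨4, 3, by norm_num⟩
    obtain ⟨k, m, hkm⟩ := hk
    have h2 : (e • z) ^ (ν * k) = (d ^ k) • (1 : M5 (Om K)) := by
      rw [pow_mul, hd, smul_pow, one_pow]
    rw [hkm, pow_succ, pow_mul, hp5, smul_pow, one_pow, smul_mul_assoc, one_mul] at h2
    have hne : (e ^ 5 * c) ^ m * e ≠ 0 := mul_ne_zero (pow_ne_zero _ hec) he0
    apply hzns (((e ^ 5 * c) ^ m * e)⁻¹ * d ^ k)
    rw [mul_smul, ← h2, smul_smul ((e ^ 5 * c) ^ m) e z, smul_smul, inv_mul_cancel₀ hne, one_smul]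

end Pool.Agent.Helper58.CY
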