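import Pool.Agent.Helper58.CY.C4
import Pool.Agent.Helper58.CY.D8
import Pool.Agent.Helper58.CY.E1

/-! CY5 TA (MP_5d2531_al, project CY5, paper /team-store/CY5_paper.md): Theorem A for forms: C4, D8, E1 -/

namespace Pool.Agent.Helper58.CY

open Matrix Finset

variable {F : Type*} {Ω : Type*} [Field F] [Field Ω] [Algebra F Ω]

theorem TA [Infinite F] [IsAlgClosed Ω] [CharP Ω 5] (D : Subalgebra F (M5 Ω)) (hD : IsForm D) :
    ∃ z ∈ D, (∀ c : Ω, z ≠ c • (1 : M5 Ω)) ∧ ∃ c : Ω, c ≠ 0 ∧ z ^ 5 = c • (1 : M5 Ω) := by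
  have h5 : (5 : Ω) = 0 := by exact_mod_cast CharP.cast_eq_zero Ω 5
  by_cases hdiv : IsDiv D
  · have h6 : (6 : Ω) ≠ 0 := by
      have : (6 : Ω) = 5 + 1 := by norm_num
      rw [this, h5, zero_add]
      exact one_ne_zero
    obtain ⟨y, hy, hns, h1, h2, h3⟩ := C4 D hD hdiv h6
    obtain ⟨z, hz, hzs, c, hc⟩ := D8 D hD y hy hns h1 h2 h3
    refine ⟨z, hz, hzs, c, ?_, hc⟩
    rintro rfl
    have hz0 : z ≠ 0 := by
      intro h
      apply hzs 0
      rw [h, zero_smul]
    obtain ⟨z', -, hzz⟩ := hdiv z hz hz0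
    have hu : IsUnit z := by
      have h' : z' * z = 1 := mul_eq_one_comm.mp hzz
      exact ⟨⟨z, z', hzz, h'⟩, rfl⟩
    have hu5 : IsUnit (z ^ 5) := hu.pow 5
    rw [hc, zero_smul] at hu5
    exact not_isUnit_zero hu5
  · obtain ⟨u, hu, hu0, huu⟩ := E1 D hD hdiv
    refine ⟨1 + u, D.add_mem D.one_mem hu, ?_, 1, one_ne_zero, ?_⟩
    · intro c hc
      apply hu0
      have h1 : u = (c - 1) • (1 : M5 Ω) := by
        rw [sub_smul, one_smul, ← hc]
        simp
      rw [h1] at huu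
      rw [smul_mul_smul_comm, mul_one] at huu
      have h2 := congrFun (congrFun huu 0) 0
      simp at h2
      rw [h1, h2, zero_smul]
    · have h2 : (1 + u) ^ 5 = 1 + (5 : ℕ) • u + (u * u) * ((10 : ℕ) • 1 + (10 : ℕ) • u +
          (5 : ℕ) • (u * u) + u * u * u) := by
        have hc : Commute (1 : M5 Ω) u := Commute.one_left u
        simp only [pow_succ, pow_zero, one_mul, mul_add, add_mul, mul_one, ← mul_assoc]
        simp only [nsmul_eq_mul, mul_one, ← mul_assoc]
        push_cast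
        noncomm_ring
      rw [h2, huu, zero_mul, add_zero, one_smul]
      have h3 : ((5 : ℕ) • u : M5 Ω) = 0 := by
        rw [← Nat.cast_smul_eq_nsmul Ω]
        push_cast
        rw [h5, zero_smul]
      rw [h3, add_zero]

end Pool.Agent.Helper58.CY
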